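import Mathlib

/-! Permutations as lists of natural numbers: standardisation, connected lists,
and one-point extensions of connected sublists. -/

namespace Pool.Agent.Helper46.SC

open List

/-- The number of entries of `l` smaller than `x`. -/
def rk (l : List ℕ) (x : ℕ) : ℕ := l.countP (fun y => decide (y < x))

/-- Standardisation: every entry is replaced by its rank. -/
def std (l : List ℕ) : List ℕ := l.map (rk l)

/-- No cut of `l` into two nonempty parts without an inversion across the cut. -/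
def Conn (l : List ℕ) : Prop :=
  l ≠ [] ∧ ∀ a b : List ℕ, l = a ++ b → a ≠ [] → b ≠ [] → ∃ x ∈ a, ∃ y ∈ b, y < x

lemma length_std (l : List ℕ) : (std l).length = l.length := by simp [std]

lemma rk_le_rk (l : List ℕ) {x y : ℕ} (h : x ≤ y) : rk l x ≤ rk l y := by
  unfold rk
  apply List.countP_mono_left
  intro z _ hz
  simp only [decide_eq_true_eq] at hz ⊢
  omega

lemma rk_lt_rk {l : List ℕ} {x y : ℕ} (hx : x ∈ l) (h : x < y) : rk l x < rk l y := by
  unfold rk
  rw [List.countP_eq_length_filter, List.countP_eq_length_filter]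
  have hsub : (l.filter (fun z => decide (z < x))).Sublist (l.filter (fun z => decide (z < y))) := by
    have : l.filter (fun z => decide (z < x)) =
        (l.filter (fun z => decide (z < y))).filter (fun z => decide (z < x)) := by
      rw [List.filter_filter]
      apply List.filter_congr
      intro z _
      by_cases hz : z < x
      · have : z < y := hz.trans h
        simp [hz, this]
      · simp [hz]
    rw [this]
    exact List.filter_sublist
  rcases Nat.lt_or_ge (l.filter (fun z => decide (z < x))).length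
    (l.filter (fun z => decide (z < y))).length with h1 | h1
  · exact h1
  · have heq := hsub.eq_of_length_le h1
    have hmem : x ∈ l.filter (fun z => decide (z < y)) := by simp [hx, h]
    rw [← heq] at hmem
    simp at hmem

lemma rk_lt_iff {l : List ℕ} {x y : ℕ} (hx : x ∈ l) : rk l x < rk l y ↔ x < y := by
  constructor
  · intro h
    by_contra hc
    exact absurd (rk_le_rk l (not_lt.1 hc)) (not_le.2 h)
  · exact rk_lt_rk hx

lemma rk_inj {l : List ℕ} {x y : ℕ} (hx : x ∈ l) (hy : y ∈ l) (h : rk l x = rk l y) : x = y := by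
  rcases lt_trichotomy x y with h1 | h1 | h1
  · exact absurd h (rk_lt_rk hx h1).ne
  · exact h1
  · exact absurd h (rk_lt_rk hy h1).ne'

lemma rk_lt_length {l : List ℕ} {x : ℕ} (hx : x ∈ l) : rk l x < l.length := by
  have h1 : rk l x < rk l (x + 1) := rk_lt_rk hx (Nat.lt_succ_self x)
  exact lt_of_lt_of_le h1 List.countP_le_length

lemma rk_map {l : List ℕ} {f : ℕ → ℕ} {x : ℕ} (hx : ∀ y ∈ l, y < x ↔ f y < f x) :
    rk (l.map f) (f x) = rk l x := by
  unfold rk
  rw [List.countP_map]
  apply List.countP_congr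
  intro y hy
  simp only [Function.comp, decide_eq_true_eq]
  exact (hx y hy).symm

lemma std_map {l : List ℕ} {f : ℕ → ℕ} (hf : ∀ x ∈ l, ∀ y ∈ l, x < y ↔ f x < f y) :
    std (l.map f) = std l := by
  unfold std
  rw [List.map_map]
  apply List.map_congr_left
  intro x hx
  simp only [Function.comp]
  exact rk_map (fun y hy => hf y hy x hx)

lemma std_std (l : List ℕ) : std (std l) = std l := by
  conv_lhs => rw [std.eq_1 l]
  exact std_map (fun x hx y _ => (rk_lt_iff hx).symm)

lemma nodup_std {l : List ℕ} (h : l.Nodup) : (std l).Nodup := by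
  unfold std
  exact (List.nodup_map_iff_inj_on h).2 (fun x hx y hy hxy => rk_inj hx hy hxy)

lemma lt_of_mem_std {l : List ℕ} {v : ℕ} (h : v ∈ std l) : v < l.length := by
  unfold std at h
  obtain ⟨x, hx, rfl⟩ := List.mem_map.1 h
  exact rk_lt_length hx

/-- Sublists of the standardisation come from sublists of the list. -/
lemma sublist_std {l t : List ℕ} (h : t.Sublist (std l)) :
    ∃ t' : List ℕ, t'.Sublist l ∧ t = t'.map (rk l) := by
  unfold std at h
  obtain ⟨t', h1, h2⟩ := List.sublist_map_iff.1 h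
  exact ⟨t', h1, h2⟩

lemma std_map_rk {l t' : List ℕ} (h : t'.Sublist l) : std (t'.map (rk l)) = std t' :=
  std_map (fun x hx y _ => (rk_lt_iff (h.subset hx)).symm)

lemma conn_map {l : List ℕ} {f : ℕ → ℕ} (hf : ∀ x ∈ l, ∀ y ∈ l, x < y ↔ f x < f y) :
    Conn (l.map f) ↔ Conn l := by
  constructor
  · rintro ⟨h1, h2⟩
    refine ⟨by intro h; simp [h] at h1, ?_⟩
    rintro a b rfl ha hb
    obtain ⟨x, hx, y, hy, hxy⟩ := h2 (a.map f) (b.map f) (by simp) (by simpa using ha)
      (by simpa using hb)
    obtain ⟨x', hx', rfl⟩ := List.mem_map.1 hx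
    obtain ⟨y', hy', rfl⟩ := List.mem_map.1 hy
    exact ⟨x', hx', y', hy', (hf y' (by simp [hy']) x' (by simp [hx'])).2 hxy⟩
  · rintro ⟨h1, h2⟩
    refine ⟨by simpa using h1, ?_⟩
    intro a b hab ha hb
    obtain ⟨a', b', rfl, rfl, rfl⟩ := List.map_eq_append_iff.1 hab
    obtain ⟨x, hx, y, hy, hxy⟩ := h2 a' b' rfl (by simpa using ha) (by simpa using hb)
    exact ⟨f x, List.mem_map_of_mem hx, f y, List.mem_map_of_mem hy,
      (hf y (by simp [hy]) x (by simp [hx])).1 hxy⟩

lemma conn_std {l : List ℕ} : Conn (std l) ↔ Conn l :=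
  conn_map (fun _ hx _ _ => (rk_lt_iff hx).symm)

lemma conn_singleton (x : ℕ) : Conn [x] := by
  refine ⟨by simp, ?_⟩
  intro a b h ha hb
  have hl := congrArg List.length h
  simp only [List.length_singleton, List.length_append] at hl
  have h1 := List.length_pos_iff.2 ha
  have h2 := List.length_pos_iff.2 hb
  omega

/-- Adding an entry that forms an inversion with some entry of a connected list. -/
lemma conn_insert {t1 t2 : List ℕ} {z : ℕ} (h : Conn (t1 ++ t2))
    (hz : (∃ x ∈ t1, z < x) ∨ (∃ y ∈ t2, y < z)) : Conn (t1 ++ z :: t2) := by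
  refine ⟨by simp, ?_⟩
  intro a b hab ha hb
  rcases List.append_eq_append_iff.1 hab with ⟨c, rfl, hc⟩ | ⟨c, rfl, rfl⟩
  · -- `a = t1 ++ c`, `z :: t2 = c ++ b`
    rcases c with _ | ⟨z', c⟩
    · simp only [List.nil_append] at hc
      subst hc
      simp only [List.append_nil] at ha ⊢
      by_cases ht2 : t2 = []
      · subst ht2
        rcases hz with ⟨x, hx, hxz⟩ | ⟨y, hy, _⟩
        · exact ⟨x, hx, z, by simp, hxz⟩
        · simp at hy
      · obtain ⟨x, hx, y, hy, hxy⟩ := h.2 t1 t2 rfl ha ht2
        exact ⟨x, hx, y, by simp [hy], hxy⟩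
    · simp only [List.cons_append, List.cons.injEq] at hc
      obtain ⟨rfl, rfl⟩ := hc
      by_cases h0 : t1 ++ c = []
      · have h1 : t1 = [] := (List.append_eq_nil_iff.1 h0).1
        have h2 : c = [] := (List.append_eq_nil_iff.1 h0).2
        subst h1 h2
        rcases hz with ⟨x, hx, _⟩ | ⟨y, hy, hyz⟩
        · simp at hx
        · exact ⟨z, by simp, y, by simpa using hy, hyz⟩
      · obtain ⟨x, hx, y, hy, hxy⟩ := h.2 (t1 ++ c) b (by simp) h0 hb
        refine ⟨x, ?_, y, hy, hxy⟩
        simp only [List.mem_append, List.mem_cons] at hx ⊢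
        tauto
  · by_cases h0 : c ++ t2 = []
    · have h1 : c = [] := (List.append_eq_nil_iff.1 h0).1
      have h2 : t2 = [] := (List.append_eq_nil_iff.1 h0).2
      subst h1 h2
      rcases hz with ⟨x, hx, hxz⟩ | ⟨y, hy, _⟩
      · exact ⟨x, by simpa using hx, z, by simp, hxz⟩
      · simp at hy
    · obtain ⟨x, hx, y, hy, hxy⟩ := h.2 a (c ++ t2) (by simp) ha h0
      refine ⟨x, hx, y, ?_, hxy⟩
      simp only [List.mem_append, List.mem_cons] at hy ⊢
      tauto

/-- An entry of `l` outside the sublist `t` can be inserted at its place. -/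
lemma exists_insert {t l : List ℕ} (h : t.Sublist l) {z : ℕ} (hz : z ∈ l) (hzt : z ∉ t) :
    ∃ t1 t2, t = t1 ++ t2 ∧ (t1 ++ z :: t2).Sublist l := by
  induction h with
  | slnil => simp at hz
  | @cons l1 l2 a h ih =>
    rcases List.mem_cons.1 hz with rfl | hz'
    · exact ⟨[], l1, rfl, by simpa using h⟩
    · obtain ⟨t1, t2, rfl, h2⟩ := ih hz' hzt
      exact ⟨t1, t2, rfl, h2.cons a⟩
  | @cons_cons l1 l2 a h ih =>
    have hza : z ≠ a := fun he => hzt (by simp [he])
    have hz' : z ∈ l2 := by
      rcases List.mem_cons.1 hz with rfl | h'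
      · exact absurd rfl hza
      · exact h'
    obtain ⟨t1, t2, rfl, h2⟩ := ih hz' (fun h' => hzt (by simp [h']))
    exact ⟨a :: t1, t2, rfl, by simpa using h2⟩

/-- The extension lemma. -/
lemma exists_ext {t l : List ℕ} (hn : l.Nodup) (h : t.Sublist l) (hne : t ≠ l) (ht : Conn t)
    (hl : Conn l) :
    ∃ t', t.Sublist t' ∧ t'.Sublist l ∧ t'.length = t.length + 1 ∧ Conn t' := by
  -- it suffices to find an adjacent entry
  suffices H : ∃ t1 z t2, t = t1 ++ t2 ∧ (t1 ++ z :: t2).Sublist l ∧
      ((∃ x ∈ t1, z < x) ∨ (∃ y ∈ t2, y < z)) by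
    obtain ⟨t1, z, t2, rfl, h2, h3⟩ := H
    refine ⟨t1 ++ z :: t2, ?_, h2, by simp; omega, conn_insert ht h3⟩
    exact (List.Sublist.refl t1).append (List.sublist_cons_self z t2)
  -- the first entry of `t`
  obtain ⟨y, t3, rfl⟩ : ∃ y t3, t = y :: t3 := by
    rcases t with _ | ⟨y, t3⟩
    · exact absurd rfl ht.1
    · exact ⟨y, t3, rfl⟩
  obtain ⟨r1, r2, hr, hy, h3⟩ := List.cons_sublist_iff.1 h
  obtain ⟨p, q, rfl⟩ := List.append_of_mem hy
  have hl1 : l = p ++ y :: (q ++ r2) := by rw [hr]; simp
  have hsub3 : t3.Sublist (q ++ r2) := h3.trans (List.sublist_append_right q r2)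
  clear hr h3 hy
  generalize hl3 : q ++ r2 = l3 at hl1 hsub3
  clear hl3
  by_cases hp : p = []
  swap
  · -- there is an entry before `y`
    obtain ⟨x, hx, z, hz, hzx⟩ := hl.2 p (y :: l3) hl1 hp (by simp)
    have hxs : (x :: y :: t3).Sublist l := by
      rw [hl1]
      have h1 : [x].Sublist p := List.singleton_sublist.2 hx
      exact h1.append (hsub3.cons_cons y)
    rcases List.mem_cons.1 hz with rfl | hz'
    · exact ⟨[], x, z :: t3, rfl, hxs, Or.inr ⟨z, by simp, hzx⟩⟩
    · by_cases hzt : z ∈ t3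
      · exact ⟨[], x, y :: t3, rfl, hxs, Or.inr ⟨z, by simp [hzt], hzx⟩⟩
      · obtain ⟨s1, s2, rfl, hs⟩ := exists_insert hsub3 hz' hzt
        by_cases hzy : z < y
        · refine ⟨y :: s1, z, s2, rfl, ?_, Or.inl ⟨y, by simp, hzy⟩⟩
          rw [hl1]
          exact (hs.cons_cons y).trans (List.sublist_append_right p _)
        · exact ⟨[], x, y :: (s1 ++ s2), rfl, hxs, Or.inr ⟨y, by simp, by omega⟩⟩
  subst hp
  simp only [List.nil_append] at hl1
  -- the last entry of `t`
  obtain ⟨t4, w, ht4⟩ : ∃ t4 w, y :: t3 = t4 ++ [w] :=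
    ⟨(y :: t3).dropLast, (y :: t3).getLast (by simp), (List.dropLast_append_getLast (by simp)).symm⟩
  have h' := h
  rw [ht4] at h'
  obtain ⟨r1, r2, hr, h4, hw⟩ := List.append_sublist_iff.1 h'
  have hw' : w ∈ r2 := List.singleton_sublist.1 hw
  obtain ⟨q1, s, rfl⟩ := List.append_of_mem hw'
  have hl2 : l = (r1 ++ q1) ++ w :: s := by rw [hr]; simp
  have hsub4 : t4.Sublist (r1 ++ q1) := h4.trans (List.sublist_append_left r1 q1)
  clear hr h4 hw hw'
  generalize hl4 : r1 ++ q1 = l4 at hl2 hsub4
  clear hl4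
  by_cases hs : s = []
  swap
  · obtain ⟨x, hx, z, hz, hzx⟩ := hl.2 (l4 ++ [w]) s (by rw [hl2]; simp) (by simp) hs
    have hzs : ((y :: t3) ++ [z]).Sublist l := by
      rw [hl2, ht4]
      have h1 : [z].Sublist s := List.singleton_sublist.2 hz
      have h2 : (t4 ++ [w]).Sublist (l4 ++ [w]) := hsub4.append (List.Sublist.refl [w])
      have h3 := h2.append h1
      simpa using h3
    by_cases hxt : x ∈ y :: t3
    · exact ⟨y :: t3, z, [], by simp, hzs, Or.inl ⟨x, hxt, hzx⟩⟩
    · have hxw : x ≠ w := by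
        rintro rfl
        apply hxt
        rw [ht4]
        simp
      have hx4 : x ∈ l4 := by
        rcases List.mem_append.1 hx with h1 | h1
        · exact h1
        · simp at h1
          exact absurd h1 hxw
      have hxt4 : x ∉ t4 := by
        intro h1
        apply hxt
        rw [ht4]
        simp [h1]
      obtain ⟨s1, s2, hs12, hs'⟩ := exists_insert hsub4 hx4 hxt4
      by_cases hxw' : x < w
      · refine ⟨y :: t3, z, [], by simp, hzs, Or.inl ⟨w, ?_, by omega⟩⟩
        rw [ht4]
        simp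
      · refine ⟨s1, x, s2 ++ [w], ?_, ?_, Or.inr ⟨w, by simp, by omega⟩⟩
        · rw [ht4, hs12]
          simp
        · rw [hl2]
          have h1 : (w :: ([] : List ℕ)).Sublist (w :: s) := (List.nil_sublist s).cons_cons w
          have h2 := hs'.append h1
          simpa using h2
  subst hs
  -- now a missing entry lies strictly inside
  obtain ⟨z, hz, hzt⟩ : ∃ z ∈ l, z ∉ y :: t3 := by
    by_contra hc
    push Not at hc
    apply hne
    apply h.eq_of_length_le
    exact (List.Nodup.subperm hn hc).length_le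
  obtain ⟨t1, t2, ht12, h12⟩ := exists_insert h hz hzt
  refine ⟨t1, z, t2, ht12, h12, ?_⟩
  have h1 : t1 ≠ [] := by
    rintro rfl
    simp only [List.nil_append] at ht12 h12
    subst ht12
    rw [hl1] at h12 hn
    have hzy : z ≠ y := fun he => hzt (by simp [he])
    have := List.cons_sublist_cons'.1 h12
    rcases this with h5 | ⟨h5, _⟩
    · have h6 : y ∈ l3 := (h5.subset (by simp))
      rw [List.nodup_cons] at hn
      exact hn.1 h6
    · exact hzy h5
  have h2 : t2 ≠ [] := by
    rintro rfl
    simp only [List.append_nil] at ht12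
    rw [← ht12, ht4, hl2] at h12
    rw [hl2] at hn
    have hzw : z ≠ w := by
      rintro rfl
      apply hzt
      rw [ht4]
      simp
    -- `t4 ++ [w] ++ [z]` is a sublist of `l4 ++ [w]`
    have h5 := List.reverse_sublist.2 h12
    simp only [List.reverse_append, List.reverse_cons, List.reverse_nil, List.nil_append,
      List.cons_append, List.append_assoc, List.singleton_append] at h5
    rcases List.cons_sublist_cons'.1 h5 with h6 | ⟨h6, _⟩
    · have h7 : w ∈ l4.reverse := h6.subset (by simp)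
      have h8 : w ∈ l4 := List.mem_reverse.1 h7
      rw [List.nodup_append] at hn
      exact hn.2.2 w h8 w (by simp) rfl
    · exact hzw h6
  obtain ⟨x, hx, y', hy', hxy⟩ := ht.2 t1 t2 ht12 h1 h2
  by_cases hzx : z < x
  · exact Or.inl ⟨x, hx, hzx⟩
  · exact Or.inr ⟨y', hy', by omega⟩

lemma exists_ext_length {t l : List ℕ} (hn : l.Nodup) (h : t.Sublist l) (ht : Conn t)
    (hl : Conn l) (k : ℕ) (h1 : t.length ≤ k) (h2 : k ≤ l.length) :
    ∃ t', t.Sublist t' ∧ t'.Sublist l ∧ t'.length = k ∧ Conn t' := by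
  induction k with
  | zero =>
    have : t.length = 0 := by omega
    exact absurd (List.length_eq_zero_iff.1 this) ht.1
  | succ k ih =>
    rcases Nat.lt_or_ge k t.length with h3 | h3
    · exact ⟨t, List.Sublist.refl t, h, by omega, ht⟩
    · obtain ⟨t', h4, h5, h6, h7⟩ := ih h3 (by omega)
      have hne : t' ≠ l := by
        rintro rfl
        omega
      obtain ⟨t'', h8, h9, h10, h11⟩ := exists_ext hn h5 hne h7 hl
      exact ⟨t'', h4.trans h8, h9, by omega, h11⟩

lemma exists_eraseIdx {t l : List ℕ} (h : t.Sublist l) (hl : l.length = t.length + 1) :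
    ∃ i, i < l.length ∧ t = l.eraseIdx i := by
  induction h with
  | slnil => simp at hl
  | @cons l1 l2 a h ih =>
    have : l1 = l2 := h.eq_of_length (by simpa using hl.symm)
    subst this
    exact ⟨0, by simp, by simp⟩
  | @cons_cons l1 l2 a h ih =>
    obtain ⟨i, hi, rfl⟩ := ih (by simpa using hl)
    exact ⟨i + 1, by simpa using hi, by simp⟩

end Pool.Agent.Helper46.SC
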