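import Mathlib
import Pool.Agent.Helper46.SC.Basic

/-! Downward closed sets of connected permutations, and their essential members. -/

namespace Pool.Agent.Helper46.SC

open List

/-- A set of connected standard lists, closed under connected patterns. -/
structure DownConn (I : Set (List ℕ)) : Prop where
  nodup : ∀ l ∈ I, l.Nodup
  isStd : ∀ l ∈ I, std l = l
  conn : ∀ l ∈ I, Conn l
  down : ∀ l ∈ I, ∀ t : List ℕ, t.Sublist l → Conn t → std t ∈ I

/-- The members of length `n`. -/
def lev (I : Set (List ℕ)) (n : ℕ) : Set (List ℕ) := {l | l ∈ I ∧ l.length = n}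

/-- The level sizes are bounded. -/
def Bdd (I : Set (List ℕ)) : Prop := ∃ B : ℕ, ∀ n, (lev I n).ncard ≤ B

lemma lt_length_of_std {l : List ℕ} (h : std l = l) {x : ℕ} (hx : x ∈ l) : x < l.length := by
  rw [← h] at hx
  exact lt_of_mem_std hx

lemma mem_of_lt_length {l : List ℕ} (hn : l.Nodup) (h : std l = l) {x : ℕ} (hx : x < l.length) :
    x ∈ l := by
  have h1 : l.toFinset ⊆ Finset.range l.length := by
    intro y hy
    exact Finset.mem_range.2 (lt_length_of_std h (List.mem_toFinset.1 hy))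
  have h2 : l.toFinset = Finset.range l.length := by
    apply Finset.eq_of_subset_of_card_le h1
    rw [Finset.card_range, List.toFinset_card_of_nodup hn]
  have : x ∈ l.toFinset := by rw [h2]; exact Finset.mem_range.2 hx
  exact List.mem_toFinset.1 this

lemma finite_std (n : ℕ) : {l : List ℕ | l.Nodup ∧ std l = l ∧ l.length = n}.Finite := by
  apply Set.Finite.subset ((List.range n).permutations.toFinset.finite_toSet)
  rintro l ⟨h1, h2, h3⟩
  simp only [Finset.mem_coe, List.mem_toFinset, List.mem_permutations]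
  rw [List.perm_ext_iff_of_nodup h1 List.nodup_range]
  intro a
  rw [List.mem_range]
  constructor
  · intro ha
    rw [← h3]
    exact lt_length_of_std h2 ha
  · intro ha
    exact mem_of_lt_length h1 h2 (by rw [h3]; exact ha)

lemma DownConn.finite_lev {I : Set (List ℕ)} (h : DownConn I) (n : ℕ) : (lev I n).Finite :=
  (finite_std n).subset (fun l hl => ⟨h.nodup l hl.1, h.isStd l hl.1, hl.2⟩)

/-- The members of `I` that contain the pattern `p`. -/
def up (I : Set (List ℕ)) (p : List ℕ) : Set (List ℕ) :=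
  {l | l ∈ I ∧ ∃ t : List ℕ, t.Sublist l ∧ std t = p}

/-- The essential members: those contained in unboundedly many members. -/
def ess (I : Set (List ℕ)) : Set (List ℕ) := {p | p ∈ I ∧ ¬ Bdd (up I p)}

lemma lev_mono {A B : Set (List ℕ)} (h : A ⊆ B) (n : ℕ) : lev A n ⊆ lev B n :=
  fun _ hl => ⟨h hl.1, hl.2⟩

lemma Bdd.mono {A B : Set (List ℕ)} (hB : Bdd B) (hf : ∀ n, (lev B n).Finite) (h : A ⊆ B) :
    Bdd A := by
  obtain ⟨M, hM⟩ := hB
  exact ⟨M, fun n => (Set.ncard_le_ncard (lev_mono h n) (hf n)).trans (hM n)⟩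

lemma finite_lev_up {I : Set (List ℕ)} (h : DownConn I) (p : List ℕ) (n : ℕ) :
    (lev (up I p) n).Finite :=
  (h.finite_lev n).subset (lev_mono (fun _ hl => hl.1) n)

lemma mem_ess_of_sublist {I : Set (List ℕ)} (h : DownConn I) {p t : List ℕ} (hp : p ∈ ess I)
    (ht : t.Sublist p) (hc : Conn t) : std t ∈ ess I := by
  refine ⟨h.down p hp.1 t ht hc, fun hb => hp.2 ?_⟩
  refine hb.mono (finite_lev_up h _) ?_
  rintro l ⟨hl, s, hs, rfl⟩
  obtain ⟨t', h1, rfl⟩ := sublist_std ht
  exact ⟨hl, t', h1.trans hs, (std_map_rk h1).symm⟩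

lemma bdd_of_eventually {A : Set (List ℕ)} (k M : ℕ)
    (h : ∀ n, k ≤ n → (lev A n).ncard ≤ M) : Bdd A := by
  refine ⟨M + ∑ n ∈ Finset.range k, (lev A n).ncard, fun n => ?_⟩
  rcases Nat.lt_or_ge n k with h1 | h1
  · have : (lev A n).ncard ≤ ∑ n ∈ Finset.range k, (lev A n).ncard :=
      Finset.single_le_sum (f := fun n => (lev A n).ncard) (fun i _ => Nat.zero_le _)
        (Finset.mem_range.2 h1)
    omega
  · exact (h n h1).trans (Nat.le_add_right _ _)

/-- A finite union of bounded sets is bounded. -/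
lemma bdd_biUnion {ι : Type*} (s : Finset ι) (A : ι → Set (List ℕ))
    (h : ∀ i ∈ s, Bdd (A i)) : Bdd (⋃ i ∈ s, A i) := by
  choose! M hM using h
  refine ⟨∑ i ∈ s, M i, fun n => ?_⟩
  have h1 : lev (⋃ i ∈ s, A i) n = ⋃ i ∈ s, lev (A i) n := by
    ext l
    simp only [lev, Set.mem_iUnion, Set.mem_ofPred_eq]
    constructor
    · rintro ⟨⟨i, hi, hl⟩, hn⟩
      exact ⟨i, hi, hl, hn⟩
    · rintro ⟨i, hi, hl, hn⟩
      exact ⟨⟨i, hi, hl⟩, hn⟩
  rw [h1]
  refine (Finset.set_ncard_biUnion_le s _).trans ?_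
  exact Finset.sum_le_sum (fun i hi => hM i hi n)

/-- `p` is obtained from `q` by deleting one entry. -/
def Child (p q : List ℕ) : Prop := ∃ i, i < q.length ∧ std (q.eraseIdx i) = p

lemma exists_ess_parent {I : Set (List ℕ)} (h : DownConn I) {p : List ℕ} (hp : p ∈ ess I) :
    ∃ q ∈ ess I, q.length = p.length + 1 ∧ Child p q := by
  classical
  by_contra hcon
  push Not at hcon
  apply hp.2
  have hfin : (lev I (p.length + 1)).Finite := h.finite_lev _
  let Q := hfin.toFinset.filter (fun q => Child p q)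
  have hQ : Bdd (⋃ q ∈ Q, up I q) := by
    apply bdd_biUnion
    intro q hq
    simp only [Q, Finset.mem_filter, Set.Finite.mem_toFinset] at hq
    by_contra hb
    exact hcon q ⟨hq.1.1, hb⟩ hq.1.2 hq.2
  obtain ⟨M, hM⟩ := hQ
  apply bdd_of_eventually (p.length + 1) M
  intro n hn
  refine le_trans (Set.ncard_le_ncard ?_ ?_) (hM n)
  · rintro l ⟨⟨hl, t, ht, htp⟩, hln⟩
    refine ⟨?_, hln⟩
    have htc : Conn t := by
      rw [← conn_std, htp]
      exact h.conn p hp.1
    have hlen : t.length = p.length := by rw [← htp, length_std]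
    obtain ⟨t', h1, h2, h3, h4⟩ := exists_ext (h.nodup l hl) ht (by rintro rfl; omega) htc
      (h.conn l hl)
    simp only [Set.mem_iUnion]
    refine ⟨std t', ?_, hl, t', h2, rfl⟩
    simp only [Q, Finset.mem_filter, Set.Finite.mem_toFinset]
    refine ⟨⟨h.down l hl t' h2 h4, by rw [length_std]; omega⟩, ?_⟩
    obtain ⟨i, hi, hi'⟩ := exists_eraseIdx h1 h3
    refine ⟨i, by rw [length_std]; exact hi, ?_⟩
    have h5 : (std t').eraseIdx i = (t'.eraseIdx i).map (rk t') := by
      rw [std, List.eraseIdx_map]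
    rw [← htp, hi', h5]
    exact std_map_rk (List.eraseIdx_sublist t' i)
  · refine (h.finite_lev n).subset (lev_mono ?_ n)
    intro l hl
    simp only [Set.mem_iUnion] at hl
    obtain ⟨q, _, hl'⟩ := hl
    exact hl'.1

/-- `I` without the members containing a pattern of `M`. -/
def av (I : Set (List ℕ)) (M : List (List ℕ)) : Set (List ℕ) :=
  {l | l ∈ I ∧ ∀ μ ∈ M, ∀ t : List ℕ, t.Sublist l → std t ≠ μ}

lemma downConn_av {I : Set (List ℕ)} (h : DownConn I) (M : List (List ℕ)) : DownConn (av I M) where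
  nodup l hl := h.nodup l hl.1
  isStd l hl := h.isStd l hl.1
  conn l hl := h.conn l hl.1
  down l hl t ht hc := by
    refine ⟨h.down l hl.1 t ht hc, ?_⟩
    intro μ hμ s hs hsμ
    obtain ⟨s', h1, rfl⟩ := sublist_std hs
    rw [std_map_rk h1] at hsμ
    exact hl.2 μ hμ s' (h1.trans ht) hsμ

/-- Removing inessential patterns keeps the set unbounded. -/
lemma not_bdd_av {I : Set (List ℕ)} (h : DownConn I) (hI : ¬ Bdd I) (M : List (List ℕ))
    (hc : ∀ μ ∈ M, Conn μ) (hM : ∀ μ ∈ M, μ ∉ ess I) : ¬ Bdd (av I M) := by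
  classical
  rintro ⟨B, hB⟩
  apply hI
  have h1 : ∀ μ ∈ M.toFinset, Bdd (up I μ) := by
    intro μ hμ
    rw [List.mem_toFinset] at hμ
    by_cases hμI : μ ∈ I
    · by_contra hb
      exact hM μ hμ ⟨hμI, hb⟩
    · refine ⟨0, fun n => ?_⟩
      have : lev (up I μ) n = ∅ := by
        ext l
        simp only [Set.mem_empty_iff_false, iff_false]
        rintro ⟨⟨hl, t, ht, rfl⟩, _⟩
        exact hμI (h.down l hl t ht (conn_std.1 (hc _ hμ)))
      rw [this]
      simp
  obtain ⟨B', hB'⟩ := bdd_biUnion M.toFinset (fun μ => up I μ) h1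
  refine ⟨B + B', fun n => ?_⟩
  have h2 : lev I n ⊆ lev (av I M) n ∪ lev (⋃ μ ∈ M.toFinset, up I μ) n := by
    rintro l ⟨hl, hn⟩
    by_cases hex : ∃ μ ∈ M, ∃ t : List ℕ, t.Sublist l ∧ std t = μ
    · obtain ⟨μ, hμ, t, ht, hμt⟩ := hex
      right
      refine ⟨?_, hn⟩
      simp only [Set.mem_iUnion]
      exact ⟨μ, List.mem_toFinset.2 hμ, hl, t, ht, hμt⟩
    · left
      push Not at hex
      exact ⟨⟨hl, fun μ hμ t ht => hex μ hμ t ht⟩, hn⟩
  have hfin1 : (lev (av I M) n).Finite := (downConn_av h M).finite_lev n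
  have hfin2 : (lev (⋃ μ ∈ M.toFinset, up I μ) n).Finite := by
    refine (h.finite_lev n).subset (lev_mono ?_ n)
    intro l hl
    simp only [Set.mem_iUnion] at hl
    obtain ⟨q, _, hl'⟩ := hl
    exact hl'.1
  calc (lev I n).ncard ≤ (lev (av I M) n ∪ lev (⋃ μ ∈ M.toFinset, up I μ) n).ncard :=
        Set.ncard_le_ncard h2 (hfin1.union hfin2)
    _ ≤ (lev (av I M) n).ncard + (lev (⋃ μ ∈ M.toFinset, up I μ) n).ncard :=
        Set.ncard_union_le _ _
    _ ≤ B + B' := Nat.add_le_add (hB n) (hB' n)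

lemma ncard_av_le {I : Set (List ℕ)} (h : DownConn I) (M : List (List ℕ)) (n : ℕ) :
    (lev (av I M) n).ncard ≤ (lev I n).ncard :=
  Set.ncard_le_ncard (lev_mono (fun _ hl => hl.1) n) (h.finite_lev n)

lemma ncard_ess_le {I : Set (List ℕ)} (h : DownConn I) (n : ℕ) :
    (lev (ess I) n).ncard ≤ (lev I n).ncard :=
  Set.ncard_le_ncard (lev_mono (fun _ hl => hl.1) n) (h.finite_lev n)

lemma singleton_mem_ess {I : Set (List ℕ)} (h : DownConn I) (hI : ¬ Bdd I) : [0] ∈ ess I := by
  have h0 : up I [0] = I := by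
    ext l
    constructor
    · exact fun hl => hl.1
    · intro hl
      obtain ⟨x, t, rfl⟩ := List.exists_cons_of_ne_nil (h.conn l hl).1
      refine ⟨hl, [x], by simp, ?_⟩
      simp [std, rk]
  refine ⟨?_, by rw [h0]; exact hI⟩
  by_contra hc
  apply hI
  refine ⟨0, fun n => ?_⟩
  have : lev I n = ∅ := by
    ext l
    simp only [Set.mem_empty_iff_false, iff_false]
    rintro ⟨hl, _⟩
    rw [← h0] at hl
    obtain ⟨hl, t, ht, hst⟩ := hl
    apply hc
    rw [← hst]
    refine h.down l hl t ht ?_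
    have h1 : t.length = 1 := by
      rw [← length_std, hst]
      simp
    obtain ⟨a, rfl⟩ := List.length_eq_one_iff.1 h1
    exact conn_singleton a
  rw [this]
  simp

end Pool.Agent.Helper46.SC
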