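import Mathlib
import Pool.Agent.Helper46.SC.Cls

/-! Small facts on standard lists. -/

namespace Pool.Agent.Helper46.SC

open List

lemma countP_lt_range (n x : ℕ) (h : x ≤ n) :
    (List.range n).countP (fun y => decide (y < x)) = x := by
  induction n with
  | zero => simp at h; simp [h]
  | succ n ih =>
    rw [List.range_succ, List.countP_append]
    rcases Nat.lt_or_ge n x with h1 | h1
    · have h2 : x = n + 1 := by omega
      subst h2
      have h3 : (List.range n).countP (fun y => decide (y < n + 1)) = n := by
        rw [List.countP_eq_length.2]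
        · simp
        · intro a ha
          have := List.mem_range.1 ha
          simp only [decide_eq_true_eq]
          omega
      rw [h3]
      simp
    · rw [ih h1]
      simp [h1]

lemma std_of_perm {l : List ℕ} {n : ℕ} (h : l.Perm (List.range n)) : std l = l := by
  unfold std
  conv_rhs => rw [← List.map_id l]
  apply List.map_congr_left
  intro x hx
  have h1 : x < n := List.mem_range.1 (h.subset hx)
  unfold rk
  rw [h.countP_eq, countP_lt_range n x h1.le]
  rfl

lemma perm_of_std {l : List ℕ} (hn : l.Nodup) (h : std l = l) : l.Perm (List.range l.length) := by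
  rw [List.perm_ext_iff_of_nodup hn List.nodup_range]
  intro a
  rw [List.mem_range]
  exact ⟨fun ha => lt_length_of_std h ha, fun ha => mem_of_lt_length hn h ha⟩

/-- Pattern closure in a convenient form. -/
lemma DownConn.mem_of_map {I : Set (List ℕ)} (h : DownConn I) {l m : List ℕ} {φ : ℕ → ℕ}
    (hl : l ∈ I) (hm : (m.map φ).Sublist l) (hφ : ∀ x ∈ m, ∀ y ∈ m, x < y ↔ φ x < φ y)
    (hc : Conn m) (hs : std m = m) : m ∈ I := by
  have h1 := h.down l hl _ hm ((conn_map hφ).2 hc)
  rwa [std_map hφ, hs] at h1

lemma std3 {a b c : ℕ} (h1 : c < b) (h2 : b < a) : std [a, b, c] = [2, 1, 0] := by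
  have e1 : ¬ a < b := by omega
  have e2 : ¬ b < c := by omega
  have e3 : ¬ a < c := by omega
  have e4 : c < a := by omega
  simp [std, rk, List.countP_cons, h1, h2, e1, e2, e3, e4]

lemma conn210 : Conn [2, 1, 0] := by
  have h1 : Conn ([] ++ [0]) := conn_singleton 0
  have h2 : Conn ([] ++ 1 :: [0]) := conn_insert h1 (Or.inr ⟨0, by simp, by omega⟩)
  exact conn_insert (t1 := []) h2 (Or.inr ⟨0, by simp, by omega⟩)

lemma conn_pair {a b : ℕ} (h : b < a) : Conn [a, b] :=
  conn_insert (t1 := []) (t2 := [b]) (conn_singleton b) (Or.inr ⟨b, by simp, h⟩)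

/-- A member of `I` has no sublist with standardisation `μ` when `μ` is connected and
not in `I`. -/
lemma DownConn.avoid {I : Set (List ℕ)} (h : DownConn I) {l t μ : List ℕ} (hl : l ∈ I)
    (ht : t.Sublist l) (hμ : Conn μ) (hI : μ ∉ I) : std t ≠ μ := by
  rintro rfl
  exact hI (h.down l hl t ht (conn_std.1 hμ))

/-- If no entry is followed by a smaller one, the list is increasing. -/
lemma sortedLT_of_no_inv {l : List ℕ} (hn : l.Nodup)
    (h : ∀ x y : ℕ, [x, y].Sublist l → ¬ y < x) : l.Pairwise (· < ·) := by
  rw [List.pairwise_iff_forall_sublist]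
  intro a b hab
  have h1 : a ≠ b := by
    rintro rfl
    have := hab.nodup hn
    simp at this
  have := h a b hab
  omega

/-- Either a nodup list is increasing, or there is a first entry with a smaller one after it. -/
lemma exists_first_inv {l : List ℕ} (h : ¬ l.Pairwise (· < ·)) (hn : l.Nodup) :
    ∃ a x b, l = a ++ x :: b ∧ (∃ y ∈ b, y < x) ∧
      ∀ u ∈ a, ∀ v ∈ x :: b, ¬ v < u := by
  induction l with
  | nil => simp at h
  | cons z l ih =>
    by_cases hz : ∃ y ∈ l, y < z
    · exact ⟨[], z, l, rfl, hz, by simp⟩
    · push Not at hz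
      have h2 : ¬ l.Pairwise (· < ·) := by
        intro h3
        apply h
        rw [List.pairwise_cons]
        refine ⟨fun y hy => ?_, h3⟩
        have h4 := hz y hy
        have h5 : z ≠ y := by
          rintro rfl
          exact (List.nodup_cons.1 hn).1 hy
        omega
      obtain ⟨a, x, b, rfl, h3, h4⟩ := ih h2 (List.nodup_cons.1 hn).2
      refine ⟨z :: a, x, b, rfl, h3, ?_⟩
      intro u hu v hv
      rcases List.mem_cons.1 hu with rfl | hu
      · have := hz v (by simp at hv ⊢; tauto)
        omega
      · exact h4 u hu v hv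

end Pool.Agent.Helper46.SC
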