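import Mathlib
import Pool.Agent.Helper46.SC.PermB

/-! Permutation classes of `312`-avoiding permutations: unbounded classes have at least `n`
members of length `n`. -/

namespace Pool.Agent.Helper46.SC.Av312

open List

/-- `β ⊖ 1`. -/
def tm (β : List ℕ) : List ℕ := β.map (· + 1) ++ [0]

/-- `1 ⊕ β`. -/
def hm (β : List ℕ) : List ℕ := 0 :: β.map (· + 1)

lemma length_tm (β : List ℕ) : (tm β).length = β.length + 1 := by simp [tm]

lemma length_hm (β : List ℕ) : (hm β).length = β.length + 1 := by simp [hm]

lemma map_succ_inj {β β' : List ℕ} (h : β.map (· + 1) = β'.map (· + 1)) : β = β' :=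
  List.map_injective_iff.2 (fun _ _ h => Nat.succ_injective h) h

lemma tm_inj {β β' : List ℕ} (h : tm β = tm β') : β = β' :=
  map_succ_inj (List.append_inj_left' h rfl)

lemma hm_inj {β β' : List ℕ} (h : hm β = hm β') : β = β' := by
  unfold hm at h
  simp only [List.cons.injEq, true_and] at h
  exact map_succ_inj h

lemma rk_tm (β : List ℕ) (x : ℕ) : rk (tm β) (x + 1) = rk β x + 1 := by
  unfold tm rk
  rw [List.countP_append, List.countP_map]
  congr 1
  · apply List.countP_congr
    intro y _
    simp

lemma rk_hm (β : List ℕ) (x : ℕ) : rk (hm β) (x + 1) = rk β x + 1 := by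
  unfold hm rk
  rw [List.countP_cons, List.countP_map]
  have h1 : (if decide (0 < x + 1) = true then 1 else 0) = 1 := by simp
  rw [h1]
  congr 1
  apply List.countP_congr
  intro y _
  simp

lemma rk_zero (l : List ℕ) : rk l 0 = 0 := by
  unfold rk
  rw [List.countP_eq_zero]
  intro a _
  simp

lemma std_tm (β : List ℕ) : std (tm β) = tm (std β) := by
  conv_lhs => rw [std.eq_1 (tm β), tm, List.map_append, List.map_map]
  rw [tm, std, List.map_map]
  congr 1
  · apply List.map_congr_left
    intro x _
    simp only [Function.comp]
    exact rk_tm β x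
  · simp only [List.map_cons, List.map_nil, List.cons.injEq, and_true]
    exact rk_zero _

lemma std_hm (β : List ℕ) : std (hm β) = hm (std β) := by
  conv_lhs => rw [std.eq_1 (hm β), hm, List.map_cons, List.map_map]
  rw [hm, std, List.map_map]
  congr 1
  · exact rk_zero _
  · apply List.map_congr_left
    intro x _
    simp only [Function.comp]
    exact rk_hm β x

lemma std_map_succ (β : List ℕ) : std (β.map (· + 1)) = std β :=
  std_map (fun x _ y _ => by omega)

/-- A permutation class all of whose connected members of length at least two end with their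
smallest entry. -/
structure Cls (D : Set (List ℕ)) : Prop where
  nodup : ∀ l ∈ D, l.Nodup
  isStd : ∀ l ∈ D, std l = l
  down : ∀ l ∈ D, ∀ t : List ℕ, t.Sublist l → std t ∈ D
  last : ∀ l ∈ D, Conn l → 2 ≤ l.length → ∃ β, l = tm β

variable {D : Set (List ℕ)}

lemma Cls.finite_lev (h : Cls D) (n : ℕ) : (lev D n).Finite :=
  (finite_std n).subset (fun l hl => ⟨h.nodup l hl.1, h.isStd l hl.1, hl.2⟩)

/-- The members `β` with `β ⊖ 1` in the class. -/
def D1 (D : Set (List ℕ)) : Set (List ℕ) := {β | tm β ∈ D}

/-- The members `β` with `1 ⊕ β` in the class. -/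
def D2 (D : Set (List ℕ)) : Set (List ℕ) := {β | hm β ∈ D}

lemma isStd_of_tm (h : Cls D) {β : List ℕ} (hβ : tm β ∈ D) : std β = β := by
  have := h.isStd _ hβ
  rw [std_tm] at this
  exact tm_inj this

lemma isStd_of_hm (h : Cls D) {β : List ℕ} (hβ : hm β ∈ D) : std β = β := by
  have := h.isStd _ hβ
  rw [std_hm] at this
  exact hm_inj this

lemma D1_sub (h : Cls D) : D1 D ⊆ D := by
  intro β hβ
  have h1 := h.down _ hβ (β.map (· + 1)) (List.sublist_append_left _ _)
  rwa [std_map_succ, isStd_of_tm h hβ] at h1

lemma D2_sub (h : Cls D) : D2 D ⊆ D := by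
  intro β hβ
  have h1 := h.down _ hβ (β.map (· + 1)) (List.sublist_cons_self _ _)
  rwa [std_map_succ, isStd_of_hm h hβ] at h1

lemma cls_D1 (h : Cls D) : Cls (D1 D) where
  nodup l hl := h.nodup l (D1_sub h hl)
  isStd l hl := h.isStd l (D1_sub h hl)
  down l hl t ht := by
    have h1 : (tm t).Sublist (tm l) := (ht.map _).append (List.Sublist.refl _)
    have h2 := h.down _ hl _ h1
    rwa [std_tm] at h2
  last l hl := h.last l (D1_sub h hl)

lemma cls_D2 (h : Cls D) : Cls (D2 D) where
  nodup l hl := h.nodup l (D2_sub h hl)
  isStd l hl := h.isStd l (D2_sub h hl)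
  down l hl t ht := by
    have h1 : (hm t).Sublist (hm l) := (ht.map _).cons_cons 0
    have h2 := h.down _ hl _ h1
    rwa [std_hm] at h2
  last l hl := h.last l (D2_sub h hl)

/-- Sublists of every intermediate length. -/
lemma exists_between {s l : List ℕ} (h : s.Sublist l) : ∀ k : ℕ, s.length ≤ k → k ≤ l.length →
    ∃ t : List ℕ, s.Sublist t ∧ t.Sublist l ∧ t.length = k := by
  induction h with
  | slnil => intro k h1 h2; exact ⟨[], List.Sublist.slnil, List.Sublist.slnil, by simp at h2; simp [h2]⟩
  | @cons l1 l2 a h ih =>
    intro k h1 h2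
    rcases Nat.lt_or_ge k (l2.length + 1) with h3 | h3
    · obtain ⟨t, h4, h5, h6⟩ := ih k h1 (by omega)
      exact ⟨t, h4, h5.cons a, h6⟩
    · have h4 : k = l2.length + 1 := by simp at h2; omega
      exact ⟨a :: l2, h.cons a, List.Sublist.refl _, by simp [h4]⟩
  | @cons_cons l1 l2 a h ih =>
    intro k h1 h2
    simp only [List.length_cons] at h1 h2
    obtain ⟨t, h4, h5, h6⟩ := ih (k - 1) (by omega) (by omega)
    exact ⟨a :: t, h4.cons_cons a, h5.cons_cons a, by simp; omega⟩

/-- If all members of length `n + 1 ≥ 2` end with their smallest entry, the class is bounded. -/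
lemma bdd_of_all_tm (h : Cls D) (n : ℕ) (hn : 1 ≤ n)
    (hall : ∀ l ∈ lev D (n + 1), ∃ β, l = tm β) : Bdd D := by
  have key : ∀ m, n + 1 ≤ m → ∀ l ∈ lev D m, ∃ β, l = tm β := by
    intro m hm l hl
    have hne : l ≠ [] := by
      rintro rfl
      have := hl.2
      simp at this
      omega
    obtain ⟨A, z, rfl⟩ : ∃ A z, l = A ++ [z] :=
      ⟨l.dropLast, l.getLast hne, (List.dropLast_append_getLast hne).symm⟩
    have hlen : A.length + 1 = m := by simpa using hl.2
    have hz : z = 0 := by
      by_contra hz0
      have h0 : 0 ∈ A ++ [z] := mem_of_lt_length (h.nodup _ hl.1) (h.isStd _ hl.1) (by simp)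
      have h0A : 0 ∈ A := by
        simp only [List.mem_append, List.mem_singleton] at h0
        rcases h0 with h0 | h0
        · exact h0
        · omega
      obtain ⟨t, h1, h2, h3⟩ := exists_between (List.singleton_sublist.2 h0A) n (by simpa using hn)
        (by omega)
      have h4 := h.down _ hl.1 (t ++ [z]) (h2.append (List.Sublist.refl _))
      obtain ⟨β, hβ⟩ := hall _ ⟨h4, by rw [length_std]; simp [h3]⟩
      have h5 : std (t ++ [z]) = t.map (rk (t ++ [z])) ++ [rk (t ++ [z]) z] := by
        rw [std, List.map_append]
        rfl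
      rw [h5, tm] at hβ
      have h6 := List.append_inj_right' hβ rfl
      simp only [List.cons.injEq, and_true] at h6
      have h7 : rk (t ++ [z]) 0 < rk (t ++ [z]) z := by
        apply rk_lt_rk _ (by omega)
        exact List.mem_append_left _ (h1.subset (by simp))
      omega
    subst hz
    refine ⟨A.map (fun x => x - 1), ?_⟩
    unfold tm
    rw [List.map_map]
    congr 1
    conv_lhs => rw [← List.map_id A]
    apply List.map_congr_left
    intro x hx
    have hx0 : x ≠ 0 := by
      rintro rfl
      have := (List.nodup_append.1 (h.nodup _ hl.1)).2.2 _ hx 0 (by simp)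
      exact this rfl
    simp only [id, Function.comp]
    omega
  apply bdd_of_eventually n (lev D n).ncard
  intro m hm
  induction m, hm using Nat.le_induction with
  | base => exact le_rfl
  | succ m hm ih =>
    refine le_trans ?_ ih
    have h1 : lev D (m + 1) ⊆ tm '' (lev D m) := by
      intro l hl
      obtain ⟨β, rfl⟩ := key (m + 1) (by omega) l hl
      refine ⟨β, ⟨D1_sub h hl.1, ?_⟩, rfl⟩
      have := hl.2
      rw [length_tm] at this
      omega
    refine (Set.ncard_le_ncard h1 ((h.finite_lev m).image _)).trans ?_
    exact Set.ncard_image_le (h.finite_lev m)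

lemma bdd_of_all_hm (h : Cls D) (n : ℕ) (hn : 1 ≤ n)
    (hall : ∀ l ∈ lev D (n + 1), ∃ β, l = hm β) : Bdd D := by
  have key : ∀ m, n + 1 ≤ m → ∀ l ∈ lev D m, ∃ β, l = hm β := by
    intro m hm' l hl
    rcases l with _ | ⟨z, A⟩
    · have := hl.2
      simp at this
      omega
    have hlen : A.length + 1 = m := by simpa using hl.2
    have hz : z = 0 := by
      by_contra hz0
      have h0 : 0 ∈ z :: A := mem_of_lt_length (h.nodup _ hl.1) (h.isStd _ hl.1) (by simp)
      have h0A : 0 ∈ A := by
        simp only [List.mem_cons] at h0
        rcases h0 with h0 | h0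
        · omega
        · exact h0
      obtain ⟨t, h1, h2, h3⟩ := exists_between (List.singleton_sublist.2 h0A) n (by simpa using hn)
        (by omega)
      have h4 := h.down _ hl.1 (z :: t) (h2.cons_cons z)
      obtain ⟨β, hβ⟩ := hall _ ⟨h4, by rw [length_std]; simp [h3]⟩
      rw [std, List.map_cons, hm] at hβ
      simp only [List.cons.injEq] at hβ
      have h7 : rk (z :: t) 0 < rk (z :: t) z := by
        apply rk_lt_rk _ (by omega)
        exact List.mem_cons_of_mem _ (h1.subset (by simp))
      omega
    subst hz
    refine ⟨A.map (fun x => x - 1), ?_⟩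
    unfold hm
    rw [List.map_map]
    congr 1
    conv_lhs => rw [← List.map_id A]
    apply List.map_congr_left
    intro x hx
    have hx0 : x ≠ 0 := by
      rintro rfl
      exact (List.nodup_cons.1 (h.nodup _ hl.1)).1 hx
    simp only [id, Function.comp]
    omega
  apply bdd_of_eventually n (lev D n).ncard
  intro m hm'
  induction m, hm' using Nat.le_induction with
  | base => exact le_rfl
  | succ m hm' ih =>
    refine le_trans ?_ ih
    have h1 : lev D (m + 1) ⊆ hm '' (lev D m) := by
      intro l hl
      obtain ⟨β, rfl⟩ := key (m + 1) (by omega) l hl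
      refine ⟨β, ⟨D2_sub h hl.1, ?_⟩, rfl⟩
      have := hl.2
      rw [length_hm] at this
      omega
    refine (Set.ncard_le_ncard h1 ((h.finite_lev m).image _)).trans ?_
    exact Set.ncard_image_le (h.finite_lev m)

/-- The first component of a disconnected list. -/
lemma exists_first_comp {l : List ℕ} (hl : l ≠ []) (hc : ¬ Conn l) :
    ∃ a b : List ℕ, l = a ++ b ∧ b ≠ [] ∧ Conn a ∧ ∀ x ∈ a, ∀ y ∈ b, ¬ y < x := by
  classical
  have hex : ∃ k : ℕ, ∃ a b : List ℕ, a.length = k ∧ l = a ++ b ∧ a ≠ [] ∧ b ≠ [] ∧
      ∀ x ∈ a, ∀ y ∈ b, ¬ y < x := by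
    unfold Conn at hc
    push Not at hc
    obtain ⟨a, b, h1, h2, h3, h4⟩ := hc hl
    exact ⟨a.length, a, b, rfl, h1, h2, h3, fun x hx y hy => not_lt.2 (h4 x hx y hy)⟩
  obtain ⟨a, b, hk, hab, ha, hb, hno⟩ := Nat.find_spec hex
  refine ⟨a, b, hab, hb, ⟨ha, ?_⟩, hno⟩
  intro a1 a2 h12 h1 h2
  by_contra hcon
  push Not at hcon
  have hlt : a1.length < Nat.find hex := by
    rw [← hk, h12, List.length_append]
    have := List.length_pos_iff.2 h2
    omega
  apply Nat.find_min hex hlt
  refine ⟨a1, a2 ++ b, rfl, by rw [hab, h12]; simp, h1, by simp [hb], ?_⟩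
  intro x hx y hy
  rcases List.mem_append.1 hy with hy | hy
  · exact not_lt.2 (hcon x hx y hy)
  · exact hno x (by rw [h12]; simp [hx]) y hy

/-- The shape of a sum. -/
lemma sum_shape {a b : List ℕ} (hn : (a ++ b).Nodup) (hs : std (a ++ b) = a ++ b)
    (hno : ∀ x ∈ a, ∀ y ∈ b, ¬ y < x) :
    (∀ x ∈ a, x < a.length) ∧ (∀ y ∈ b, a.length ≤ y) := by
  have hlt : ∀ x ∈ a ++ b, x < (a ++ b).length := fun x hx => lt_length_of_std hs hx
  have h1 : ∀ x ∈ a, x < a.length := by
    intro x hx
    -- all values `≤ x` lie in `a`
    have h2 : List.range (x + 1) ⊆ a := by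
      intro v hv
      have hvx : v ≤ x := by
        have := List.mem_range.1 hv
        omega
      have hvl : v ∈ a ++ b := by
        apply mem_of_lt_length hn hs
        have := hlt x (List.mem_append_left _ hx)
        omega
      rcases List.mem_append.1 hvl with h3 | h3
      · exact h3
      · have h4 := hno x hx v h3
        have h5 : v ≠ x := by
          rintro rfl
          exact (List.nodup_append.1 hn).2.2 _ hx _ h3 rfl
        omega
    have h3 := (List.subperm_of_subset List.nodup_range h2).length_le
    rw [List.length_range] at h3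
    omega
  refine ⟨h1, ?_⟩
  intro y hy
  by_contra hlt'
  push Not at hlt'
  -- then `a` and `y` give too many values below `a.length`
  have h2 : (y :: a) ⊆ List.range a.length := by
    intro v hv
    rw [List.mem_range]
    rcases List.mem_cons.1 hv with rfl | hv
    · exact hlt'
    · exact h1 v hv
  have hnd : (y :: a).Nodup := by
    rw [List.nodup_cons]
    refine ⟨fun hya => (List.nodup_append.1 hn).2.2 _ hya _ hy rfl, (List.nodup_append.1 hn).1⟩
  have h3 := (List.subperm_of_subset hnd h2).length_le
  simp only [List.length_cons, List.length_range] at h3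
  omega

/-- Long sums yield many members. -/
lemma many_of_sum (h : Cls D) {a b : List ℕ} (n : ℕ) (hab : a ++ b ∈ D) (ha : Conn a)
    (hno : ∀ x ∈ a, ∀ y ∈ b, ¬ y < x) (hla : n + 1 ≤ a.length) (hlb : n ≤ b.length) :
    n + 1 ≤ (lev D (n + 1)).ncard := by
  have hnd := h.nodup _ hab
  have hna : a.Nodup := (List.nodup_append.1 hnd).1
  obtain ⟨x0, a', rfl⟩ := List.exists_cons_of_ne_nil ha.1
  have hσ : ∀ j : Fin (n + 1), ∃ s : List ℕ, s.Sublist (x0 :: a') ∧ s.length = (j : ℕ) + 1 ∧
      Conn s := by
    intro j
    obtain ⟨s, _, h2, h3, h4⟩ := exists_ext_length hna (t := [x0]) (by simp) (conn_singleton x0) ha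
      ((j : ℕ) + 1) (by simp) (by have := j.2; omega)
    exact ⟨s, h2, h3, h4⟩
  choose σ hσ1 hσ2 hσ3 using hσ
  let e : Fin (n + 1) → List ℕ := fun j => std (σ j ++ b.take (n - j))
  have hmem : ∀ j, e j ∈ lev D (n + 1) := by
    intro j
    refine ⟨h.down _ hab _ ((hσ1 j).append (List.take_sublist _ _)), ?_⟩
    simp only [e, length_std, List.length_append, hσ2, List.length_take]
    have := j.2
    omega
  have hinj : Function.Injective e := by
    have key : ∀ j k : Fin (n + 1), j < k → e j ≠ e k := by
      intro j k hjk heq
      have hjk' : (j : ℕ) < k := hjk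
      have hk := k.2
      -- the cut of `e k` at position `j + 1`
      let sk := σ k ++ b.take (n - k)
      let sj := σ j ++ b.take (n - j)
      obtain ⟨x, hx, y, hy, hxy⟩ := (hσ3 k).2 ((σ k).take (j + 1)) ((σ k).drop (j + 1))
        (List.take_append_drop _ _).symm
        (by
          intro h0
          have := congrArg List.length h0
          simp only [List.length_take, hσ2, List.length_nil] at this
          omega)
        (by
          intro h0
          have := congrArg List.length h0
          simp only [List.length_drop, hσ2, List.length_nil] at this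
          omega)
      have hnk : sk.Nodup := ((hσ1 k).append (List.take_sublist _ _)).nodup hnd
      -- express through `e`
      have h1 : (e k).take (j + 1) = ((σ k).take (j + 1)).map (rk sk) := by
        simp only [e, std]
        rw [← List.map_take, List.take_append_of_le_length (by rw [hσ2]; omega)]
      have h2 : (e k).drop (j + 1) =
          ((σ k).drop (j + 1) ++ b.take (n - k)).map (rk sk) := by
        simp only [e, std]
        rw [← List.map_drop, List.drop_append_of_le_length (by rw [hσ2]; omega)]
      have h3 : (e j).take (j + 1) = (σ j).map (rk sj) := by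
        simp only [e, std]
        rw [← List.map_take, List.take_left' (hσ2 j)]
      have h4 : (e j).drop (j + 1) = (b.take (n - j)).map (rk sj) := by
        simp only [e, std]
        rw [← List.map_drop, List.drop_left' (hσ2 j)]
      have hX : rk sk x ∈ (e k).take (j + 1) := by
        rw [h1]
        exact List.mem_map_of_mem hx
      have hY : rk sk y ∈ (e k).drop (j + 1) := by
        rw [h2]
        exact List.mem_map_of_mem (List.mem_append_left _ hy)
      have hlt : rk sk y < rk sk x := by
        apply rk_lt_rk _ hxy
        exact List.mem_append_left _ (List.mem_of_mem_drop hy)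
      rw [← heq, h3] at hX
      rw [← heq, h4] at hY
      obtain ⟨x', hx', hx''⟩ := List.mem_map.1 hX
      obtain ⟨y', hy', hy''⟩ := List.mem_map.1 hY
      have h5 : x' ∈ x0 :: a' := (hσ1 j).subset hx'
      have h6 : y' ∈ b := List.mem_of_mem_take hy'
      have h7 := hno x' h5 y' h6
      have h8 := rk_le_rk sj (not_lt.1 h7)
      omega
    intro j k hjk
    rcases lt_trichotomy j k with h1 | h1 | h1
    · exact absurd hjk (key j k h1)
    · exact h1
    · exact absurd hjk.symm (key k j h1)
  have hsub : Set.range e ⊆ lev D (n + 1) := by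
    rintro _ ⟨j, rfl⟩
    exact hmem j
  have h1 := Set.ncard_le_ncard hsub (h.finite_lev _)
  rw [← Set.image_univ, Set.ncard_image_of_injective _ hinj, Set.ncard_univ,
    Nat.card_eq_fintype_card, Fintype.card_fin] at h1
  exact h1

/-- A class whose two derived classes are bounded contains long sums. -/
lemma exists_long_sum (h : Cls D) (hD : ¬ Bdd D) (h1 : Bdd (D1 D)) (h2 : Bdd (D2 D)) (n : ℕ) :
    ∃ a b : List ℕ, a ++ b ∈ D ∧ Conn a ∧ (∀ x ∈ a, ∀ y ∈ b, ¬ y < x) ∧ n + 1 ≤ a.length ∧
      n ≤ b.length := by
  classical
  by_contra hcon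
  push Not at hcon
  apply hD
  obtain ⟨B1, hB1⟩ := h1
  obtain ⟨B2, hB2⟩ := h2
  apply bdd_of_eventually 2 (B1 + B2 + (2 * n + 1) * (B1 * B2))
  intro m hm2
  let S : Finset ℕ := Finset.range (n + 1) ∪ Finset.Ico (m - n) m
  let comb : ℕ → List ℕ × List ℕ → List ℕ := fun i p => tm p.1 ++ p.2.map (· + i)
  have hcover : lev D m ⊆ (tm '' (lev (D1 D) (m - 1)) ∪ hm '' (lev (D2 D) (m - 1))) ∪
      ⋃ i ∈ S, comb i '' ((lev (D1 D) (i - 1)) ×ˢ (lev (D2 D) (m - i))) := by
    intro l hl
    have hne : l ≠ [] := by
      rintro rfl
      have := hl.2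
      simp at this
      omega
    by_cases hc : Conn l
    · left; left
      obtain ⟨β, rfl⟩ := h.last l hl.1 hc (by rw [hl.2]; exact hm2)
      refine ⟨β, ⟨hl.1, ?_⟩, rfl⟩
      have := hl.2
      rw [length_tm] at this
      omega
    · obtain ⟨a, b, rfl, hb, ha, hno⟩ := exists_first_comp hne hc
      have hnd := h.nodup _ hl.1
      have hst := h.isStd _ hl.1
      obtain ⟨hsa, hsb⟩ := sum_shape hnd hst hno
      have hlen : a.length + b.length = m := by simpa using hl.2
      have hblen := List.length_pos_iff.2 hb
      have halen := List.length_pos_iff.2 ha.1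
      have haperm : a.Perm (List.range a.length) := by
        rw [List.perm_ext_iff_of_nodup (List.nodup_append.1 hnd).1 List.nodup_range]
        intro v
        rw [List.mem_range]
        refine ⟨hsa v, fun hv => ?_⟩
        have : v ∈ a ++ b := mem_of_lt_length hnd hst (by simp; omega)
        rcases List.mem_append.1 this with h3 | h3
        · exact h3
        · have := hsb v h3
          omega
      have haD : a ∈ D := by
        have := h.down _ hl.1 a (List.sublist_append_left _ _)
        rwa [std_of_perm haperm] at this
      -- the second part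
      let ρ := b.map (fun y => y - a.length)
      have hρ : ρ.map (· + a.length) = b := by
        simp only [ρ, List.map_map]
        conv_rhs => rw [← List.map_id b]
        apply List.map_congr_left
        intro y hy
        have := hsb y hy
        simp only [Function.comp, id]
        omega
      have hρlen : ρ.length = b.length := by simp [ρ]
      have hρstd : std ρ = ρ := by
        have hbperm : b.Perm ((List.range b.length).map (· + a.length)) := by
          rw [List.perm_ext_iff_of_nodup (List.nodup_append.1 hnd).2.1
            ((List.nodup_range).map (fun _ _ h => Nat.add_right_cancel h))]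
          intro v
          rw [List.mem_map]
          constructor
          · intro hv
            refine ⟨v - a.length, List.mem_range.2 ?_, ?_⟩
            · have h3 := lt_length_of_std hst (List.mem_append_right a hv)
              have h4 := hsb v hv
              rw [List.length_append] at h3
              omega
            · have h4 := hsb v hv
              omega
          · rintro ⟨w, hw, rfl⟩
            have hw' := List.mem_range.1 hw
            have : w + a.length ∈ a ++ b := mem_of_lt_length hnd hst (by simp; omega)
            rcases List.mem_append.1 this with h3 | h3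
            · have := hsa _ h3
              omega
            · exact h3
        have h3 := hbperm.map (fun y => y - a.length)
        rw [List.map_map] at h3
        have h4 : (List.range b.length).map ((fun y => y - a.length) ∘ (· + a.length)) =
            List.range b.length := by
          conv_rhs => rw [← List.map_id (List.range b.length)]
          apply List.map_congr_left
          intro y _
          simp
        rw [h4] at h3
        exact std_of_perm h3
      have hρD : ρ ∈ D2 D := by
        obtain ⟨x0, a', ha'⟩ := List.exists_cons_of_ne_nil ha.1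
        have hx0 : x0 ∈ a := by rw [ha']; simp
        have h3 : (x0 :: b).Sublist (a ++ b) := by
          have : [x0].Sublist a := List.singleton_sublist.2 hx0
          exact this.append (List.Sublist.refl b)
        have h4 := h.down _ hl.1 _ h3
        -- `x0 :: b` is order isomorphic to `hm ρ`
        let f : ℕ → ℕ := fun y => if y = 0 then x0 else (y - 1) + a.length
        have h5 : (hm ρ).map f = x0 :: b := by
          unfold hm
          rw [List.map_cons, List.map_map]
          have h6 : ρ.map (f ∘ (· + 1)) = ρ.map (· + a.length) := by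
            apply List.map_congr_left
            intro y _
            simp [f]
          rw [h6, hρ]
          simp [f]
        rw [← h5, std_map, std_hm, hρstd] at h4
        · exact h4
        · intro y hy z hz
          have hx0a := hsa x0 hx0
          simp only [f]
          split_ifs <;> omega
      rcases Nat.lt_or_ge a.length 2 with hlt | hge
      · left; right
        refine ⟨ρ, ⟨hρD, by rw [hρlen]; omega⟩, ?_⟩
        have h1a : a.length = 1 := by omega
        obtain ⟨x0, hx0⟩ := List.length_eq_one_iff.1 h1a
        have hx00 : x0 = 0 := by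
          have := hsa x0 (by rw [hx0]; simp)
          omega
        unfold hm
        have hρ' := hρ
        rw [h1a] at hρ'
        rw [hρ', hx0, hx00]
        rfl
      · right
        simp only [Set.mem_iUnion]
        refine ⟨a.length, ?_, ?_⟩
        · simp only [S, Finset.mem_union, Finset.mem_range, Finset.mem_Ico]
          by_cases h3 : n + 1 ≤ a.length
          · right
            have := hcon a b hl.1 ha (fun x hx y hy => not_lt.1 (hno x hx y hy)) h3
            omega
          · left
            omega
        · obtain ⟨β, hβ⟩ := h.last a haD ha hge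
          refine ⟨(β, ρ), ⟨⟨?_, ?_⟩, ⟨hρD, ?_⟩⟩, ?_⟩
          · show tm β ∈ D
            rw [← hβ]
            exact haD
          · have := congrArg List.length hβ
            rw [length_tm] at this
            show β.length = a.length - 1
            omega
          · show ρ.length = m - a.length
            rw [hρlen]
            omega
          · simp only [comb]
            rw [hρ, ← hβ]
  have f1 : ∀ k, (lev (D1 D) k).Finite := (cls_D1 h).finite_lev
  have f2 : ∀ k, (lev (D2 D) k).Finite := (cls_D2 h).finite_lev
  have hfinA : (tm '' (lev (D1 D) (m - 1))).Finite := (f1 _).image _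
  have hfinB : (hm '' (lev (D2 D) (m - 1))).Finite := (f2 _).image _
  have hfinC : (⋃ i ∈ S, comb i '' ((lev (D1 D) (i - 1)) ×ˢ (lev (D2 D) (m - i)))).Finite :=
    S.finite_toSet.biUnion (fun i _ => ((f1 _).prod (f2 _)).image _)
  refine (Set.ncard_le_ncard hcover ((hfinA.union hfinB).union hfinC)).trans ?_
  refine (Set.ncard_union_le _ _).trans ?_
  have c1 : (tm '' (lev (D1 D) (m - 1)) ∪ hm '' (lev (D2 D) (m - 1))).ncard ≤ B1 + B2 := by
    refine (Set.ncard_union_le _ _).trans ?_
    exact Nat.add_le_add ((Set.ncard_image_le (f1 _)).trans (hB1 _))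
      ((Set.ncard_image_le (f2 _)).trans (hB2 _))
  have c2 : (⋃ i ∈ S, comb i '' ((lev (D1 D) (i - 1)) ×ˢ (lev (D2 D) (m - i)))).ncard ≤
      (2 * n + 1) * (B1 * B2) := by
    refine (Finset.set_ncard_biUnion_le S _).trans ?_
    have c3 : ∀ i ∈ S, (comb i '' ((lev (D1 D) (i - 1)) ×ˢ (lev (D2 D) (m - i)))).ncard ≤
        B1 * B2 := by
      intro i _
      refine (Set.ncard_image_le ((f1 _).prod (f2 _))).trans ?_
      rw [Set.ncard_prod]
      exact Nat.mul_le_mul (hB1 _) (hB2 _)
    refine (Finset.sum_le_card_nsmul S _ _ c3).trans ?_
    rw [smul_eq_mul]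
    apply Nat.mul_le_mul_right
    have c4 : S.card ≤ (n + 1) + (m - (m - n)) := by
      refine (Finset.card_union_le _ _).trans ?_
      rw [Finset.card_range, Nat.card_Ico]
    omega
  omega

theorem le_ncard : ∀ (n : ℕ) (D : Set (List ℕ)), Cls D → ¬ Bdd D → n ≤ (lev D n).ncard := by
  intro n
  induction n with
  | zero => intro D _ _; exact Nat.zero_le _
  | succ n ih =>
    intro D h hD
    rcases Nat.eq_zero_or_pos n with rfl | hn
    · -- some member is nonempty
      have : (lev D 1).Nonempty := by
        by_contra hne
        rw [Set.not_nonempty_iff_eq_empty] at hne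
        apply hD
        apply bdd_of_eventually 1 0
        intro m hm
        have : lev D m = ∅ := by
          ext l
          simp only [Set.mem_empty_iff_false, iff_false]
          intro hl
          rcases l with _ | ⟨x, l⟩
          · have := hl.2
            simp at this
            omega
          · have h3 := h.down _ hl.1 [x] (by simp)
            have h4 : std [x] ∈ lev D 1 := ⟨h3, by rw [length_std]; rfl⟩
            rw [hne] at h4
            exact h4
        rw [this]
        simp
      exact (Set.ncard_pos (h.finite_lev 1)).2 this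
    · by_cases h1 : Bdd (D1 D)
      · by_cases h2 : Bdd (D2 D)
        · obtain ⟨a, b, hab, ha, hno, h3, h4⟩ := exists_long_sum h hD h1 h2 n
          exact many_of_sum h n hab ha hno h3 h4
        · have h3 := ih _ (cls_D2 h) h2
          obtain ⟨l, hl, hl'⟩ : ∃ l ∈ lev D (n + 1), ∀ β, l ≠ hm β := by
            by_contra hc
            push Not at hc
            exact hD (bdd_of_all_hm h n hn hc)
          have h4 : hm '' (lev (D2 D) n) ∪ {l} ⊆ lev D (n + 1) := by
            rintro l' (⟨β, hβ, rfl⟩ | hl0)
            · exact ⟨hβ.1, by rw [length_hm, hβ.2]⟩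
            · rw [Set.mem_singleton_iff.1 hl0]
              exact hl
          have h5 := Set.ncard_le_ncard h4 (h.finite_lev _)
          have hfin : (hm '' (lev (D2 D) n)).Finite := ((cls_D2 h).finite_lev n).image _
          rw [Set.union_singleton, Set.ncard_insert_of_notMem _ hfin,
            Set.InjOn.ncard_image (fun _ _ _ _ he => hm_inj he)] at h5
          · omega
          · rintro ⟨β, _, hβ⟩
            exact hl' β hβ.symm
      · have h3 := ih _ (cls_D1 h) h1
        obtain ⟨l, hl, hl'⟩ : ∃ l ∈ lev D (n + 1), ∀ β, l ≠ tm β := by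
          by_contra hc
          push Not at hc
          exact hD (bdd_of_all_tm h n hn hc)
        have h4 : tm '' (lev (D1 D) n) ∪ {l} ⊆ lev D (n + 1) := by
          rintro l' (⟨β, hβ, rfl⟩ | hl0)
          · exact ⟨hβ.1, by rw [length_tm, hβ.2]⟩
          · rw [Set.mem_singleton_iff.1 hl0]
            exact hl
        have h5 := Set.ncard_le_ncard h4 (h.finite_lev _)
        have hfin : (tm '' (lev (D1 D) n)).Finite := ((cls_D1 h).finite_lev n).image _
        rw [Set.union_singleton, Set.ncard_insert_of_notMem _ hfin,
          Set.InjOn.ncard_image (fun _ _ _ _ he => tm_inj he)] at h5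
        · omega
        · rintro ⟨β, _, hβ⟩
          exact hl' β hβ.symm

end Pool.Agent.Helper46.SC.Av312
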