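import Mathlib
import Pool.Agent.Helper46.SC.Av312

/-! Unbounded sets of connected permutations avoiding `312` have at least `n - 1` members of
length `n`. -/

namespace Pool.Agent.Helper46.SC.Av312

open List

lemma std312 {x y : ℕ} (h1 : 0 < y) (h2 : y < x) : std [x, 0, y] = [2, 0, 1] := by
  have e1 : ¬ x < y := by omega
  have e2 : 0 < x := by omega
  simp [std, rk, h1, h2, e1, e2]

lemma conn312 : Conn [2, 0, 1] := by
  have h1 : Conn ([2] ++ 1 :: []) := conn_pair (by omega)
  exact conn_insert (t1 := [2]) (t2 := [1]) h1 (Or.inl ⟨2, by simp, by omega⟩)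

lemma conn_tm (t : List ℕ) : Conn (tm t) := by
  refine ⟨by simp [tm], ?_⟩
  intro a b hab ha hb
  obtain ⟨b', z, rfl⟩ : ∃ b' z, b = b' ++ [z] :=
    ⟨b.dropLast, b.getLast hb, (List.dropLast_append_getLast hb).symm⟩
  unfold tm at hab
  rw [← List.append_assoc] at hab
  have h1 := List.append_inj' hab rfl
  simp only [List.cons.injEq, and_true] at h1
  obtain ⟨x, a', rfl⟩ := List.exists_cons_of_ne_nil ha
  refine ⟨x, by simp, z, by simp, ?_⟩
  have h2 : x ∈ t.map (· + 1) := by rw [h1.1]; simp
  obtain ⟨y, _, rfl⟩ := List.mem_map.1 h2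
  omega

variable {I : Set (List ℕ)}

lemma exists_tm (h : DownConn I) (h1 : [2, 0, 1] ∉ I) {l : List ℕ} (hl : l ∈ I)
    (hlen : 2 ≤ l.length) : ∃ β, l = tm β := by
  have hnd := h.nodup l hl
  have hst := h.isStd l hl
  have hconn := h.conn l hl
  have h0 : 0 ∈ l := mem_of_lt_length hnd hst (by omega)
  obtain ⟨X, Y, rfl⟩ := List.append_of_mem h0
  have hX0 : 0 ∉ X := fun hc => by
    have := (List.nodup_append.1 hnd).2.2 _ hc _ (by simp : 0 ∈ 0 :: Y)
    exact this rfl
  have hY0 : 0 ∉ Y := (List.nodup_cons.1 (List.nodup_append.1 hnd).2.1).1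
  have hY : Y = [] := by
    by_contra hY
    obtain ⟨x, hx, y, hy, hxy⟩ := hconn.2 (X ++ [0]) Y (by simp) (by simp) hY
    have hxX : x ∈ X := by
      simp only [List.mem_append, List.mem_singleton] at hx
      rcases hx with hx | rfl
      · exact hx
      · omega
    have hy0 : 0 < y := by
      rcases Nat.eq_zero_or_pos y with rfl | h5
      · exact absurd hy hY0
      · exact h5
    refine h.avoid hl (t := [x, 0, y]) ?_ conn312 h1 (std312 hy0 hxy)
    have s1 : [x].Sublist X := List.singleton_sublist.2 hxX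
    have s2 : [y].Sublist Y := List.singleton_sublist.2 hy
    exact s1.append (s2.cons_cons 0)
  subst hY
  refine ⟨X.map (fun x => x - 1), ?_⟩
  unfold tm
  rw [List.map_map]
  congr 1
  conv_lhs => rw [← List.map_id X]
  apply List.map_congr_left
  intro x hx
  have hx0 : x ≠ 0 := by
    rintro rfl
    exact hX0 hx
  simp only [id, Function.comp]
  omega

lemma cls_of_downConn (h : DownConn I) (h1 : [2, 0, 1] ∉ I) : Cls (D1 I) where
  nodup l hl := by
    have h2 := h.nodup _ hl
    have h3 : (l.map (· + 1)).Nodup := (List.nodup_append.1 h2).1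
    exact List.Nodup.of_map _ h3
  isStd l hl := by
    have h2 := h.isStd _ hl
    rw [std_tm] at h2
    exact tm_inj h2
  down l hl t ht := by
    have h2 : (tm t).Sublist (tm l) := (ht.map _).append (List.Sublist.refl _)
    have h3 := h.down _ hl _ h2 (conn_tm t)
    rwa [std_tm] at h3
  last l hl hc hlen := by
    have h2 := h.down _ hl (l.map (· + 1)) (List.sublist_append_left _ _)
      ((conn_map (fun x _ y _ => by omega)).2 hc)
    rw [std_map_succ] at h2
    have h3 := h.isStd _ hl
    rw [std_tm] at h3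
    rw [tm_inj h3] at h2
    exact exists_tm h h1 h2 hlen

theorem succ_le_ncard (h : DownConn I) (hI : ¬ Bdd I) (h1 : [2, 0, 1] ∉ I) (n : ℕ) :
    n + 1 ≤ (lev I (n + 2)).ncard := by
  have hcls := cls_of_downConn h h1
  have hD : ¬ Bdd (D1 I) := by
    rintro ⟨B, hB⟩
    apply hI
    apply bdd_of_eventually 2 B
    intro m hm
    have h2 : lev I m ⊆ tm '' (lev (D1 I) (m - 1)) := by
      intro l hl
      obtain ⟨β, rfl⟩ := exists_tm h h1 hl.1 (by rw [hl.2]; exact hm)
      refine ⟨β, ⟨hl.1, ?_⟩, rfl⟩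
      have := hl.2
      rw [length_tm] at this
      omega
    refine (Set.ncard_le_ncard h2 ((hcls.finite_lev _).image _)).trans ?_
    exact (Set.ncard_image_le (hcls.finite_lev _)).trans (hB _)
  have key := le_ncard (n + 1) _ hcls hD
  refine key.trans ?_
  have hinj : Set.InjOn tm (lev (D1 I) (n + 1)) := fun _ _ _ _ he => tm_inj he
  rw [← hinj.ncard_image]
  refine Set.ncard_le_ncard ?_ (h.finite_lev _)
  rintro _ ⟨β, hβ, rfl⟩
  exact ⟨hβ.1, by rw [length_tm, hβ.2]⟩

end Pool.Agent.Helper46.SC.Av312
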