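import Mathlib
import Pool.Agent.Helper46.SC.Av312Main
import Pool.Agent.R120.SumDef

/-! Permutations of `Fin n` and standard lists. -/

namespace Pool.Agent.Helper46.SC

open List Pool.Agent.R120 Pool.Agent.R120.Antichain Pool.Agent.R120.SumClass

/-- One-line notation. -/
def toL {n : ℕ} (π : Equiv.Perm (Fin n)) : List ℕ := List.ofFn (fun i => (π i : ℕ))

lemma length_toL {n : ℕ} (π : Equiv.Perm (Fin n)) : (toL π).length = n := by simp [toL]

lemma nodup_toL {n : ℕ} (π : Equiv.Perm (Fin n)) : (toL π).Nodup := by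
  unfold toL
  rw [List.nodup_ofFn]
  intro i j h
  exact π.injective (Fin.ext h)

lemma mem_toL {n : ℕ} {π : Equiv.Perm (Fin n)} {x : ℕ} : x ∈ toL π ↔ x < n := by
  unfold toL
  rw [List.mem_ofFn]
  constructor
  · rintro ⟨i, rfl⟩
    exact (π i).2
  · intro h
    exact ⟨π.symm ⟨x, h⟩, by simp⟩

lemma toL_perm {n : ℕ} (π : Equiv.Perm (Fin n)) : (toL π).Perm (List.range n) := by
  rw [List.perm_ext_iff_of_nodup (nodup_toL π) List.nodup_range]
  intro a
  rw [mem_toL, List.mem_range]

lemma std_toL {n : ℕ} (π : Equiv.Perm (Fin n)) : std (toL π) = toL π := std_of_perm (toL_perm π)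

lemma toL_inj {n : ℕ} {π ρ : Equiv.Perm (Fin n)} (h : toL π = toL ρ) : π = ρ := by
  unfold toL at h
  have h1 := List.ofFn_injective h
  ext i
  exact congrFun h1 i

lemma exists_toL {n : ℕ} {l : List ℕ} (h : l.Perm (List.range n)) :
    ∃ π : Equiv.Perm (Fin n), toL π = l := by
  have hlen : l.length = n := by rw [h.length_eq, List.length_range]
  have hlt : ∀ i : Fin n, l[(i : ℕ)]'(by rw [hlen]; exact i.2) < n := fun i =>
    List.mem_range.1 (h.subset (List.getElem_mem _))
  have hn : l.Nodup := h.nodup_iff.2 List.nodup_range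
  let f : Fin n → Fin n := fun i => ⟨l[(i : ℕ)]'(by rw [hlen]; exact i.2), hlt i⟩
  have hf : Function.Injective f := by
    intro i j hij
    have h1 : l[(i : ℕ)]'(by rw [hlen]; exact i.2) = l[(j : ℕ)]'(by rw [hlen]; exact j.2) :=
      congrArg Fin.val hij
    exact Fin.ext ((List.Nodup.getElem_inj_iff hn).1 h1)
  let π : Equiv.Perm (Fin n) := Equiv.ofBijective f (Finite.injective_iff_bijective.1 hf)
  refine ⟨π, ?_⟩
  apply List.ext_getElem
  · rw [length_toL, hlen]
  · intro i h1 h2
    simp [toL, π, f]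

lemma getElem_toL {n : ℕ} (π : Equiv.Perm (Fin n)) (i : ℕ) (h : i < (toL π).length) :
    (toL π)[i] = (π ⟨i, by rwa [length_toL] at h⟩ : ℕ) := by
  simp [toL]

lemma contains_of_sublist {n : ℕ} {π : Equiv.Perm (Fin n)} {t : List ℕ}
    (h : t.Sublist (toL π)) :
    ∃ (k : ℕ) (σ : Equiv.Perm (Fin k)), toL σ = std t ∧ Contains σ π := by
  obtain ⟨f, hf⟩ := List.sublist_iff_exists_fin_orderEmbedding_get_eq.1 h
  have hnd : t.Nodup := h.nodup (nodup_toL π)
  have hp := perm_of_std (nodup_std hnd) (std_std t)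
  rw [length_std] at hp
  obtain ⟨σ, hσ⟩ := exists_toL hp
  refine ⟨t.length, σ, hσ, fun i => Fin.cast (length_toL π) (f i), ?_, ?_⟩
  · intro i j hij
    have := f.strictMono hij
    simpa using this
  · intro i j
    have e1 : ∀ i : Fin t.length, (σ i : ℕ) = rk t (t.get i) := by
      intro i
      have h1 : (toL σ)[(i : ℕ)]'(by rw [length_toL]; exact i.2) = (σ i : ℕ) := getElem_toL _ _ _
      rw [← h1]
      simp only [hσ]
      simp [std]
    have e2 : ∀ i : Fin t.length, t.get i = (π (Fin.cast (length_toL π) (f i)) : ℕ) := by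
      intro i
      rw [hf i]
      simp [toL]
      rfl
    rw [Fin.lt_def, e1, e1, rk_lt_iff (List.get_mem t i), e2, e2, ← Fin.lt_def]

lemma sublist_of_contains {n k : ℕ} {π : Equiv.Perm (Fin n)} {σ : Equiv.Perm (Fin k)}
    (h : Contains σ π) : ∃ t : List ℕ, t.Sublist (toL π) ∧ std t = toL σ := by
  obtain ⟨f, hf, hσ⟩ := h
  let t : List ℕ := List.ofFn (fun i : Fin k => (π (f i) : ℕ))
  have htlen : t.length = k := by simp [t]
  refine ⟨t, ?_, ?_⟩
  · rw [List.sublist_iff_exists_fin_orderEmbedding_get_eq]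
    refine ⟨OrderEmbedding.ofStrictMono (fun i => Fin.cast (length_toL π).symm
      (f (Fin.cast htlen i))) ?_, ?_⟩
    · intro i j hij
      have : f (Fin.cast htlen i) < f (Fin.cast htlen j) := hf (by simpa using hij)
      simpa using this
    · intro i
      simp [t, toL]
      rfl
  · let g : ℕ → ℕ := fun v => if hv : v < k then (π (f (σ.symm ⟨v, hv⟩)) : ℕ) else 0
    have h1 : t = (toL σ).map g := by
      apply List.ext_getElem
      · rw [htlen, List.length_map, length_toL]
      · intro i h1 h2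
        rw [List.getElem_map, getElem_toL]
        simp only [t, List.getElem_ofFn, g]
        rw [dif_pos (Fin.is_lt _)]
        simp
    rw [h1, std_map, std_toL]
    intro x hx y hy
    rw [mem_toL] at hx hy
    simp only [g]
    rw [dif_pos hx, dif_pos hy, ← Fin.lt_def, ← hσ]
    simp

lemma contains_inv {n k : ℕ} {π : Equiv.Perm (Fin n)} {σ : Equiv.Perm (Fin k)}
    (h : Contains σ π) : Contains σ⁻¹ π⁻¹ := by
  obtain ⟨f, hf, hσ⟩ := h
  refine ⟨fun v => π (f (σ⁻¹ v)), ?_, ?_⟩
  · intro v w hvw
    rw [← hσ]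
    simpa using hvw
  · intro v w
    rw [Equiv.Perm.inv_eq_iff_eq.2 (rfl : π (f (σ⁻¹ v)) = π (f (σ⁻¹ v))),
      Equiv.Perm.inv_eq_iff_eq.2 (rfl : π (f (σ⁻¹ w)) = π (f (σ⁻¹ w)))]
    exact (hf.lt_iff_lt).symm

/-- Connectivity in terms of cuts. -/
lemma conn_toL_iff {n : ℕ} (π : Equiv.Perm (Fin n)) : Conn (toL π) ↔
    0 < n ∧ ∀ k : ℕ, 0 < k → k < n → ∃ i j : Fin n, (i : ℕ) < k ∧ k ≤ (j : ℕ) ∧ π j < π i := by
  constructor
  · rintro ⟨h1, h2⟩
    have hn : 0 < n := by
      rcases Nat.eq_zero_or_pos n with rfl | h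
      · exact absurd (by simp [toL]) h1
      · exact h
    refine ⟨hn, fun k hk0 hkn => ?_⟩
    obtain ⟨x, hx, y, hy, hxy⟩ := h2 ((toL π).take k) ((toL π).drop k)
      (List.take_append_drop k _).symm
      (by
        intro h0
        have := congrArg List.length h0
        rw [List.length_take, length_toL, List.length_nil] at this
        omega)
      (by
        intro h0
        have := congrArg List.length h0
        rw [List.length_drop, length_toL, List.length_nil] at this
        omega)
    obtain ⟨i, hi, rfl⟩ := List.mem_iff_getElem.1 hx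
    obtain ⟨j, hj, rfl⟩ := List.mem_iff_getElem.1 hy
    rw [List.length_take, length_toL] at hi
    rw [List.length_drop, length_toL] at hj
    rw [List.getElem_take, List.getElem_drop, getElem_toL, getElem_toL] at hxy
    exact ⟨⟨i, by omega⟩, ⟨k + j, by omega⟩, by simp; omega, by simp, hxy⟩
  · rintro ⟨hn, h⟩
    refine ⟨by
      intro h0
      have := congrArg List.length h0
      rw [length_toL, List.length_nil] at this
      omega, ?_⟩
    intro a b hab ha hb
    have hla := List.length_pos_iff.2 ha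
    have hlb := List.length_pos_iff.2 hb
    have hlen : a.length + b.length = n := by
      rw [← List.length_append, ← hab, length_toL]
    obtain ⟨i, j, hi, hj, hij⟩ := h a.length hla (by omega)
    refine ⟨(π i : ℕ), ?_, (π j : ℕ), ?_, hij⟩
    · have h1 : (toL π)[(i : ℕ)]'(by rw [length_toL]; exact i.2) = (π i : ℕ) := getElem_toL _ _ _
      rw [← h1]
      simp only [hab]
      rw [List.getElem_append_left hi]
      exact List.getElem_mem _
    · have h1 : (toL π)[(j : ℕ)]'(by rw [length_toL]; exact j.2) = (π j : ℕ) := getElem_toL _ _ _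
      rw [← h1]
      simp only [hab]
      rw [List.getElem_append_right hj]
      exact List.getElem_mem _

lemma conn_inv {n : ℕ} {π : Equiv.Perm (Fin n)} (h : Conn (toL π)) : Conn (toL π⁻¹) := by
  classical
  rw [conn_toL_iff] at h ⊢
  refine ⟨h.1, fun k hk0 hkn => ?_⟩
  obtain ⟨i, j, hi, hj, hij⟩ := h.2 k hk0 hkn
  -- some position before the cut has a value after it
  have h1 : ∃ i : Fin n, (i : ℕ) < k ∧ k ≤ (π i : ℕ) := by
    by_contra hc
    push Not at hc
    -- then `π` preserves `[0, k)`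
    let S : Finset (Fin n) := Finset.univ.filter (fun i => (i : ℕ) < k)
    have hS : S.image π ⊆ S := by
      intro v hv
      obtain ⟨u, hu, rfl⟩ := Finset.mem_image.1 hv
      simp only [S, Finset.mem_filter, Finset.mem_univ, true_and] at hu ⊢
      exact hc u hu
    have hS' : S.image π = S := Finset.eq_of_subset_of_card_le hS
      (by rw [Finset.card_image_of_injective _ π.injective])
    have hj' : π j ∉ S := by
      intro hjS
      rw [← hS'] at hjS
      obtain ⟨u, hu, hu'⟩ := Finset.mem_image.1 hjS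
      have : u = j := π.injective hu'
      subst this
      simp only [S, Finset.mem_filter, Finset.mem_univ, true_and] at hu
      omega
    simp only [S, Finset.mem_filter, Finset.mem_univ, true_and] at hj'
    have := hc i hi
    rw [Fin.lt_def] at hij
    omega
  obtain ⟨i0, hi0, hi0'⟩ := h1
  -- some position after the cut has a value before it
  have h2 : ∃ j : Fin n, k ≤ (j : ℕ) ∧ (π j : ℕ) < k := by
    by_contra hc
    push Not at hc
    let S : Finset (Fin n) := Finset.univ.filter (fun i => k ≤ (i : ℕ))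
    have hS : S.image π ⊆ S := by
      intro v hv
      obtain ⟨u, hu, rfl⟩ := Finset.mem_image.1 hv
      simp only [S, Finset.mem_filter, Finset.mem_univ, true_and] at hu ⊢
      exact hc u hu
    have hS' : S.image π = S := Finset.eq_of_subset_of_card_le hS
      (by rw [Finset.card_image_of_injective _ π.injective])
    have hmem : π i0 ∈ S := by
      simp only [S, Finset.mem_filter, Finset.mem_univ, true_and]
      exact hi0'
    rw [← hS'] at hmem
    obtain ⟨u, hu, hu'⟩ := Finset.mem_image.1 hmem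
    have : u = i0 := π.injective hu'
    subst this
    simp only [S, Finset.mem_filter, Finset.mem_univ, true_and] at hu
    omega
  obtain ⟨j0, hj0, hj0'⟩ := h2
  refine ⟨π j0, π i0, hj0', hi0', ?_⟩
  rw [Equiv.Perm.inv_eq_iff_eq.2 (rfl : π i0 = π i0),
    Equiv.Perm.inv_eq_iff_eq.2 (rfl : π j0 = π j0), Fin.lt_def]
  omega

/-- The inverses of the members of a set of lists. -/
def invS (I : Set (List ℕ)) : Set (List ℕ) :=
  {l | ∃ (n : ℕ) (π : Equiv.Perm (Fin n)), toL π ∈ I ∧ l = toL π⁻¹}

lemma downConn_invS {I : Set (List ℕ)} (h : DownConn I) : DownConn (invS I) where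
  nodup := by
    rintro _ ⟨n, π, _, rfl⟩
    exact nodup_toL _
  isStd := by
    rintro _ ⟨n, π, _, rfl⟩
    exact std_toL _
  conn := by
    rintro _ ⟨n, π, hπ, rfl⟩
    exact conn_inv (h.conn _ hπ)
  down := by
    rintro _ ⟨n, π, hπ, rfl⟩ t ht hc
    obtain ⟨k, σ, hσ, hcon⟩ := contains_of_sublist ht
    refine ⟨k, σ⁻¹, ?_, by rw [inv_inv, hσ]⟩
    have h1 := contains_inv hcon
    rw [inv_inv] at h1
    obtain ⟨t', ht', hst'⟩ := sublist_of_contains h1
    rw [← hst']
    apply h.down _ hπ t' ht'
    rw [← conn_std, hst']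
    apply conn_inv
    rw [hσ, conn_std]
    exact hc

lemma ncard_lev_invS {I : Set (List ℕ)} (h : DownConn I) (n : ℕ) :
    (lev (invS I) n).ncard = (lev I n).ncard := by
  have key : ∀ J : Set (List ℕ), DownConn J → (lev (invS J) n).ncard ≤ (lev J n).ncard := by
    intro J hJ
    let A : Set (Equiv.Perm (Fin n)) := {π | toL π ∈ J}
    have h1 : lev (invS J) n ⊆ (fun π : Equiv.Perm (Fin n) => toL π⁻¹) '' A := by
      rintro l ⟨⟨m, π, hπ, rfl⟩, hl⟩
      rw [length_toL] at hl
      subst hl
      exact ⟨π, hπ, rfl⟩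
    have h2 : toL '' A ⊆ lev J n := by
      rintro _ ⟨π, hπ, rfl⟩
      exact ⟨hπ, length_toL π⟩
    have h3 := Set.ncard_le_ncard h2 (hJ.finite_lev n)
    rw [Set.InjOn.ncard_image (fun _ _ _ _ he => toL_inj he)] at h3
    exact ((Set.ncard_le_ncard h1 (Set.toFinite _)).trans (Set.ncard_image_le (Set.toFinite _))).trans
      h3
  apply le_antisymm (key I h)
  have h1 := key (invS I) (downConn_invS h)
  have h2 : invS (invS I) = I := by
    ext l
    constructor
    · rintro ⟨n, π, ⟨m, ρ, hρ, hπρ⟩, rfl⟩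
      have hnm : n = m := by
        have := congrArg List.length hπρ
        rwa [length_toL, length_toL] at this
      subst hnm
      rw [toL_inj hπρ, inv_inv]
      exact hρ
    · intro hl
      obtain ⟨π, hπ⟩ := exists_toL (perm_of_std (h.nodup l hl) (h.isStd l hl))
      refine ⟨l.length, π⁻¹, ⟨l.length, π, by rw [hπ]; exact hl, rfl⟩, ?_⟩
      rw [inv_inv, hπ]
  rwa [h2] at h1

lemma not_bdd_invS {I : Set (List ℕ)} (h : DownConn I) (hI : ¬ Bdd I) : ¬ Bdd (invS I) := by
  rintro ⟨B, hB⟩
  exact hI ⟨B, fun n => by rw [← ncard_lev_invS h]; exact hB n⟩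

lemma not_mem_invS {I : Set (List ℕ)} {n : ℕ} {π : Equiv.Perm (Fin n)} (h : toL π ∉ I) :
    toL π⁻¹ ∉ invS I := by
  rintro ⟨m, ρ, hρ, he⟩
  have hnm : n = m := by
    have := congrArg List.length he
    rwa [length_toL, length_toL] at this
  subst hnm
  have h1 := toL_inj he
  rw [inv_inj] at h1
  rw [h1] at h
  exact h hρ

end Pool.Agent.Helper46.SC
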