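import Mathlib

/-! A factor closed language over two letters with an unbounded number of words of each length
has at least `n + 1` words of length `n`. -/

namespace Pool.Agent.Helper46.SC.Words

open List

/-- The words of length `n`. -/
def wl (F : Set (List Bool)) (n : ℕ) : Set (List Bool) := {w | w ∈ F ∧ w.length = n}

lemma finite_wl (F : Set (List Bool)) (n : ℕ) : (wl F n).Finite :=
  (List.finite_length_eq Bool n).subset (fun _ h => h.2)

/-- Words with arbitrarily long right extensions. -/
def rext (F : Set (List Bool)) : Set (List Bool) :=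
  {u | u ∈ F ∧ ∀ N : ℕ, ∃ v : List Bool, N ≤ v.length ∧ u ++ v ∈ F}

variable {F : Set (List Bool)}

lemma rext_left (hp : ∀ u v : List Bool, u ++ v ∈ F → u ∈ F) {u v : List Bool}
    (h : u ++ v ∈ rext F) : u ∈ rext F := by
  refine ⟨hp _ _ h.1, fun N => ?_⟩
  obtain ⟨w, hw, hw'⟩ := h.2 N
  exact ⟨v ++ w, by simp; omega, by simpa using hw'⟩

lemma rext_right (hs : ∀ u v : List Bool, u ++ v ∈ F → v ∈ F) {u v : List Bool}
    (h : u ++ v ∈ rext F) : v ∈ rext F := by
  refine ⟨hs _ _ h.1, fun N => ?_⟩
  obtain ⟨w, hw, hw'⟩ := h.2 N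
  exact ⟨w, hw, hs u (v ++ w) (by simpa using hw')⟩

lemma exists_rext_succ (hp : ∀ u v : List Bool, u ++ v ∈ F → u ∈ F) {u : List Bool}
    (h : u ∈ rext F) : ∃ b : Bool, u ++ [b] ∈ rext F := by
  by_contra hc
  push Not at hc
  have key : ∀ b : Bool, ∃ N : ℕ, ∀ v : List Bool, N ≤ v.length → u ++ [b] ++ v ∉ F := by
    intro b
    by_contra hb
    push Not at hb
    apply hc b
    obtain ⟨v, _, hv⟩ := hb 0
    exact ⟨hp _ v hv, hb⟩
  choose N hN using key
  obtain ⟨v, hv, hv'⟩ := h.2 (N true + N false + 1)
  rcases v with _ | ⟨b, v⟩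
  · simp at hv
  · apply hN b v
    · simp only [List.length_cons] at hv
      cases b <;> omega
    · simpa using hv'

lemma nil_mem_rext (hs : ∀ u v : List Bool, u ++ v ∈ F → v ∈ F)
    (hF : ¬ ∃ B : ℕ, ∀ n, (wl F n).ncard ≤ B) : [] ∈ rext F := by
  have key : ∀ N : ℕ, ∃ v : List Bool, N ≤ v.length ∧ v ∈ F := by
    intro N
    by_contra hc
    push Not at hc
    apply hF
    refine ⟨∑ n ∈ Finset.range N, (wl F n).ncard, fun n => ?_⟩
    rcases Nat.lt_or_ge n N with h | h
    · exact Finset.single_le_sum (f := fun n => (wl F n).ncard) (fun i _ => Nat.zero_le _)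
        (Finset.mem_range.2 h)
    · have : wl F n = ∅ := by
        ext w
        simp only [Set.mem_empty_iff_false, iff_false]
        rintro ⟨h1, h2⟩
        exact hc w (by omega) h1
      rw [this]
      simp
  refine ⟨?_, by simpa using key⟩
  obtain ⟨v, _, hv⟩ := key 0
  exact hs v [] (by simpa using hv)

lemma take_succ_eq {w w' : List Bool} {n : ℕ} (h : w.take n = w'.take n)
    (h2 : w[n]? = w'[n]?) : w.take (n + 1) = w'.take (n + 1) := by
  rw [List.take_add_one, List.take_add_one, h, h2]

/-- Unique right extensions force boundedness. -/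
lemma bounded_of_unique (hp : ∀ u v : List Bool, u ++ v ∈ F → u ∈ F)
    (hs : ∀ u v : List Bool, u ++ v ∈ F → v ∈ F) (k : ℕ)
    (hu : ∀ w ∈ wl (rext F) (k + 1), ∀ w' ∈ wl (rext F) (k + 1), w.take k = w'.take k → w = w') :
    ∃ B : ℕ, ∀ n, (wl F n).ncard ≤ B := by
  classical
  -- a uniform bound for the extensions of the words outside `rext F`
  obtain ⟨N, hN⟩ : ∃ N : ℕ, ∀ u ∈ wl F (k + 1), u ∉ rext F → ∀ v : List Bool, N ≤ v.length →
      u ++ v ∉ F := by
    have h1 : ∀ u : List Bool, ∃ N : ℕ, u ∈ wl F (k + 1) → u ∉ rext F →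
        ∀ v : List Bool, N ≤ v.length → u ++ v ∉ F := by
      intro u
      by_cases h : u ∈ F ∧ u ∉ rext F
      · have h2 := h.2
        simp only [rext, Set.mem_ofPred_eq, not_and] at h2
        have h3 := h2 h.1
        push Not at h3
        obtain ⟨N, hN⟩ := h3
        exact ⟨N, fun _ _ => hN⟩
      · refine ⟨0, fun h3 h4 => absurd ⟨h3.1, h4⟩ h⟩
    choose N hN using h1
    refine ⟨∑ u ∈ (finite_wl F (k + 1)).toFinset, N u, fun u hu1 hu2 v hv => ?_⟩
    apply hN u hu1 hu2 v
    refine le_trans ?_ hv
    exact Finset.single_le_sum (f := N) (fun i _ => Nat.zero_le _)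
      ((Set.Finite.mem_toFinset _).2 hu1)
  have hfin : (({l : List Bool | l.length = k} : Set (List Bool)) ×ˢ
      ({l : List Bool | l.length = N} : Set (List Bool))).Finite :=
    (List.finite_length_eq Bool k).prod (List.finite_length_eq Bool N)
  refine ⟨(({l : List Bool | l.length = k} : Set (List Bool)) ×ˢ
      ({l : List Bool | l.length = N} : Set (List Bool))).ncard +
      ∑ n ∈ Finset.range (k + 1 + N), (wl F n).ncard, fun m => ?_⟩
  rcases Nat.lt_or_ge m (k + 1 + N) with hm | hm
  · have := Finset.single_le_sum (f := fun n => (wl F n).ncard) (fun i _ => Nat.zero_le _)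
      (Finset.mem_range.2 hm)
    exact this.trans (Nat.le_add_left _ _)
  · refine le_trans ?_ (Nat.le_add_right _ _)
    -- windows far from the right end belong to `rext F`
    have hwin : ∀ w ∈ wl F m, ∀ j, j + (k + 1) + N ≤ m → (w.drop j).take (k + 1) ∈
        wl (rext F) (k + 1) := by
      intro w hw j hj
      have hl : ((w.drop j).take (k + 1)).length = k + 1 := by
        rw [List.length_take, List.length_drop, hw.2]
        omega
      have h1 : (w.drop j).take (k + 1) ++ (w.drop j).drop (k + 1) ∈ F := by
        rw [List.take_append_drop]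
        exact hs (w.take j) (w.drop j) (by rw [List.take_append_drop]; exact hw.1)
      refine ⟨?_, hl⟩
      by_contra hc
      refine hN _ ⟨hp _ _ h1, hl⟩ hc _ ?_ h1
      rw [List.length_drop, List.length_drop, hw.2]
      omega
    have hdet : ∀ w ∈ wl F m, ∀ w' ∈ wl F m, w.take k = w'.take k →
        ∀ j, j + k + N ≤ m → w.take (k + j) = w'.take (k + j) := by
      intro w hw w' hw' hk j
      induction j with
      | zero => intro _; simpa using hk
      | succ j ih =>
        intro hj
        have ih' := ih (by omega)
        have e1 := hwin w hw j (by omega)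
        have e2 := hwin w' hw' j (by omega)
        have e3 : ((w.drop j).take (k + 1)).take k = ((w'.drop j).take (k + 1)).take k := by
          rw [List.take_take, List.take_take, min_eq_left (by omega)]
          have := congrArg (List.drop j) ih'
          rw [List.drop_take, List.drop_take] at this
          have hkk : k + j - j = k := by omega
          rw [hkk] at this
          exact this
        have e4 := hu _ e1 _ e2 e3
        have e5 := congrArg (fun l : List Bool => l[k]?) e4
        simp only [List.getElem?_take, List.getElem?_drop] at e5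
        rw [if_pos (Nat.lt_succ_self k)] at e5
        have : k + (j + 1) = (k + j) + 1 := by omega
        rw [this]
        apply take_succ_eq ih'
        rw [show k + j = j + k by omega]
        simpa using e5
    apply Set.ncard_le_ncard_of_injOn (fun w => (w.take k, w.drop (m - N))) _ _ hfin
    · intro w hw
      refine ⟨?_, ?_⟩
      · simp only [Set.mem_ofPred_eq, List.length_take, hw.2]
        omega
      · simp only [Set.mem_ofPred_eq, List.length_drop, hw.2]
        omega
    · intro w hw w' hw' he
      simp only [Prod.mk.injEq] at he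
      have h1 := hdet w hw w' hw' he.1 (m - N - k) (by omega)
      have h2 : k + (m - N - k) = m - N := by omega
      rw [h2] at h1
      rw [← List.take_append_drop (m - N) w, ← List.take_append_drop (m - N) w', h1, he.2]

theorem succ_le_ncard (hp : ∀ u v : List Bool, u ++ v ∈ F → u ∈ F)
    (hs : ∀ u v : List Bool, u ++ v ∈ F → v ∈ F)
    (hF : ¬ ∃ B : ℕ, ∀ n, (wl F n).ncard ≤ B) (n : ℕ) : n + 1 ≤ (wl F n).ncard := by
  have key : ∀ n, n + 1 ≤ (wl (rext F) n).ncard := by
    intro n
    induction n with
    | zero =>
      have : (wl (rext F) 0).Nonempty := ⟨[], nil_mem_rext hs hF, rfl⟩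
      exact (Set.ncard_pos (finite_wl _ 0)).2 this
    | succ k ih =>
      have hmaps : ∀ w ∈ wl (rext F) (k + 1), w.take k ∈ wl (rext F) k := by
        intro w hw
        refine ⟨?_, ?_⟩
        · exact rext_left hp (v := w.drop k) (by rw [List.take_append_drop]; exact hw.1)
        · rw [List.length_take, hw.2]
          omega
      have hsurj : wl (rext F) k = (fun w : List Bool => w.take k) '' (wl (rext F) (k + 1)) := by
        apply Set.Subset.antisymm
        · intro u hu
          obtain ⟨b, hb⟩ := exists_rext_succ hp hu.1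
          refine ⟨u ++ [b], ⟨hb, by simp [hu.2]⟩, ?_⟩
          simp [← hu.2]
        · rintro _ ⟨w, hw, rfl⟩
          exact hmaps w hw
      by_contra hlt
      apply hF
      apply bounded_of_unique hp hs k
      have hfin := finite_wl (rext F) (k + 1)
      have hcard : ((fun w : List Bool => w.take k) '' (wl (rext F) (k + 1))).ncard =
          (wl (rext F) (k + 1)).ncard := by
        apply le_antisymm (Set.ncard_image_le hfin)
        rw [← hsurj]
        omega
      have hinj := Set.injOn_of_ncard_image_eq hcard hfin
      intro w hw w' hw' he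
      exact hinj hw hw' he
  refine (key n).trans (Set.ncard_le_ncard ?_ (finite_wl F n))
  exact fun w hw => ⟨hw.1.1, hw.2⟩

end Pool.Agent.Helper46.SC.Words
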