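import Mathlib
import Pool.Agent.Helper46.SC.PermB
import Pool.Agent.Helper46.SC.Words

/-! Connected permutations avoiding `321`, `3412` and `4123` (one-sided caterpillars). -/

namespace Pool.Agent.Helper46.SC.Cat

open List

/-- Replace the entry `n - 1` by `n`. -/
def bump (n x : ℕ) : ℕ := if x = n - 1 then n else x

/-- The reversed one-line notation of the permutation coded by a word. -/
def Wr : List Bool → List ℕ
  | [] => [0, 1]
  | false :: r => match Wr r with
    | c :: t => c :: (r.length + 2) :: t
    | [] => []
  | true :: r => (r.length + 1) :: (Wr r).map (bump (r.length + 2))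

/-- The permutation coded by a word. -/
def W (r : List Bool) : List ℕ := (Wr r).reverse

lemma exists_Wr (r : List Bool) : ∃ c t, Wr r = c :: t ∧ c ≤ r.length := by
  induction r with
  | nil => exact ⟨0, [1], rfl, le_rfl⟩
  | cons b r ih =>
    obtain ⟨c, t, h, hc⟩ := ih
    cases b with
    | false =>
      refine ⟨c, (r.length + 2) :: t, ?_, by simp; omega⟩
      simp only [Wr, h]
    | true => exact ⟨r.length + 1, _, rfl, by simp⟩

lemma Wr_false {r : List Bool} {c : ℕ} {t : List ℕ} (h : Wr r = c :: t) :
    Wr (false :: r) = c :: (r.length + 2) :: t := by
  simp only [Wr, h]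

lemma Wr_true (r : List Bool) :
    Wr (true :: r) = (r.length + 1) :: (Wr r).map (bump (r.length + 2)) := rfl

lemma Wr_perm (r : List Bool) : (Wr r).Perm (List.range (r.length + 2)) := by
  induction r with
  | nil => exact (by decide : ([0, 1] : List ℕ).Perm (List.range 2))
  | cons b r ih =>
    obtain ⟨c, t, h, hc⟩ := exists_Wr r
    cases b with
    | false =>
      rw [Wr_false h]
      have h1 : (c :: (r.length + 2) :: t).Perm ((r.length + 2) :: Wr r) := by
        rw [h]
        exact List.Perm.swap _ _ _
      refine h1.trans ?_
      have h2 : (List.range ((false :: r).length + 2)) = List.range (r.length + 2) ++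
          [r.length + 2] := by
        rw [← List.range_succ]
        simp
      rw [h2]
      exact (ih.cons _).trans (List.perm_append_singleton _ _).symm
    | true =>
      rw [Wr_true]
      have h1 := ih.map (bump (r.length + 2))
      have h2 : (List.range (r.length + 2)).map (bump (r.length + 2)) =
          List.range (r.length + 1) ++ [r.length + 2] := by
        rw [show r.length + 2 = (r.length + 1) + 1 by omega, List.range_succ, List.map_append]
        congr 1
        · conv_rhs => rw [← List.map_id (List.range (r.length + 1))]
          apply List.map_congr_left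
          intro x hx
          have := List.mem_range.1 hx
          simp only [bump, id]
          rw [if_neg (by omega)]
        · simp [bump]
      rw [h2] at h1
      have h3 : (List.range ((true :: r).length + 2)) = List.range (r.length + 1) ++
          [r.length + 1] ++ [r.length + 2] := by
        rw [← List.range_succ, ← List.range_succ]
        simp
      rw [h3]
      refine (h1.cons (r.length + 1)).trans ?_
      have h4 := List.perm_append_singleton (r.length + 1) (List.range (r.length + 1))
      exact (h4.symm.append_right [r.length + 2])

lemma length_Wr (r : List Bool) : (Wr r).length = r.length + 2 := by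
  rw [(Wr_perm r).length_eq, List.length_range]

lemma W_perm (r : List Bool) : (W r).Perm (List.range (r.length + 2)) :=
  (List.reverse_perm _).trans (Wr_perm r)

lemma std_W (r : List Bool) : std (W r) = W r := std_of_perm (W_perm r)

lemma length_W (r : List Bool) : (W r).length = r.length + 2 := by
  rw [W, List.length_reverse, length_Wr]

lemma bump_mono {n x y : ℕ} (hx : x < n) (hy : y < n) : x < y ↔ bump n x < bump n y := by
  unfold bump
  split_ifs <;> omega

lemma lt_of_mem_Wr {r : List Bool} {x : ℕ} (h : x ∈ Wr r) : x < r.length + 2 :=
  List.mem_range.1 ((Wr_perm r).subset h)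

lemma lt_of_mem_W {r : List Bool} {x : ℕ} (h : x ∈ W r) : x < r.length + 2 :=
  List.mem_range.1 ((W_perm r).subset h)

lemma W_true (r : List Bool) :
    W (true :: r) = (W r).map (bump (r.length + 2)) ++ [r.length + 1] := by
  rw [W, W, Wr_true, List.reverse_cons, List.map_reverse]

lemma W_false {r : List Bool} {c : ℕ} {t : List ℕ} (h : Wr r = c :: t) :
    W (false :: r) = t.reverse ++ [r.length + 2, c] := by
  rw [W, Wr_false h]
  simp

lemma W_eq {r : List Bool} {c : ℕ} {t : List ℕ} (h : Wr r = c :: t) : W r = t.reverse ++ [c] := by
  rw [W, h]
  simp

lemma conn_W (r : List Bool) : Conn (W r) := by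
  induction r with
  | nil => exact conn_pair (by omega)
  | cons b r ih =>
    obtain ⟨c, t, h, hc⟩ := exists_Wr r
    cases b with
    | false =>
      rw [W_false h]
      rw [W_eq h] at ih
      exact conn_insert ih (Or.inr ⟨c, by simp, by omega⟩)
    | true =>
      rw [W_true]
      have h1 : Conn ((W r).map (bump (r.length + 2))) :=
        (conn_map (fun x hx y hy => bump_mono (lt_of_mem_W hx) (lt_of_mem_W hy))).2 ih
      have h2 : Conn ((W r).map (bump (r.length + 2)) ++ []) := by simpa using h1
      refine conn_insert h2 (Or.inl ⟨r.length + 2, ?_, by omega⟩)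
      rw [List.mem_map]
      refine ⟨r.length + 1, ?_, by simp [bump]⟩
      exact (W_perm r).mem_iff.2 (List.mem_range.2 (by omega))

/-- Deleting the newest letter. -/
lemma sub_new (b : Bool) (r : List Bool) : ∃ φ : ℕ → ℕ,
    ((W r).map φ).Sublist (W (b :: r)) ∧ ∀ x ∈ W r, ∀ y ∈ W r, x < y ↔ φ x < φ y := by
  obtain ⟨c, t, h, hc⟩ := exists_Wr r
  cases b with
  | false =>
    refine ⟨id, ?_, fun _ _ _ _ => Iff.rfl⟩
    rw [W_false h, W_eq h, List.map_id]
    exact (List.Sublist.refl _).append (List.sublist_cons_self _ _)
  | true =>
    refine ⟨bump (r.length + 2), ?_, fun x hx y hy => bump_mono (lt_of_mem_W hx) (lt_of_mem_W hy)⟩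
    rw [W_true]
    exact List.sublist_append_left _ _

/-- The relabelling for the deletion of the oldest letter. -/
def sh (b : Bool) (x : ℕ) : ℕ := if b then x + 1 else (if x = 0 then 0 else x + 1)

lemma sh_mono (b : Bool) (x y : ℕ) : x < y ↔ sh b x < sh b y := by
  unfold sh
  cases b <;> simp <;> split_ifs <;> omega

/-- Deleting the oldest letter. -/
lemma sub_old_aux (b : Bool) (r : List Bool) : ∀ c t, Wr r = c :: t →
    ∃ t', Wr (r ++ [b]) = sh b c :: t' ∧ (t.map (sh b)).Sublist t' := by
  induction r with
  | nil =>
    intro c t h
    simp only [Wr, List.cons.injEq] at h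
    obtain ⟨rfl, rfl⟩ := h
    cases b with
    | false => exact ⟨[2, 1], by simp [Wr, sh], by simp [sh]⟩
    | true => exact ⟨[0, 2], by simp [Wr, sh, bump], by simp [sh]⟩
  | cons b' r ih =>
    intro c t h
    obtain ⟨c0, t0, h0, hc0⟩ := exists_Wr r
    obtain ⟨t', h1, h2⟩ := ih c0 t0 h0
    cases b' with
    | false =>
      rw [Wr_false h0] at h
      simp only [List.cons.injEq] at h
      obtain ⟨rfl, rfl⟩ := h
      refine ⟨(r.length + 3) :: t', ?_, ?_⟩
      · rw [List.cons_append, Wr_false h1]
        simp
      · rw [List.map_cons]
        have : sh b (r.length + 2) = r.length + 3 := by cases b <;> simp [sh]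
        rw [this]
        exact h2.cons_cons _
    | true =>
      rw [Wr_true] at h
      simp only [List.cons.injEq] at h
      obtain ⟨rfl, rfl⟩ := h
      refine ⟨(Wr (r ++ [b])).map (bump (r.length + 3)), ?_, ?_⟩
      · rw [List.cons_append, Wr_true]
        simp only [List.length_append, List.length_singleton]
        congr 1
        cases b <;> simp [sh]
      · rw [List.map_map]
        have h3 : ((Wr r).map (sh b)).Sublist (Wr (r ++ [b])) := by
          rw [h0, h1, List.map_cons]
          exact h2.cons_cons _
        have h4 := h3.map (bump (r.length + 3))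
        rw [List.map_map] at h4
        have h5 : (Wr r).map (bump (r.length + 3) ∘ sh b) =
            (Wr r).map (sh b ∘ bump (r.length + 2)) := by
          apply List.map_congr_left
          intro x hx
          have hx' := lt_of_mem_Wr hx
          simp only [Function.comp, bump, sh]
          cases b <;> simp <;> split_ifs <;> omega
        rw [h5] at h4
        exact h4

lemma sub_old (b : Bool) (r : List Bool) :
    ((W r).map (sh b)).Sublist (W (r ++ [b])) := by
  obtain ⟨c, t, h, hc⟩ := exists_Wr r
  obtain ⟨t', h1, h2⟩ := sub_old_aux b r c t h
  unfold W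
  rw [List.map_reverse, List.reverse_sublist, h, h1, List.map_cons]
  exact h2.cons_cons _

lemma bump_injOn {n x y : ℕ} (hx : x < n) (hy : y < n) (h : bump n x = bump n y) : x = y := by
  unfold bump at h
  split_ifs at h <;> omega

lemma Wr_inj : ∀ r r' : List Bool, Wr r = Wr r' → r = r' := by
  intro r
  induction r with
  | nil =>
    intro r' h
    have := congrArg List.length h
    rw [length_Wr, length_Wr, List.length_nil] at this
    exact (List.length_eq_zero_iff.1 (by omega)).symm
  | cons b r ih =>
    intro r' h
    have hl := congrArg List.length h
    rw [length_Wr, length_Wr] at hl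
    rcases r' with _ | ⟨b', r'⟩
    · simp at hl
    have hl' : r.length = r'.length := by simpa using hl
    obtain ⟨c, t, h0, hc⟩ := exists_Wr r
    obtain ⟨c', t', h0', hc'⟩ := exists_Wr r'
    cases b with
    | false =>
      cases b' with
      | false =>
        rw [Wr_false h0, Wr_false h0'] at h
        simp only [List.cons.injEq] at h
        rw [ih r' (by rw [h0, h0', h.1, h.2.2])]
      | true =>
        rw [Wr_false h0, Wr_true, h0', List.map_cons] at h
        simp only [List.cons.injEq, bump] at h
        have := h.2.1
        split_ifs at this <;> omega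
    | true =>
      cases b' with
      | false =>
        rw [Wr_false h0', Wr_true, h0, List.map_cons] at h
        simp only [List.cons.injEq, bump] at h
        have := h.2.1
        split_ifs at this <;> omega
      | true =>
        rw [Wr_true, Wr_true, hl'] at h
        simp only [List.cons.injEq, true_and] at h
        have h3 : Wr r = Wr r' := by
          apply List.ext_getElem
          · rw [length_Wr, length_Wr, hl']
          · intro i h1 h2
            have h4 := List.getElem_of_eq h (i := i) (by rw [List.length_map]; exact h1)
            rw [List.getElem_map, List.getElem_map] at h4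
            apply bump_injOn _ _ h4
            · rw [← hl']
              exact lt_of_mem_Wr (List.getElem_mem h1)
            · exact lt_of_mem_Wr (List.getElem_mem h2)
        rw [ih r' h3]

lemma W_inj {r r' : List Bool} (h : W r = W r') : r = r' :=
  Wr_inj _ _ (List.reverse_injective h)

end Pool.Agent.Helper46.SC.Cat
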