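import Mathlib
import Pool.Agent.Helper46.SC.Cat

/-! Unbounded sets of connected permutations avoiding `321`, `3412` and `4123` have at least
`n - 1` members of length `n`. -/

namespace Pool.Agent.Helper46.SC.Cat

open List

lemma std4123 {m a b c : ℕ} (h1 : a < b) (h2 : b < c) (h3 : c < m) :
    std [m, a, b, c] = [3, 0, 1, 2] := by
  have e1 : ¬ m < a := by omega
  have e2 : ¬ m < b := by omega
  have e3 : ¬ m < c := by omega
  have e4 : ¬ b < a := by omega
  have e5 : ¬ c < a := by omega
  have e6 : ¬ c < b := by omega
  have e7 : a < c := by omega
  have e8 : a < m := by omega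
  have e9 : b < m := by omega
  simp [std, rk, h1, h2, h3, e1, e2, e3, e4, e5, e6, e7, e8, e9]

lemma std3412 {m y c d : ℕ} (h1 : c < d) (h2 : d < y) (h3 : y < m) :
    std [y, m, c, d] = [2, 3, 0, 1] := by
  have e1 : ¬ m < y := by omega
  have e2 : ¬ m < c := by omega
  have e3 : ¬ m < d := by omega
  have e4 : ¬ y < c := by omega
  have e5 : ¬ y < d := by omega
  have e6 : ¬ d < c := by omega
  have e7 : c < y := by omega
  have e8 : c < m := by omega
  have e9 : d < m := by omega
  simp [std, rk, h1, h2, h3, e1, e2, e3, e4, e5, e6, e7, e8, e9]

lemma conn4123 : Conn [3, 0, 1, 2] := by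
  have h1 : Conn ([3] ++ 2 :: []) := conn_pair (by omega)
  have h2 : Conn ([3] ++ 1 :: [2]) := conn_insert (t2 := [2]) h1 (Or.inl ⟨3, by simp, by omega⟩)
  exact conn_insert (t1 := [3]) (t2 := [1, 2]) h2 (Or.inl ⟨3, by simp, by omega⟩)

lemma conn3412 : Conn [2, 3, 0, 1] := by
  have h1 : Conn ([3] ++ 1 :: []) := conn_pair (by omega)
  have h2 : Conn ([3] ++ 0 :: [1]) := conn_insert (t2 := [1]) h1 (Or.inl ⟨3, by simp, by omega⟩)
  exact conn_insert (t1 := []) (t2 := [3, 0, 1]) h2 (Or.inr ⟨0, by simp, by omega⟩)

variable {I : Set (List ℕ)}

lemma exists_W (h : DownConn I) (h1 : [2, 1, 0] ∉ I) (h2 : [2, 3, 0, 1] ∉ I)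
    (h3 : [3, 0, 1, 2] ∉ I) : ∀ n : ℕ, ∀ l ∈ I, l.length = n + 2 →
    ∃ r : List Bool, r.length = n ∧ W r = l := by
  intro n
  induction n with
  | zero =>
    intro l hl hlen
    obtain ⟨a, b, rfl⟩ := List.length_eq_two.1 hlen
    refine ⟨[], rfl, ?_⟩
    obtain ⟨x, hx, y, hy, hxy⟩ := (h.conn _ hl).2 [a] [b] rfl (by simp) (by simp)
    simp only [List.mem_singleton] at hx hy
    subst hx hy
    have h4 := lt_length_of_std (h.isStd _ hl) (x := x) (by simp)
    simp only [List.length_cons, List.length_nil] at h4
    have h5 : x = 1 := by omega
    have h6 : y = 0 := by omega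
    subst h5 h6
    simp [W, Wr]
  | succ n ih =>
    intro l hl hlen
    have hnd := h.nodup l hl
    have hst := h.isStd l hl
    have hlt : ∀ x ∈ l, x < n + 3 := fun x hx => by
      have := lt_length_of_std hst hx
      omega
    have hm : n + 2 ∈ l := mem_of_lt_length hnd hst (by omega)
    obtain ⟨X, Y, rfl⟩ := List.append_of_mem hm
    have hltm : ∀ x ∈ X ++ (n + 2) :: Y, x ≠ n + 2 → x < n + 2 := fun x hx hne => by
      have := hlt x hx
      omega
    have hmX : n + 2 ∉ X := fun hc => by
      have := (List.nodup_append.1 hnd).2.2 _ hc _ (by simp : n + 2 ∈ (n + 2) :: Y)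
      exact this rfl
    have hmY : n + 2 ∉ Y := fun hc => by
      have := (List.nodup_append.1 hnd).2.1
      exact (List.nodup_cons.1 this).1 hc
    have hX : ∀ x ∈ X, x < n + 2 := fun x hx =>
      hltm x (by simp [hx]) (fun he => hmX (he ▸ hx))
    have hY : ∀ x ∈ Y, x < n + 2 := fun x hx =>
      hltm x (by simp [hx]) (fun he => hmY (he ▸ hx))
    have hYs : Y.Pairwise (· < ·) := by
      apply sortedLT_of_no_inv
      · exact (List.nodup_cons.1 (List.nodup_append.1 hnd).2.1).2
      · intro x y hxy hlt'
        have hx : x < n + 2 := hY x (hxy.subset (by simp))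
        refine h.avoid hl (t := [n + 2, x, y]) ?_ conn210 h1 (std3 hlt' hx)
        exact (hxy.cons_cons _).trans (List.sublist_append_right _ _)
    have hconn := h.conn _ hl
    rcases Y with _ | ⟨c, Y⟩
    · -- the maximum is not last
      exfalso
      have hX0 : X ≠ [] := by
        rintro rfl
        simp at hlen
      obtain ⟨x, hx, y, hy, hxy⟩ := hconn.2 X [n + 2] rfl hX0 (by simp)
      simp only [List.mem_singleton] at hy
      have := hX x hx
      omega
    rcases Y with _ | ⟨d, Y⟩
    · -- the maximum is second to last
      have hX0 : X ≠ [] := by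
        rintro rfl
        simp at hlen
      have hc := hY c (by simp)
      have hsub : (X ++ [c]).Sublist (X ++ (n + 2) :: [c]) :=
        (List.Sublist.refl X).append (List.sublist_cons_self _ _)
      have hperm : (X ++ [c]).Perm (List.range (n + 2)) := by
        have h4 := perm_of_std hnd hst
        rw [hlen, List.range_succ] at h4
        have h5 : (X ++ (n + 2) :: [c]).Perm ((n + 2) :: (X ++ [c])) := List.perm_middle
        have h6 := h5.symm.trans (h4.trans (List.perm_append_singleton _ _))
        exact List.Perm.cons_inv h6
      have hc' : Conn (X ++ [c]) := by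
        refine ⟨by simp, ?_⟩
        intro a b hab ha hb
        rcases List.append_eq_append_iff.1 hab with ⟨e, rfl, he⟩ | ⟨e, rfl, rfl⟩
        · -- `a = X ++ e`, `[c] = e ++ b`
          rcases e with _ | ⟨e0, e⟩
          · simp only [List.nil_append] at he
            subst he
            simp only [List.append_nil] at ha ⊢
            obtain ⟨x, hx, y, hy, hxy⟩ := hconn.2 X ((n + 2) :: [c]) rfl ha (by simp)
            simp only [List.mem_cons, List.not_mem_nil, or_false] at hy
            rcases hy with rfl | rfl
            · have := hX x hx
              omega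
            · exact ⟨x, hx, y, by simp, hxy⟩
          · simp only [List.cons_append, List.cons.injEq, List.nil_eq, List.append_eq_nil_iff]
              at he
            exact absurd he.2.2 hb
        · obtain ⟨x, hx, y, hy, hxy⟩ := hconn.2 a (e ++ (n + 2) :: [c]) (by simp) ha (by simp)
          refine ⟨x, hx, y, ?_, hxy⟩
          simp only [List.mem_append, List.mem_cons, List.not_mem_nil, or_false] at hy ⊢
          rcases hy with hy | rfl | hy
          · exact Or.inl hy
          · have := hX x (by simp [hx])
            omega
          · exact Or.inr hy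
      have hmem : X ++ [c] ∈ I := by
        have := h.down _ hl _ hsub hc'
        rwa [std_of_perm hperm] at this
      obtain ⟨r, hr, hW⟩ := ih _ hmem (by simp at hlen ⊢; omega)
      refine ⟨false :: r, by simp [hr], ?_⟩
      obtain ⟨c0, t0, h0, _⟩ := exists_Wr r
      rw [W_eq h0] at hW
      have h7 := List.append_inj' hW rfl
      rw [W_false h0, h7.1, hr]
      simp only [List.cons.injEq, and_true] at h7
      rw [h7.2]
    · -- two entries after the maximum
      have hY0 : Y = [] := by
        rcases Y with _ | ⟨e, Y⟩
        · rfl
        · exfalso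
          rw [List.pairwise_cons] at hYs
          have hcd := hYs.1 d (by simp)
          have hYs2 := List.pairwise_cons.1 hYs.2
          have hde := hYs2.1 e (by simp)
          refine h.avoid hl (t := [n + 2, c, d, e]) ?_ conn4123 h3
            (std4123 hcd hde (hY e (by simp)))
          refine List.Sublist.trans ?_ (List.sublist_append_right _ _)
          simp
      subst hY0
      rw [List.pairwise_cons] at hYs
      have hcd := hYs.1 d (by simp)
      have hd := hY d (by simp)
      -- `d = n + 1`
      have hd1 : d = n + 1 := by
        by_contra hne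
        have hdlt : d < n + 1 := by omega
        have hmem1 : n + 1 ∈ X ++ (n + 2) :: [c, d] := mem_of_lt_length hnd hst (by omega)
        have hmem2 : n + 1 ∈ X := by
          simp only [List.mem_append, List.mem_cons, List.not_mem_nil, or_false] at hmem1
          rcases hmem1 with h4 | h4 | h4 | h4
          · exact h4
          · omega
          · omega
          · omega
        refine h.avoid hl (t := [n + 1, n + 2, c, d]) ?_ conn3412 h2
          (std3412 hcd hdlt (by omega))
        have h5 : [n + 1].Sublist X := List.singleton_sublist.2 hmem2
        exact h5.append (List.Sublist.refl [n + 2, c, d])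
      subst hd1
      have hX1 : ∀ x ∈ X, x < n + 1 := by
        intro x hx
        have h4 := hX x hx
        have h5 : x ≠ n + 1 := by
          rintro rfl
          have := (List.nodup_append.1 hnd).2.2 _ hx (n + 1) (by simp)
          exact this rfl
        omega
      have hc := hcd
      let g : ℕ → ℕ := fun x => if x = n + 2 then n + 1 else x
      have hgX : X.map g = X := by
        conv_rhs => rw [← List.map_id X]
        apply List.map_congr_left
        intro x hx
        have := hX1 x hx
        simp only [g, id]
        rw [if_neg (by omega)]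
      have hgc : g c = c := by
        simp only [g]
        rw [if_neg (by omega)]
      have hgm : (X ++ [n + 2, c]).map g = X ++ [n + 1, c] := by
        rw [List.map_append, hgX]
        simp only [List.map_cons, List.map_nil, hgc]
        simp [g]
      have hsub : (X ++ [n + 2, c]).Sublist (X ++ (n + 2) :: [c, n + 1]) := by
        have : X ++ (n + 2) :: [c, n + 1] = (X ++ [n + 2, c]) ++ [n + 1] := by simp
        rw [this]
        exact List.sublist_append_left _ _
      have hperm : (X ++ [n + 1, c]).Perm (List.range (n + 2)) := by
        have h4 := perm_of_std hnd hst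
        rw [hlen, List.range_succ] at h4
        have h5 : (X ++ (n + 2) :: [c, n + 1]).Perm ((n + 2) :: (X ++ [n + 1, c])) := by
          refine List.perm_middle.trans (List.Perm.cons _ ?_)
          exact List.Perm.append_left _ (List.Perm.swap _ _ _)
        have h6 := h5.symm.trans (h4.trans (List.perm_append_singleton _ _))
        exact List.Perm.cons_inv h6
      have hc' : Conn (X ++ [n + 2, c]) := by
        refine ⟨by simp, ?_⟩
        intro a b hab ha hb
        rcases List.append_eq_append_iff.1 hab with ⟨e, rfl, he⟩ | ⟨e, rfl, rfl⟩
        · rcases e with _ | ⟨e0, e⟩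
          · simp only [List.nil_append] at he
            subst he
            simp only [List.append_nil] at ha ⊢
            obtain ⟨x, hx, y, hy, hxy⟩ := hconn.2 X ((n + 2) :: [c, n + 1]) rfl ha (by simp)
            simp only [List.mem_cons, List.not_mem_nil, or_false] at hy
            have hx1 := hX1 x hx
            rcases hy with rfl | rfl | rfl
            · omega
            · exact ⟨x, hx, y, by simp, hxy⟩
            · omega
          · simp only [List.cons_append, List.cons.injEq] at he
            obtain ⟨rfl, he⟩ := he
            rcases e with _ | ⟨e1, e⟩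
            · simp only [List.nil_append] at he
              subst he
              exact ⟨n + 2, by simp, c, by simp, by omega⟩
            · simp only [List.cons_append, List.cons.injEq, List.nil_eq,
                List.append_eq_nil_iff] at he
              exact absurd he.2.2 hb
        · obtain ⟨x, hx, y, hy, hxy⟩ := hconn.2 a (e ++ (n + 2) :: [c, n + 1]) (by simp) ha
            (by simp)
          refine ⟨x, hx, y, ?_, hxy⟩
          have hx1 := hX1 x (by simp [hx])
          simp only [List.mem_append, List.mem_cons, List.not_mem_nil, or_false] at hy ⊢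
          rcases hy with hy | rfl | rfl | rfl
          · exact Or.inl hy
          · omega
          · exact Or.inr (Or.inr rfl)
          · omega
      have hmem : X ++ [n + 1, c] ∈ I := by
        have h4 := h.down _ hl _ hsub hc'
        have h5 : std (X ++ [n + 2, c]) = X ++ [n + 1, c] := by
          rw [← std_of_perm hperm, ← hgm]
          refine (std_map ?_).symm
          intro x hx y hy
          have hb : ∀ z ∈ X ++ [n + 2, c], z ≠ n + 1 := by
            intro z hz
            simp only [List.mem_append, List.mem_cons, List.not_mem_nil, or_false] at hz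
            rcases hz with hz | rfl | rfl
            · have := hX1 z hz
              omega
            · omega
            · omega
          have hb' : ∀ z ∈ X ++ [n + 2, c], z ≤ n + 2 := by
            intro z hz
            simp only [List.mem_append, List.mem_cons, List.not_mem_nil, or_false] at hz
            rcases hz with hz | rfl | rfl
            · have := hX1 z hz
              omega
            · omega
            · omega
          have e1 := hb x hx
          have e2 := hb y hy
          have e3 := hb' x hx
          have e4 := hb' y hy
          simp only [g]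
          split_ifs <;> omega
        rwa [h5] at h4
      obtain ⟨r, hr, hW⟩ := ih _ hmem (by simp at hlen ⊢; omega)
      refine ⟨true :: r, by simp [hr], ?_⟩
      rw [W_true, hW, hr, List.map_append]
      have hbX : X.map (bump (n + 2)) = X := by
        conv_rhs => rw [← List.map_id X]
        apply List.map_congr_left
        intro x hx
        have := hX1 x hx
        simp only [bump, id]
        rw [if_neg (by omega)]
      rw [hbX]
      have hbc : bump (n + 2) c = c := by
        simp only [bump]
        rw [if_neg (by omega)]
      simp only [List.map_cons, List.map_nil, hbc]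
      simp [bump]

/-- The code of the members of `I`. -/
def code (I : Set (List ℕ)) : Set (List Bool) := {r | W r ∈ I}

theorem succ_le_ncard (h : DownConn I) (hI : ¬ Bdd I) (h1 : [2, 1, 0] ∉ I)
    (h2 : [2, 3, 0, 1] ∉ I) (h3 : [3, 0, 1, 2] ∉ I) (n : ℕ) :
    n + 1 ≤ (lev I (n + 2)).ncard := by
  have hp1 : ∀ (b : Bool) (u : List Bool), u ++ [b] ∈ code I → u ∈ code I := by
    intro b u hu
    exact h.mem_of_map hu (sub_old b u) (fun x _ y _ => sh_mono b x y) (conn_W u) (std_W u)
  have hs1 : ∀ (b : Bool) (u : List Bool), b :: u ∈ code I → u ∈ code I := by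
    intro b u hu
    obtain ⟨φ, h4, h5⟩ := sub_new b u
    exact h.mem_of_map hu h4 h5 (conn_W u) (std_W u)
  have hp : ∀ u v : List Bool, u ++ v ∈ code I → u ∈ code I := by
    intro u v
    induction v using List.reverseRecOn with
    | nil => simp
    | append_singleton v b ih =>
      intro hv
      rw [← List.append_assoc] at hv
      exact ih (hp1 b _ hv)
  have hs : ∀ u v : List Bool, u ++ v ∈ code I → v ∈ code I := by
    intro u v
    induction u with
    | nil => simp
    | cons b u ih =>
      intro hv
      exact ih (hs1 b _ hv)
  have hsurj : ∀ n, lev I (n + 2) ⊆ W '' (Words.wl (code I) n) := by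
    intro n l hl
    obtain ⟨r, hr, rfl⟩ := exists_W h h1 h2 h3 n l hl.1 hl.2
    exact ⟨r, ⟨hl.1, hr⟩, rfl⟩
  have hF : ¬ ∃ B : ℕ, ∀ n, (Words.wl (code I) n).ncard ≤ B := by
    rintro ⟨B, hB⟩
    apply hI
    apply bdd_of_eventually 2 B
    intro m hm
    obtain ⟨n, rfl⟩ : ∃ n, m = n + 2 := ⟨m - 2, by omega⟩
    refine (Set.ncard_le_ncard (hsurj n) ((Words.finite_wl _ n).image _)).trans ?_
    exact (Set.ncard_image_le (Words.finite_wl _ n)).trans (hB n)
  have key := Words.succ_le_ncard hp hs hF n
  refine key.trans ?_
  have hinj : Set.InjOn W (Words.wl (code I) n) := fun _ _ _ _ he => W_inj he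
  rw [← Set.ncard_image_of_injOn hinj]
  refine Set.ncard_le_ncard ?_ (h.finite_lev _)
  rintro _ ⟨r, hr, rfl⟩
  exact ⟨hr.1, by rw [length_W, hr.2]⟩

end Pool.Agent.Helper46.SC.Cat
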