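import Mathlib
import Pool.Agent.Helper46.SC.PermB
import Pool.Agent.Helper46.SC.Words
import Pool.Agent.Helper46.SC.Cat

/-! Connected permutations avoiding `321` and `3142` (one descent). -/

namespace Pool.Agent.Helper46.SC.Gr

open List

/-- The two increasing parts coded by a word. -/
def G : List Bool → List ℕ × List ℕ
  | [] => ([], [0])
  | true :: r => ((G r).1 ++ [r.length + 1], (G r).2)
  | false :: r => ((G r).1, (G r).2 ++ [r.length + 1])

/-- The permutation coded by a word. -/
def V (r : List Bool) : List ℕ := (G r).1 ++ (r.length + 1) :: (G r).2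

lemma G_perm (r : List Bool) : ((G r).1 ++ (G r).2).Perm (List.range (r.length + 1)) := by
  induction r with
  | nil => simp [G]
  | cons b r ih =>
    have h1 : List.range ((b :: r).length + 1) = List.range (r.length + 1) ++ [r.length + 1] := by
      rw [List.length_cons, List.range_succ]
    rw [h1]
    cases b with
    | true =>
      simp only [G]
      have h2 : ((G r).1 ++ [r.length + 1] ++ (G r).2).Perm
          ((r.length + 1) :: ((G r).1 ++ (G r).2)) := by
        rw [List.append_assoc]
        exact List.perm_middle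
      exact h2.trans ((ih.cons _).trans (List.perm_append_singleton _ _).symm)
    | false =>
      simp only [G]
      rw [← List.append_assoc]
      exact ih.append_right _

lemma zero_mem (r : List Bool) : 0 ∈ (G r).2 := by
  induction r with
  | nil => simp [G]
  | cons b r ih => cases b <;> simp [G, ih]

lemma V_perm (r : List Bool) : (V r).Perm (List.range (r.length + 2)) := by
  unfold V
  rw [List.range_succ (n := r.length + 1)]
  exact List.perm_middle.trans (((G_perm r).cons _).trans (List.perm_append_singleton _ _).symm)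

lemma std_V (r : List Bool) : std (V r) = V r := std_of_perm (V_perm r)

lemma length_V (r : List Bool) : (V r).length = r.length + 2 := by
  rw [(V_perm r).length_eq, List.length_range]

lemma lt_of_mem_G1 {r : List Bool} {x : ℕ} (h : x ∈ (G r).1) : x < r.length + 1 :=
  List.mem_range.1 ((G_perm r).subset (List.mem_append_left _ h))

lemma lt_of_mem_G2 {r : List Bool} {x : ℕ} (h : x ∈ (G r).2) : x < r.length + 1 :=
  List.mem_range.1 ((G_perm r).subset (List.mem_append_right _ h))

lemma V_true (r : List Bool) :
    V (true :: r) = (G r).1 ++ (r.length + 1) :: (r.length + 2) :: (G r).2 := by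
  simp [V, G]

lemma V_false (r : List Bool) :
    V (false :: r) = (G r).1 ++ (r.length + 2) :: (G r).2 ++ [r.length + 1] := by
  simp [V, G]

lemma map_bump1 (r : List Bool) : (G r).1.map (Cat.bump (r.length + 2)) = (G r).1 := by
  conv_rhs => rw [← List.map_id (G r).1]
  apply List.map_congr_left
  intro x hx
  have := lt_of_mem_G1 hx
  simp only [Cat.bump, id]
  rw [if_neg (by omega)]

lemma map_bump2 (r : List Bool) : (G r).2.map (Cat.bump (r.length + 2)) = (G r).2 := by
  conv_rhs => rw [← List.map_id (G r).2]
  apply List.map_congr_left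
  intro x hx
  have := lt_of_mem_G2 hx
  simp only [Cat.bump, id]
  rw [if_neg (by omega)]

lemma V_bump (r : List Bool) : (V r).map (Cat.bump (r.length + 2)) =
    (G r).1 ++ (r.length + 2) :: (G r).2 := by
  unfold V
  rw [List.map_append, List.map_cons, map_bump1, map_bump2]
  simp [Cat.bump]

lemma lt_of_mem_V {r : List Bool} {x : ℕ} (h : x ∈ V r) : x < r.length + 2 :=
  List.mem_range.1 ((V_perm r).subset h)

lemma bump_V {r : List Bool} : ∀ x ∈ V r, ∀ y ∈ V r,
    x < y ↔ Cat.bump (r.length + 2) x < Cat.bump (r.length + 2) y :=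
  fun _ hx _ hy => Cat.bump_mono (lt_of_mem_V hx) (lt_of_mem_V hy)

lemma conn_V (r : List Bool) : Conn (V r) := by
  induction r with
  | nil => exact conn_pair (by simp)
  | cons b r ih =>
    cases b with
    | true =>
      rw [V_true]
      have h1 : Conn (((G r).1 ++ [r.length + 1]) ++ (G r).2) := by
        unfold V at ih
        simpa using ih
      have h2 := conn_insert (z := r.length + 2) h1 (Or.inr ⟨0, zero_mem r, by omega⟩)
      simpa using h2
    | false =>
      rw [V_false]
      have h1 : Conn ((V r).map (Cat.bump (r.length + 2))) := (conn_map bump_V).2 ih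
      rw [V_bump] at h1
      have h2 : Conn (((G r).1 ++ (r.length + 2) :: (G r).2) ++ []) := by simpa using h1
      exact conn_insert h2 (Or.inl ⟨r.length + 2, by simp, by omega⟩)

lemma sub_new (b : Bool) (r : List Bool) : ∃ φ : ℕ → ℕ,
    ((V r).map φ).Sublist (V (b :: r)) ∧ ∀ x ∈ V r, ∀ y ∈ V r, x < y ↔ φ x < φ y := by
  cases b with
  | true =>
    refine ⟨id, ?_, fun _ _ _ _ => Iff.rfl⟩
    rw [V_true, List.map_id]
    unfold V
    exact (List.Sublist.refl _).append ((List.sublist_cons_self _ _).cons_cons _)
  | false =>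
    refine ⟨Cat.bump (r.length + 2), ?_, bump_V⟩
    rw [V_false, V_bump]
    exact List.sublist_append_left _ _

lemma sub_old_aux (b : Bool) (r : List Bool) :
    ((G r).1.map (Cat.sh false)).Sublist (G (r ++ [b])).1 ∧
    ((G r).2.map (Cat.sh false)).Sublist (G (r ++ [b])).2 := by
  induction r with
  | nil => cases b <;> simp [G, Cat.sh]
  | cons b' r ih =>
    cases b' with
    | true =>
      simp only [List.cons_append, G, List.map_append, List.map_cons, List.map_nil,
        List.length_append, List.length_singleton]
      refine ⟨ih.1.append ?_, ih.2⟩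
      simp [Cat.sh]
    | false =>
      simp only [List.cons_append, G, List.map_append, List.map_cons, List.map_nil,
        List.length_append, List.length_singleton]
      refine ⟨ih.1, ih.2.append ?_⟩
      simp [Cat.sh]

lemma sub_old (b : Bool) (r : List Bool) :
    ((V r).map (Cat.sh false)).Sublist (V (r ++ [b])) := by
  obtain ⟨h1, h2⟩ := sub_old_aux b r
  unfold V
  rw [List.map_append, List.map_cons]
  have h3 : Cat.sh false (r.length + 1) = (r ++ [b]).length + 1 := by simp [Cat.sh]
  rw [h3]
  exact h1.append (h2.cons_cons _)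

lemma G_inj : ∀ r r' : List Bool, r.length = r'.length → G r = G r' → r = r' := by
  intro r
  induction r with
  | nil =>
    intro r' hl _
    exact (List.length_eq_zero_iff.1 hl.symm).symm
  | cons b r ih =>
    intro r' hl h
    rcases r' with _ | ⟨b', r'⟩
    · simp at hl
    have hl' : r.length = r'.length := by simpa using hl
    cases b with
    | true =>
      cases b' with
      | true =>
        simp only [G, Prod.mk.injEq] at h
        have h1 := List.append_inj' h.1 rfl
        rw [ih r' hl' (Prod.ext h1.1 h.2)]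
      | false =>
        simp only [G, Prod.mk.injEq] at h
        exfalso
        have h1 : r.length + 1 ∈ (G r').1 := by rw [← h.1]; simp
        have := lt_of_mem_G1 h1
        omega
    | false =>
      cases b' with
      | true =>
        simp only [G, Prod.mk.injEq] at h
        exfalso
        have h1 : r.length + 1 ∈ (G r').2 := by rw [← h.2]; simp
        have := lt_of_mem_G2 h1
        omega
      | false =>
        simp only [G, Prod.mk.injEq] at h
        have h1 := List.append_inj' h.2 rfl
        rw [ih r' hl' (Prod.ext h.1 h1.1)]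

lemma split_eq {A B C D : List ℕ} {m : ℕ} (h : A ++ m :: B = C ++ m :: D) (hA : m ∉ A)
    (hC : m ∉ C) : A = C ∧ B = D := by
  rcases List.append_eq_append_iff.1 h with ⟨e, h1, h2⟩ | ⟨e, h1, h2⟩
  · rcases e with _ | ⟨x, e⟩
    · simp only [List.append_nil, List.nil_append, List.cons.injEq, true_and] at h1 h2
      exact ⟨h1.symm, h2⟩
    · simp only [List.cons_append, List.cons.injEq] at h2
      exfalso
      apply hC
      rw [h1, ← h2.1]
      simp
  · rcases e with _ | ⟨x, e⟩
    · simp only [List.append_nil, List.nil_append, List.cons.injEq, true_and] at h1 h2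
      exact ⟨h1, h2.symm⟩
    · simp only [List.cons_append, List.cons.injEq] at h2
      exfalso
      apply hA
      rw [h1, ← h2.1]
      simp

lemma V_inj {r r' : List Bool} (h : V r = V r') : r = r' := by
  have hl := congrArg List.length h
  rw [length_V, length_V] at hl
  have hl' : r.length = r'.length := by omega
  unfold V at h
  rw [← hl'] at h
  have h1 : r.length + 1 ∉ (G r).1 := fun hc => by
    have := lt_of_mem_G1 hc
    omega
  have h2 : r.length + 1 ∉ (G r').1 := fun hc => by
    have := lt_of_mem_G1 hc
    omega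
  have h3 := split_eq h h1 h2
  exact G_inj r r' hl' (Prod.ext h3.1 h3.2)

lemma exists_last {L : List ℕ} {m : ℕ} (hL : L.Pairwise (· < ·)) (hm : m ∈ L)
    (hle : ∀ x ∈ L, x ≤ m) : ∃ L0, L = L0 ++ [m] := by
  obtain ⟨s, t, rfl⟩ := List.append_of_mem hm
  rcases t with _ | ⟨a, t⟩
  · exact ⟨s, rfl⟩
  · exfalso
    have h1 := (List.pairwise_append.1 hL).2.1
    have h2 := (List.pairwise_cons.1 h1).1 a (by simp)
    have h3 := hle a (by simp)
    omega

lemma exists_G : ∀ (n : ℕ) (A B : List ℕ), (A ++ B).Perm (List.range (n + 1)) →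
    A.Pairwise (· < ·) → B.Pairwise (· < ·) → 0 ∈ B →
    ∃ r : List Bool, r.length = n ∧ G r = (A, B) := by
  intro n
  induction n with
  | zero =>
    intro A B h _ _ h0
    have hl := h.length_eq
    simp only [List.length_append, List.length_range] at hl
    have hB : 0 < B.length := List.length_pos_of_mem h0
    have hA : A = [] := List.length_eq_zero_iff.1 (by omega)
    have hB1 : B.length = 1 := by omega
    obtain ⟨b, rfl⟩ := List.length_eq_one_iff.1 hB1
    simp only [List.mem_singleton] at h0
    subst h0
    exact ⟨[], rfl, by simp [G, hA]⟩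
  | succ n ih =>
    intro A B h hA hB h0
    have hle : ∀ x ∈ A ++ B, x ≤ n + 1 := fun x hx => by
      have := List.mem_range.1 (h.subset hx)
      omega
    have hm : n + 1 ∈ A ++ B := h.mem_iff.2 (List.mem_range.2 (by omega))
    rw [List.range_succ] at h
    rcases List.mem_append.1 hm with hm | hm
    · obtain ⟨A0, rfl⟩ := exists_last hA hm (fun x hx => hle x (by simp [hx]))
      have h1 : (A0 ++ [n + 1] ++ B).Perm ((n + 1) :: (A0 ++ B)) := by
        rw [List.append_assoc]
        exact List.perm_middle
      have h2 := h1.symm.trans (h.trans (List.perm_append_singleton _ _))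
      obtain ⟨r, hr, hG⟩ := ih A0 B (List.Perm.cons_inv h2) (List.pairwise_append.1 hA).1 hB h0
      exact ⟨true :: r, by simp [hr], by simp [G, hG, hr]⟩
    · obtain ⟨B0, rfl⟩ := exists_last hB hm (fun x hx => hle x (by simp [hx]))
      have h1 : (A ++ (B0 ++ [n + 1])).Perm ((n + 1) :: (A ++ B0)) := by
        rw [← List.append_assoc]
        exact List.perm_append_singleton _ _
      have h2 := h1.symm.trans (h.trans (List.perm_append_singleton _ _))
      have h3 : 0 ∈ B0 := by
        simpa using h0
      obtain ⟨r, hr, hG⟩ := ih A B0 (List.Perm.cons_inv h2) hA (List.pairwise_append.1 hB).1 h3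
      exact ⟨false :: r, by simp [hr], by simp [G, hG, hr]⟩

lemma std3142 {u x v : ℕ} (h1 : 0 < v) (h2 : v < u) (h3 : u < x) :
    std [u, 0, x, v] = [2, 0, 3, 1] := by
  have e1 : ¬ u < v := by omega
  have e2 : ¬ x < u := by omega
  have e3 : ¬ x < v := by omega
  have e4 : v < x := by omega
  have e5 : 0 < u := by omega
  have e6 : 0 < x := by omega
  simp [std, rk, h1, h2, h3, e1, e2, e3, e4, e5, e6]

lemma conn3142 : Conn [2, 0, 3, 1] := by
  have h1 : Conn ([3] ++ 1 :: []) := conn_pair (by omega)
  have h2 : Conn ([] ++ 2 :: [3, 1]) := conn_insert (t1 := []) h1 (Or.inr ⟨1, by simp, by omega⟩)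
  exact conn_insert (t1 := [2]) (t2 := [3, 1]) h2 (Or.inl ⟨2, by simp, by omega⟩)

variable {I : Set (List ℕ)}

lemma exists_V (h : DownConn I) (h1 : [2, 1, 0] ∉ I) (h2 : [2, 0, 3, 1] ∉ I) :
    ∀ n : ℕ, ∀ l ∈ I, l.length = n + 2 → ∃ r : List Bool, r.length = n ∧ V r = l := by
  intro n l hl hlen
  have hnd := h.nodup l hl
  have hst := h.isStd l hl
  have hconn := h.conn l hl
  have hlt : ∀ x ∈ l, x < n + 2 := fun x hx => by
    have := lt_length_of_std hst hx
    omega
  have h0 : 0 ∈ l := mem_of_lt_length hnd hst (by omega)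
  obtain ⟨X, Y, rfl⟩ := List.append_of_mem h0
  have hX0 : 0 ∉ X := fun hc => by
    have := (List.nodup_append.1 hnd).2.2 _ hc _ (by simp : 0 ∈ 0 :: Y)
    exact this rfl
  have hY0 : 0 ∉ Y := (List.nodup_cons.1 (List.nodup_append.1 hnd).2.1).1
  have hXs : X.Pairwise (· < ·) := by
    apply sortedLT_of_no_inv (List.nodup_append.1 hnd).1
    intro x y hxy hlt'
    have hy : y ∈ X := hxy.subset (by simp)
    have hy0 : 0 < y := by
      rcases Nat.eq_zero_or_pos y with rfl | h5
      · exact absurd hy hX0
      · exact h5
    refine h.avoid hl (t := [x, y, 0]) ?_ conn210 h1 (std3 hy0 hlt')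
    exact hxy.append ((List.nil_sublist Y).cons_cons 0)
  have hYs : Y.Pairwise (· < ·) := by
    by_contra hc
    have hYn : Y.Nodup := (List.nodup_cons.1 (List.nodup_append.1 hnd).2.1).2
    obtain ⟨Y1, x, Y2, rfl, ⟨y, hy, hyx⟩, hfirst⟩ := exists_first_inv hc hYn
    obtain ⟨u, hu, v, hv, huv⟩ := hconn.2 (X ++ 0 :: Y1) (x :: Y2) (by simp) (by simp) (by simp)
    have huX : u ∈ X := by
      simp only [List.mem_append, List.mem_cons] at hu
      rcases hu with hu | rfl | hu
      · exact hu
      · omega
      · exact absurd huv (hfirst u hu v hv)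
    have hv0 : 0 < v := by
      rcases Nat.eq_zero_or_pos v with rfl | h5
      · exact absurd (List.mem_append_right Y1 hv) hY0
      · exact h5
    have hux : u ≠ x := by
      rintro rfl
      have := (List.nodup_append.1 hnd).2.2 _ huX u (by simp)
      exact this rfl
    rcases lt_or_gt_of_ne hux with hlt' | hgt
    · -- pattern 3142
      have hv2 : v ∈ Y2 := by
        rcases List.mem_cons.1 hv with rfl | hv
        · omega
        · exact hv
      refine h.avoid hl (t := [u, 0, x, v]) ?_ conn3142 h2 (std3142 hv0 huv hlt')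
      have s1 : [u].Sublist X := List.singleton_sublist.2 huX
      have s2 : [v].Sublist Y2 := List.singleton_sublist.2 hv2
      have s3 : [x, v].Sublist (Y1 ++ x :: Y2) :=
        (s2.cons_cons x).trans (List.sublist_append_right _ _)
      exact s1.append (s3.cons_cons 0)
    · -- pattern 321
      refine h.avoid hl (t := [u, x, y]) ?_ conn210 h1 (std3 hyx hgt)
      have s1 : [u].Sublist X := List.singleton_sublist.2 huX
      have s2 : [y].Sublist Y2 := List.singleton_sublist.2 hy
      have s3 : [x, y].Sublist (Y1 ++ x :: Y2) :=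
        (s2.cons_cons x).trans (List.sublist_append_right _ _)
      exact s1.append (s3.trans (List.sublist_cons_self _ _))
  -- the maximum lies in `X`
  have hm : n + 1 ∈ X ++ 0 :: Y := mem_of_lt_length hnd hst (by omega)
  have hmX : n + 1 ∈ X := by
    by_contra hc
    have hmY : n + 1 ∈ Y := by
      simp only [List.mem_append, List.mem_cons] at hm
      rcases hm with h5 | h5 | h5
      · exact absurd h5 hc
      · omega
      · exact h5
    obtain ⟨Y', rfl⟩ := exists_last hYs hmY (fun x hx => by
      have := hlt x (by simp only [List.mem_append, List.mem_cons] at hx ⊢; tauto)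
      omega)
    obtain ⟨x, hx, y, hy, hxy⟩ := hconn.2 (X ++ 0 :: Y') [n + 1] (by simp) (by simp) (by simp)
    simp only [List.mem_singleton] at hy
    subst hy
    have := hlt x (by
      simp only [List.mem_append, List.mem_cons] at hx ⊢
      tauto)
    omega
  obtain ⟨A, rfl⟩ := exists_last hXs hmX (fun x hx => by
    have := hlt x (by simp [hx])
    omega)
  have hperm : (A ++ 0 :: Y).Perm (List.range (n + 1)) := by
    have h4 := perm_of_std hnd hst
    rw [hlen, List.range_succ] at h4
    have h5 : (A ++ [n + 1] ++ 0 :: Y).Perm ((n + 1) :: (A ++ 0 :: Y)) := by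
      rw [List.append_assoc]
      exact List.perm_middle
    have h6 := h5.symm.trans (h4.trans (List.perm_append_singleton _ _))
    exact List.Perm.cons_inv h6
  have hB : (0 :: Y).Pairwise (· < ·) := by
    rw [List.pairwise_cons]
    refine ⟨fun y hy => ?_, hYs⟩
    rcases Nat.eq_zero_or_pos y with rfl | h5
    · exact absurd hy hY0
    · exact h5
  obtain ⟨r, hr, hG⟩ := exists_G n A (0 :: Y) hperm (List.pairwise_append.1 hXs).1 hB (by simp)
  refine ⟨r, hr, ?_⟩
  unfold V
  rw [hG, hr]
  simp

/-- The code of the members of `I`. -/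
def code (I : Set (List ℕ)) : Set (List Bool) := {r | V r ∈ I}

theorem succ_le_ncard (h : DownConn I) (hI : ¬ Bdd I) (h1 : [2, 1, 0] ∉ I)
    (h2 : [2, 0, 3, 1] ∉ I) (n : ℕ) : n + 1 ≤ (lev I (n + 2)).ncard := by
  have hp1 : ∀ (b : Bool) (u : List Bool), u ++ [b] ∈ code I → u ∈ code I := by
    intro b u hu
    exact h.mem_of_map hu (sub_old b u) (fun x _ y _ => Cat.sh_mono false x y) (conn_V u) (std_V u)
  have hs1 : ∀ (b : Bool) (u : List Bool), b :: u ∈ code I → u ∈ code I := by
    intro b u hu
    obtain ⟨φ, h4, h5⟩ := sub_new b u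
    exact h.mem_of_map hu h4 h5 (conn_V u) (std_V u)
  have hp : ∀ u v : List Bool, u ++ v ∈ code I → u ∈ code I := by
    intro u v
    induction v using List.reverseRecOn with
    | nil => simp
    | append_singleton v b ih =>
      intro hv
      rw [← List.append_assoc] at hv
      exact ih (hp1 b _ hv)
  have hs : ∀ u v : List Bool, u ++ v ∈ code I → v ∈ code I := by
    intro u v
    induction u with
    | nil => simp
    | cons b u ih =>
      intro hv
      exact ih (hs1 b _ hv)
  have hsurj : ∀ n, lev I (n + 2) ⊆ V '' (Words.wl (code I) n) := by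
    intro n l hl
    obtain ⟨r, hr, rfl⟩ := exists_V h h1 h2 n l hl.1 hl.2
    exact ⟨r, ⟨hl.1, hr⟩, rfl⟩
  have hF : ¬ ∃ B : ℕ, ∀ n, (Words.wl (code I) n).ncard ≤ B := by
    rintro ⟨B, hB⟩
    apply hI
    apply bdd_of_eventually 2 B
    intro m hm
    obtain ⟨n, rfl⟩ : ∃ n, m = n + 2 := ⟨m - 2, by omega⟩
    refine (Set.ncard_le_ncard (hsurj n) ((Words.finite_wl _ n).image _)).trans ?_
    exact (Set.ncard_image_le (Words.finite_wl _ n)).trans (hB n)
  have key := Words.succ_le_ncard hp hs hF n
  refine key.trans ?_
  have hinj : Set.InjOn V (Words.wl (code I) n) := fun _ _ _ _ he => V_inj he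
  rw [← hinj.ncard_image]
  refine Set.ncard_le_ncard ?_ (h.finite_lev _)
  rintro _ ⟨r, hr, rfl⟩
  exact ⟨hr.1, by rw [length_V, hr.2]⟩

end Pool.Agent.Helper46.SC.Gr
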