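import Mathlib
import Pool.Agent.Helper46.SC.Tabs

/-! The finite search when 321 is not essential. -/

namespace Pool.Agent.Helper46.SC.Srch

/-- The connected permutations of length three other than 321. -/
def top2 : List Row := [row [1, 2, 0], row [2, 0, 1]]

/-- The sets of length four excluded by the structure theorems. -/
def skip4 (S : List Row) : Bool :=
  !memC 8241 S || !memC 4866 S || (!memC 4146 S && !memC 8451 S) || (!memC 4146 S && !memC 801 S)

theorem cand_top2 : cand top2 = tabA4 := by decide +kernel

theorem cand_tabA4 : cand tabA4 = tabA5 := by decide +kernel

theorem cand_tabA5 : cand tabA5 = tabA6 := by decide +kernel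

theorem enum_top2 : enum lim 34188010000000000 (fun S w => skip4 S || (!covered top2 S ||
    search lim [14700844300000000, 6321363049000000, 2718186111070000, 1168820027760100,
      502592611936843] [tabA5, tabA6] S w)) tabA4 [] 773914000000000000 = true := by
  decide +kernel

end Pool.Agent.Helper46.SC.Srch
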