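import Mathlib
import Pool.Agent.Helper46.SC.Tabs

/-! The finite search when 321 is essential. -/

namespace Pool.Agent.Helper46.SC.Srch

/-- The three connected permutations of length three. -/
def top3 : List Row := [row [1, 2, 0], row [2, 0, 1], row [2, 1, 0]]

theorem cand_top3 : cand top3 = tabC4 := by decide +kernel

theorem cand_tabC4 : cand tabC4 = tabC5 := by decide +kernel

theorem search_top3 : search lim [34188010000000000, 14700844300000000, 6321363049000000,
    2718186111070000, 1168820027760100, 502592611936843] [tabC4, tabC5] top3
    853421000000000000 = true := by decide +kernel

end Pool.Agent.Helper46.SC.Srch
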