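import Mathlib
import Pool.Agent.Helper46.SC.PermB

/-! Definitions for the finite search over essential sets of connected permutations. -/

namespace Pool.Agent.Helper46.SC.Srch

open List

/-- `connAux m l`: every cut of the list that has `l` as a final part is crossed, where `m` is
the largest entry before `l`. -/
def connAux : ℕ → List ℕ → Bool
  | _, [] => true
  | m, a :: l => (a :: l).any (fun y => Nat.ble (Nat.succ y) m) &&
      connAux (cond (Nat.ble m a) a m) l

/-- Connectedness as a Boolean function. -/
def connB : List ℕ → Bool
  | [] => false
  | a :: l => connAux a l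

/-- All ways to take out one entry. -/
def dels : List ℕ → List (ℕ × List ℕ)
  | [] => []
  | a :: l => (a, l) :: (dels l).map (fun vr => (vr.1, a :: vr.2))

/-- Close the gap at `v`. -/
def unshift (v y : ℕ) : ℕ := cond (Nat.ble y v) y (Nat.pred y)

/-- Open a gap at `v`. -/
def shift (v y : ℕ) : ℕ := cond (Nat.ble v y) (Nat.succ y) y

/-- The patterns obtained by deleting one entry. -/
def kids (q : List ℕ) : List (List ℕ) := (dels q).map (fun vr => vr.2.map (unshift vr.1))

/-- A code for a list. -/
def code : List ℕ → ℕ
  | [] => 0
  | a :: l => Nat.add (Nat.mul 16 (code l)) a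

/-- All ways to insert `v`. -/
def inserts (v : ℕ) : List ℕ → List (List ℕ)
  | [] => [[v]]
  | a :: l => (v :: a :: l) :: (inserts v l).map (fun t => a :: t)

/-- All one-entry extensions. -/
def exts (p : List ℕ) : List (List ℕ) :=
  (List.range (p.length + 1)).flatMap (fun v => inserts v (p.map (shift v)))

/-- Remove repeated numbers. -/
def ddN : List ℕ → List ℕ
  | [] => []
  | a :: l => cond (l.any (fun b => Nat.beq a b)) (ddN l) (a :: ddN l)

/-- Equality of lists. -/
def eqb : List ℕ → List ℕ → Bool
  | [], [] => true
  | [], _ :: _ => false
  | _ :: _, [] => false
  | a :: l, b :: m => Nat.beq a b && eqb l m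

/-- Remove repeated lists. -/
def ddL : List (List ℕ) → List (List ℕ)
  | [] => []
  | a :: l => cond (l.any (fun b => eqb a b)) (ddL l) (a :: ddL l)

/-- A permutation with its code and the codes of its connected children. -/
abbrev Row : Type := ℕ × List ℕ × List ℕ

/-- The row of a permutation. -/
def row (q : List ℕ) : Row := (code q, q, ddN (((kids q).filter connB).map code))

/-- A code occurs in a list of rows. -/
def memC (c : ℕ) (T : List Row) : Bool := T.any (fun r => Nat.beq r.1 c)

/-- `q` is connected and its connected children occur in `T`. -/
def good (T : List Row) (q : List ℕ) : Bool :=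
  connB q && (kids q).all (fun p => !connB p || memC (code p) T)

/-- The candidates above `T`. -/
def cand (T : List Row) : List Row :=
  (ddL ((T.flatMap (fun r => exts r.2.1)).filter (good T))).map row

/-- The candidates above `T`, read from a table if there is one. -/
def cands : List (List Row) → List Row → List Row
  | [], T => cand T
  | tab :: _, T => tab.filter (fun r => r.2.2.all (fun c => memC c T))

/-- Every member of `T` is a child of a member of `S`. -/
def covered (T S : List Row) : Bool :=
  T.all (fun r => S.any (fun s => s.2.2.any (fun c => Nat.beq c r.1)))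

/-- Run through the sublists of bounded size. -/
def enum (lim cost : ℕ) (f : List Row → ℕ → Bool) : List Row → List Row → ℕ → Bool
  | [], acc, w => f acc w
  | r :: V, acc, w => enum lim cost f V acc w &&
      (Nat.ble lim (Nat.add w cost) || enum lim cost f V (r :: acc) (Nat.add w cost))

/-- The search. -/
def search (lim : ℕ) : List ℕ → List (List Row) → List Row → ℕ → Bool
  | [], _, _, _ => false
  | cost :: costs, tabs, T, w => Nat.ble lim (Nat.add w cost) ||
      enum lim cost (fun S w' => !covered T S || search lim costs tabs.tail S w') (cands tabs T) [] w

/-- The bound, `1` scaled by `100 ^ 9`. -/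
def lim : ℕ := 1000000000000000000

end Pool.Agent.Helper46.SC.Srch
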