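import Mathlib
import Pool.Agent.Helper46.SC.Srch

/-! Soundness of the finite search. -/

namespace Pool.Agent.Helper46.SC.Srch

open List

lemma ble_iff {a b : ℕ} : Nat.ble a b = true ↔ a ≤ b := by rw [Nat.ble_eq]

lemma connAux_iff (l : List ℕ) (m : ℕ) : connAux m l = true ↔
    ∀ a b : List ℕ, l = a ++ b → b ≠ [] → ∃ y ∈ b, (y < m ∨ ∃ x ∈ a, y < x) := by
  induction l generalizing m with
  | nil =>
    simp only [connAux, true_iff]
    intro a b h hb
    have := (List.append_eq_nil_iff.1 h.symm).2
    exact absurd this hb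
  | cons z l ih =>
    simp only [connAux, Bool.and_eq_true, ih, List.any_eq_true, Nat.ble_eq, Nat.succ_le_iff]
    constructor
    · rintro ⟨⟨y, hy, hym⟩, h2⟩ a b hab hb
      rcases a with _ | ⟨z', a⟩
      · simp only [List.nil_append] at hab
        subst hab
        exact ⟨y, hy, Or.inl hym⟩
      · simp only [List.cons_append, List.cons.injEq] at hab
        obtain ⟨rfl, rfl⟩ := hab
        obtain ⟨u, hu, h3⟩ := h2 a b rfl hb
        refine ⟨u, hu, ?_⟩
        rcases h3 with h3 | ⟨x, hx, h3⟩
        · cases hb' : Nat.ble m z with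
          | true =>
            rw [hb', cond_true] at h3
            exact Or.inr ⟨z, by simp, h3⟩
          | false =>
            rw [hb', cond_false] at h3
            exact Or.inl h3
        · exact Or.inr ⟨x, by simp [hx], h3⟩
    · intro h
      refine ⟨?_, ?_⟩
      · obtain ⟨y, hy, h3⟩ := h [] (z :: l) rfl (by simp)
        rcases h3 with h3 | ⟨x, hx, _⟩
        · exact ⟨y, hy, h3⟩
        · simp at hx
      · intro a b hab hb
        obtain ⟨u, hu, h3⟩ := h (z :: a) b (by rw [hab]; rfl) hb
        refine ⟨u, hu, ?_⟩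
        rcases h3 with h3 | ⟨x, hx, h3⟩
        · left
          cases hb' : Nat.ble m z with
          | true =>
            rw [cond_true]
            exact h3.trans_le (ble_iff.1 hb')
          | false =>
            rw [cond_false]
            exact h3
        · rcases List.mem_cons.1 hx with rfl | hx
          · left
            cases hb' : Nat.ble m x with
            | true =>
              rw [cond_true]
              exact h3
            | false =>
              rw [cond_false]
              have h4 : ¬ m ≤ x := by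
                intro h5
                rw [← Nat.ble_eq, hb'] at h5
                exact absurd h5 (by simp)
              omega
          · exact Or.inr ⟨x, hx, h3⟩

lemma connB_iff (l : List ℕ) : connB l = true ↔ Conn l := by
  rcases l with _ | ⟨z, l⟩
  · simp [connB, Conn]
  · simp only [connB, connAux_iff]
    constructor
    · intro h
      refine ⟨by simp, ?_⟩
      intro a b hab ha hb
      rcases a with _ | ⟨z', a⟩
      · exact absurd rfl ha
      · simp only [List.cons_append, List.cons.injEq] at hab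
        obtain ⟨rfl, rfl⟩ := hab
        obtain ⟨y, hy, h3⟩ := h a b rfl hb
        rcases h3 with h3 | ⟨x, hx, h3⟩
        · exact ⟨z, by simp, y, hy, h3⟩
        · exact ⟨x, by simp [hx], y, hy, h3⟩
    · rintro ⟨_, h⟩ a b rfl hb
      obtain ⟨x, hx, y, hy, hxy⟩ := h (z :: a) b (by simp) (by simp) hb
      refine ⟨y, hy, ?_⟩
      rcases List.mem_cons.1 hx with rfl | hx
      · exact Or.inl hxy
      · exact Or.inr ⟨x, hx, hxy⟩

lemma mem_dels {q : List ℕ} {v : ℕ} {r : List ℕ} :
    (v, r) ∈ dels q ↔ ∃ l1 l2, q = l1 ++ v :: l2 ∧ r = l1 ++ l2 := by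
  induction q generalizing v r with
  | nil => simp [dels]
  | cons a l ih =>
    simp only [dels, List.mem_cons, List.mem_map, Prod.mk.injEq, Prod.exists]
    constructor
    · rintro (⟨rfl, rfl⟩ | ⟨v', r', h, rfl, rfl⟩)
      · exact ⟨[], r, rfl, rfl⟩
      · obtain ⟨l1, l2, rfl, rfl⟩ := ih.1 h
        exact ⟨a :: l1, l2, rfl, rfl⟩
    · rintro ⟨l1, l2, h1, rfl⟩
      rcases l1 with _ | ⟨a', l1⟩
      · simp only [List.nil_append, List.cons.injEq] at h1
        left
        exact ⟨h1.1.symm, by simp [h1.2]⟩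
      · simp only [List.cons_append, List.cons.injEq] at h1
        right
        exact ⟨v, l1 ++ l2, ih.2 ⟨l1, l2, h1.2, rfl⟩, rfl, by simp [h1.1]⟩

lemma rk_of_std {q : List ℕ} (h : std q = q) {y : ℕ} (hy : y ∈ q) : rk q y = y := by
  unfold std at h
  have h1 : q.map (rk q) = q.map id := by rw [h, List.map_id]
  exact List.map_inj_left.1 h1 y hy

lemma map_unshift {l1 l2 : List ℕ} {v : ℕ} (h : std (l1 ++ v :: l2) = l1 ++ v :: l2) :
    (l1 ++ l2).map (unshift v) = std (l1 ++ l2) := by
  unfold std
  apply List.map_congr_left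
  intro y hy
  have hy' : y ∈ l1 ++ v :: l2 := by
    simp only [List.mem_append, List.mem_cons] at hy ⊢
    tauto
  have h1 := rk_of_std h hy'
  have h2 : rk (l1 ++ v :: l2) y = rk (l1 ++ l2) y + (if v < y then 1 else 0) := by
    unfold rk
    rw [List.countP_append, List.countP_append, List.countP_cons]
    by_cases hv : v < y
    · simp [hv]
      omega
    · simp [hv]
  rw [h1] at h2
  unfold unshift
  cases hb : Nat.ble y v with
  | true =>
    rw [cond_true]
    have h3 : y ≤ v := ble_iff.1 hb
    rw [if_neg (by omega)] at h2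
    omega
  | false =>
    rw [cond_false]
    have h3 : ¬ y ≤ v := by
      intro h5
      rw [← Nat.ble_eq, hb] at h5
      exact absurd h5 (by simp)
    rw [if_pos (by omega)] at h2
    rw [Nat.pred_eq_sub_one]
    omega

lemma map_shift_unshift {l : List ℕ} {v : ℕ} (h : v ∉ l) :
    (l.map (unshift v)).map (shift v) = l := by
  rw [List.map_map]
  conv_rhs => rw [← List.map_id l]
  apply List.map_congr_left
  intro y hy
  have hne : y ≠ v := by
    rintro rfl
    exact h hy
  simp only [Function.comp, unshift, shift, id]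
  rcases Nat.lt_or_gt_of_ne hne with h1 | h1
  · have e1 : Nat.ble y v = true := ble_iff.2 h1.le
    have e2 : Nat.ble v y = false := by
      rw [← Bool.not_eq_true, Nat.ble_eq]
      omega
    rw [e1, cond_true, e2, cond_false]
  · have e1 : Nat.ble y v = false := by
      rw [← Bool.not_eq_true, Nat.ble_eq]
      omega
    have e2 : Nat.ble v (Nat.pred y) = true := by
      rw [Nat.ble_eq, Nat.pred_eq_sub_one]
      omega
    rw [e1, cond_false, e2, cond_true, Nat.pred_eq_sub_one]
    omega

lemma eraseIdx_append_length (l1 l2 : List ℕ) (v : ℕ) :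
    (l1 ++ v :: l2).eraseIdx l1.length = l1 ++ l2 := by
  induction l1 with
  | nil => simp
  | cons a l ih => simp [ih]

lemma mem_kids {q p : List ℕ} (h : std q = q) : p ∈ kids q ↔ Child p q := by
  unfold kids Child
  simp only [List.mem_map, Prod.exists]
  constructor
  · rintro ⟨v, r, hvr, rfl⟩
    obtain ⟨l1, l2, rfl, rfl⟩ := mem_dels.1 hvr
    refine ⟨l1.length, by simp, ?_⟩
    rw [eraseIdx_append_length, map_unshift h]
  · rintro ⟨i, hi, rfl⟩
    have h1 : q = q.take i ++ q[i] :: q.drop (i + 1) := by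
      rw [← List.drop_eq_getElem_cons hi, List.take_append_drop]
    refine ⟨q[i], q.take i ++ q.drop (i + 1), mem_dels.2 ⟨_, _, h1, rfl⟩, ?_⟩
    rw [map_unshift (by rw [← h1]; exact h), List.eraseIdx_eq_take_drop_succ]

lemma mem_inserts (v : ℕ) (l1 l2 : List ℕ) : l1 ++ v :: l2 ∈ inserts v (l1 ++ l2) := by
  induction l1 with
  | nil =>
    rcases l2 with _ | ⟨a, l2⟩
    · simp [inserts]
    · simp [inserts]
  | cons a l ih =>
    simp only [List.cons_append, inserts, List.mem_cons, List.mem_map]
    right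
    exact ⟨_, ih, rfl⟩

lemma mem_exts {p q : List ℕ} (hn : q.Nodup) (hs : std q = q) (h : Child p q) : q ∈ exts p := by
  rw [← mem_kids hs] at h
  unfold kids at h
  simp only [List.mem_map, Prod.exists] at h
  obtain ⟨v, r, hvr, rfl⟩ := h
  obtain ⟨l1, l2, rfl, rfl⟩ := mem_dels.1 hvr
  unfold exts
  rw [List.mem_flatMap]
  refine ⟨v, ?_, ?_⟩
  · rw [List.mem_range, List.length_map]
    have := lt_length_of_std hs (x := v) (by simp)
    simp only [List.length_append, List.length_cons] at this ⊢
    omega
  · rw [map_shift_unshift]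
    · exact mem_inserts v l1 l2
    · have h1 : (v :: (l1 ++ l2)).Nodup := by
        have h2 : (l1 ++ v :: l2).Perm (v :: (l1 ++ l2)) := List.perm_middle
        exact h2.nodup_iff.1 hn
      exact (List.nodup_cons.1 h1).1

lemma mem_ddN {l : List ℕ} {c : ℕ} : c ∈ ddN l ↔ c ∈ l := by
  induction l with
  | nil => simp [ddN]
  | cons a l ih =>
    unfold ddN
    cases hb : l.any (fun b => Nat.beq a b) with
    | true =>
      rw [cond_true, ih, List.mem_cons]
      constructor
      · exact Or.inr
      · rintro (rfl | h)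
        · obtain ⟨b, hb1, hb2⟩ := List.any_eq_true.1 hb
          rw [Nat.beq_eq] at hb2
          rw [hb2]
          exact hb1
        · exact h
    | false => rw [cond_false, List.mem_cons, List.mem_cons, ih]

lemma eqb_iff {a b : List ℕ} : eqb a b = true ↔ a = b := by
  induction a generalizing b with
  | nil => rcases b with _ | ⟨y, b⟩ <;> simp [eqb]
  | cons x a ih =>
    rcases b with _ | ⟨y, b⟩
    · simp [eqb]
    · simp only [eqb, Bool.and_eq_true, Nat.beq_eq, ih, List.cons.injEq]

lemma mem_ddL {l : List (List ℕ)} {c : List ℕ} : c ∈ ddL l ↔ c ∈ l := by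
  induction l with
  | nil => simp [ddL]
  | cons a l ih =>
    unfold ddL
    cases hb : l.any (fun b => eqb a b) with
    | true =>
      rw [cond_true, ih, List.mem_cons]
      constructor
      · exact Or.inr
      · rintro (rfl | h)
        · obtain ⟨b, hb1, hb2⟩ := List.any_eq_true.1 hb
          rw [eqb_iff] at hb2
          rw [hb2]
          exact hb1
        · exact h
    | false => rw [cond_false, List.mem_cons, List.mem_cons, ih]

lemma nodup_ddL (l : List (List ℕ)) : (ddL l).Nodup := by
  induction l with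
  | nil => simp [ddL]
  | cons a l ih =>
    unfold ddL
    cases hb : l.any (fun b => eqb a b) with
    | true => rwa [cond_true]
    | false =>
      rw [cond_false, List.nodup_cons]
      refine ⟨?_, ih⟩
      rw [mem_ddL]
      intro ha
      have : l.any (fun b => eqb a b) = true := List.any_eq_true.2 ⟨a, ha, eqb_iff.2 rfl⟩
      rw [hb] at this
      exact absurd this (by simp)

/-- A family of essential permutations, as needed for the search. -/
structure Coh (E : Set (List ℕ)) : Prop where
  nodup : ∀ q ∈ E, q.Nodup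
  isStd : ∀ q ∈ E, std q = q
  conn : ∀ q ∈ E, Conn q
  one : [0] ∈ E
  child : ∀ q ∈ E, ∀ p, Child p q → Conn p → p ∈ E
  parent : ∀ p ∈ E, ∃ q ∈ E, q.length = p.length + 1 ∧ Child p q
  back : ∀ q ∈ E, 2 ≤ q.length → ∃ p ∈ E, q.length = p.length + 1 ∧ Child p q

lemma coh_ess {I : Set (List ℕ)} (h : DownConn I) (hI : ¬ Bdd I) : Coh (ess I) where
  nodup q hq := h.nodup q hq.1
  isStd q hq := h.isStd q hq.1
  conn q hq := h.conn q hq.1
  one := singleton_mem_ess h hI
  child := by
    rintro q hq _ ⟨i, hi, rfl⟩ hc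
    exact mem_ess_of_sublist h hq (List.eraseIdx_sublist q i) (conn_std.1 hc)
  parent p hp := exists_ess_parent h hp
  back := by
    intro q hq h2
    obtain ⟨x, t, rfl⟩ := List.exists_cons_of_ne_nil (h.conn q hq.1).1
    obtain ⟨t', _, h4, h5, h6⟩ := exists_ext_length (h.nodup _ hq.1) (t := [x]) (by simp)
      (conn_singleton x) (h.conn _ hq.1) t.length (by simp at h2 ⊢; omega) (by simp)
    refine ⟨std t', mem_ess_of_sublist h hq h4 h6, by rw [length_std, h5]; simp, ?_⟩
    obtain ⟨i, hi, rfl⟩ := exists_eraseIdx h4 (by rw [h5]; simp)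
    exact ⟨i, hi, rfl⟩

variable {E : Set (List ℕ)}

lemma Coh.finite_lev (hE : Coh E) (n : ℕ) : (lev E n).Finite :=
  (finite_std n).subset (fun l hl => ⟨hE.nodup l hl.1, hE.isStd l hl.1, hl.2⟩)

lemma Coh.nonempty_lev (hE : Coh E) (n : ℕ) : (lev E (n + 1)).Nonempty := by
  induction n with
  | zero => exact ⟨[0], hE.one, rfl⟩
  | succ n ih =>
    obtain ⟨p, hp, hpl⟩ := ih
    obtain ⟨q, hq, hql, _⟩ := hE.parent p hp
    exact ⟨q, hq, by omega⟩

lemma Coh.one_le_ncard (hE : Coh E) (n : ℕ) : 1 ≤ (lev E (n + 1)).ncard :=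
  (Set.ncard_pos (hE.finite_lev _)).2 (hE.nonempty_lev n)

/-- `T` lists the members of length `k`. -/
def Rep (E : Set (List ℕ)) (k : ℕ) (T : List Row) : Prop :=
  (∀ r ∈ T, r.2.1 ∈ E ∧ r.2.1.length = k ∧ r.1 = code r.2.1) ∧
    ∀ p ∈ E, p.length = k → ∃ r ∈ T, r.2.1 = p

/-- `V` is a table containing all members of length `k`. -/
def OK (E : Set (List ℕ)) (k : ℕ) (V : List Row) : Prop :=
  (∀ r ∈ V, r = row r.2.1) ∧ (V.map (fun r => r.2.1)).Nodup ∧
    ∀ q ∈ E, q.length = k → row q ∈ V

lemma memC_of (hE : Coh E) {k : ℕ} {T : List Row}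
    (hT : ∀ p ∈ E, p.length = k → ∃ r ∈ T, r.2.1 = p ∧ r.1 = code p) {q : List ℕ} (hq : q ∈ E)
    (hk : q.length = k + 1) {p : List ℕ} (hp : p ∈ kids q) (hc : Conn p) :
    memC (code p) T = true := by
  have hch := (mem_kids (hE.isStd q hq)).1 hp
  have hpE := hE.child q hq p hch hc
  have hpl : p.length = k := by
    obtain ⟨i, hi, rfl⟩ := hch
    rw [length_std, List.length_eraseIdx_of_lt hi]
    omega
  obtain ⟨r, hr, _, hr2⟩ := hT p hpE hpl
  unfold memC
  rw [List.any_eq_true]
  exact ⟨r, hr, by rw [Nat.beq_eq]; exact hr2⟩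

lemma cand_ok (hE : Coh E) {k : ℕ} {T : List Row} (hk : 1 ≤ k)
    (hT : ∀ p ∈ E, p.length = k → ∃ r ∈ T, r.2.1 = p ∧ r.1 = code p) : OK E (k + 1) (cand T) := by
  refine ⟨?_, ?_, ?_⟩
  · intro r hr
    unfold cand at hr
    obtain ⟨q, _, rfl⟩ := List.mem_map.1 hr
    rfl
  · unfold cand
    rw [List.map_map]
    have : (fun r : Row => r.2.1) ∘ row = id := by
      funext q
      rfl
    rw [this, List.map_id]
    exact nodup_ddL _
  · intro q hq hql
    unfold cand
    apply List.mem_map_of_mem
    rw [mem_ddL, List.mem_filter]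
    refine ⟨?_, ?_⟩
    · obtain ⟨p, hp, hpl, hch⟩ := hE.back q hq (by omega)
      obtain ⟨r, hr, hr1, _⟩ := hT p hp (by omega)
      rw [List.mem_flatMap]
      exact ⟨r, hr, by rw [hr1]; exact mem_exts (hE.nodup q hq) (hE.isStd q hq) hch⟩
    · unfold good
      rw [Bool.and_eq_true, connB_iff, List.all_eq_true]
      refine ⟨hE.conn q hq, ?_⟩
      intro p hp
      rw [Bool.or_eq_true, Bool.not_eq_true']
      by_cases hc : Conn p
      · exact Or.inr (memC_of hE hT hq hql hp hc)
      · left
        rw [← Bool.not_eq_true, connB_iff]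
        exact hc

lemma hT_of_rep {k : ℕ} {T : List Row} (hT : Rep E k T) :
    ∀ p ∈ E, p.length = k → ∃ r ∈ T, r.2.1 = p ∧ r.1 = code p := by
  intro p hp hpl
  obtain ⟨r, hr, rfl⟩ := hT.2 p hp hpl
  exact ⟨r, hr, rfl, (hT.1 r hr).2.2⟩

lemma hT_of_ok {k : ℕ} {T : List Row} (hT : OK E k T) :
    ∀ p ∈ E, p.length = k → ∃ r ∈ T, r.2.1 = p ∧ r.1 = code p := by
  intro p hp hpl
  exact ⟨row p, hT.2.2 p hp hpl, rfl, rfl⟩

/-- Tables for the levels after `k`. -/
def TabsOK (E : Set (List ℕ)) : ℕ → List (List Row) → Prop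
  | _, [] => True
  | k, tab :: tabs => OK E (k + 1) tab ∧ TabsOK E (k + 1) tabs

lemma cands_ok (hE : Coh E) {k : ℕ} {T : List Row} (hk : 1 ≤ k) (hT : Rep E k T)
    {tabs : List (List Row)} (htabs : TabsOK E k tabs) : OK E (k + 1) (cands tabs T) := by
  rcases tabs with _ | ⟨tab, tabs⟩
  · exact cand_ok hE hk (hT_of_rep hT)
  · obtain ⟨⟨h1, h2, h3⟩, _⟩ := htabs
    refine ⟨?_, ?_, ?_⟩
    · intro r hr
      exact h1 r (List.mem_filter.1 hr).1
    · exact h2.sublist (List.filter_sublist.map _)
    · intro q hq hql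
      unfold cands
      rw [List.mem_filter]
      refine ⟨h3 q hq hql, ?_⟩
      rw [List.all_eq_true]
      intro c hc
      simp only [row, mem_ddN, List.mem_map, List.mem_filter] at hc
      obtain ⟨p, ⟨hp, hpc⟩, rfl⟩ := hc
      exact memC_of hE (hT_of_rep hT) hq hql hp ((connB_iff p).1 hpc)

lemma enum_sound {lim cost : ℕ} {f : List Row → ℕ → Bool} (V : List Row) :
    ∀ (acc : List Row) (w : ℕ), enum lim cost f V acc w = true → ∀ S : List Row, S.Sublist V →
      w + S.length * cost < lim → f (S.reverse ++ acc) (w + S.length * cost) = true := by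
  induction V with
  | nil =>
    intro acc w h S hS hlt
    rw [List.sublist_nil] at hS
    subst hS
    simpa [enum] using h
  | cons r V ih =>
    intro acc w h S hS hlt
    rw [enum, Bool.and_eq_true, Bool.or_eq_true, Nat.ble_eq] at h
    rcases List.sublist_cons_iff.1 hS with h1 | ⟨S', rfl, h1⟩
    · exact ih acc w h.1 S h1 hlt
    · rw [List.length_cons] at hlt ⊢
      have e : w + (S'.length + 1) * cost = Nat.add w cost + S'.length * cost := by
        rw [Nat.add_mul, Nat.one_mul]
        show _ = w + cost + S'.length * cost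
        omega
      have hlt' := hlt
      rw [e] at hlt'
      have h2 : ¬ lim ≤ Nat.add w cost := by
        intro h3
        have := Nat.le_add_right (Nat.add w cost) (S'.length * cost)
        omega
      have h4 := ih (r :: acc) (Nat.add w cost) (h.2.resolve_left h2) S' h1 hlt'
      rw [e]
      simpa using h4

lemma step (hE : Coh E) {k : ℕ} {T V : List Row} {f : List Row → ℕ → Bool} {w lim cost : ℕ}
    (hT : Rep E k T) (hV : OK E (k + 1) V) (henum : enum lim cost f V [] w = true)
    (hlt : w + (lev E (k + 1)).ncard * cost < lim) :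
    ∃ S : List Row, Rep E (k + 1) S ∧ S.length = (lev E (k + 1)).ncard ∧ covered T S = true ∧
      f S (w + (lev E (k + 1)).ncard * cost) = true := by
  classical
  obtain ⟨h1, h2, h3⟩ := hV
  set S0 : List Row := V.filter (fun r => decide (r.2.1 ∈ lev E (k + 1))) with hS0
  have hsub : S0.Sublist V := List.filter_sublist
  have hmem : ∀ r, r ∈ S0 ↔ r ∈ V ∧ r.2.1 ∈ lev E (k + 1) := by
    intro r
    rw [hS0, List.mem_filter, decide_eq_true_eq]
  have hnd : (S0.map (fun r => r.2.1)).Nodup := h2.sublist (hsub.map _)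
  have hcard : S0.length = (lev E (k + 1)).ncard := by
    have e1 : (lev E (k + 1)) = ↑((S0.map (fun r => r.2.1)).toFinset) := by
      ext q
      rw [Finset.mem_coe, List.mem_toFinset, List.mem_map]
      constructor
      · intro hq
        exact ⟨row q, (hmem _).2 ⟨h3 q hq.1 hq.2, hq⟩, rfl⟩
      · rintro ⟨r, hr, rfl⟩
        exact ((hmem r).1 hr).2
    rw [e1, Set.ncard_coe_finset, List.toFinset_card_of_nodup hnd, List.length_map]
  refine ⟨S0.reverse, ?_, ?_, ?_, ?_⟩
  · refine ⟨?_, ?_⟩
    · intro r hr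
      rw [List.mem_reverse, hmem] at hr
      refine ⟨hr.2.1, hr.2.2, ?_⟩
      conv_lhs => rw [h1 r hr.1]
      rfl
    · intro q hq hql
      exact ⟨row q, by rw [List.mem_reverse, hmem]; exact ⟨h3 q hq hql, hq, hql⟩, rfl⟩
  · rw [List.length_reverse, hcard]
  · unfold covered
    rw [List.all_eq_true]
    intro r hr
    obtain ⟨hrE, hrl, hrc⟩ := hT.1 r hr
    obtain ⟨q, hq, hql, hch⟩ := hE.parent _ hrE
    rw [List.any_eq_true]
    have hql' : (row q).2.1.length = k + 1 := by
      show q.length = k + 1
      omega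
    refine ⟨row q, by rw [List.mem_reverse, hmem]; exact ⟨h3 q hq (by omega), hq, hql'⟩, ?_⟩
    rw [List.any_eq_true]
    refine ⟨code r.2.1, ?_, by rw [Nat.beq_eq, hrc]⟩
    simp only [row, mem_ddN, List.mem_map, List.mem_filter]
    exact ⟨r.2.1, ⟨(mem_kids (hE.isStd q hq)).2 hch, (connB_iff _).2 (hE.conn _ hrE)⟩, rfl⟩
  · have := enum_sound V [] w henum S0 hsub (by rw [hcard]; exact hlt)
    rw [hcard] at this
    simpa using this

/-- The weight of the levels after `k`. -/
noncomputable def tot (E : Set (List ℕ)) : ℕ → List ℕ → ℕ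
  | _, [] => 0
  | k, c :: cs => (lev E (k + 1)).ncard * c + tot E (k + 1) cs

lemma search_sound (hE : Coh E) {lim : ℕ} (costs : List ℕ) :
    ∀ (k : ℕ) (tabs : List (List Row)) (T : List Row) (w : ℕ), 1 ≤ k → TabsOK E k tabs →
      Rep E k T → search lim costs tabs T w = true → lim ≤ w + tot E k costs := by
  induction costs with
  | nil =>
    intro k tabs T w _ _ _ h
    simp [search] at h
  | cons cost costs ih =>
    intro k tabs T w hk htabs hT h
    rw [search, Bool.or_eq_true, Nat.ble_eq] at h
    unfold tot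
    by_contra hcon
    push Not at hcon
    have h1 := hE.one_le_ncard k
    have h2 : ¬ lim ≤ Nat.add w cost := by
      intro h3
      have h4 : Nat.add w cost = w + cost := rfl
      have h5 : cost ≤ (lev E (k + 1)).ncard * cost := Nat.le_mul_of_pos_left cost h1
      omega
    have h3 := h.resolve_left h2
    obtain ⟨S, hS, _, hcov, hf⟩ := step hE hT (cands_ok hE hk hT htabs) h3 (by omega)
    rw [hcov, Bool.not_true, Bool.false_or] at hf
    have htabs' : TabsOK E (k + 1) tabs.tail := by
      rcases tabs with _ | ⟨tab, tabs⟩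
      · trivial
      · exact htabs.2
    have h6 := ih (k + 1) tabs.tail S _ (by omega) htabs' hS hf
    omega

end Pool.Agent.Helper46.SC.Srch
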