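import Mathlib
import Pool.Agent.Helper46.SC.SrchSound
import Pool.Agent.Helper46.SC.SrchC
import Pool.Agent.Helper46.SC.SrchA

/-! The result of the finite search. -/

namespace Pool.Agent.Helper46.SC.Srch

open List

variable {E : Set (List ℕ)}

lemma ok_of_eq {k : ℕ} {V W : List Row} (h : OK E k V) (e : V = W) : OK E k W := e ▸ h

lemma code_singleton (x : ℕ) : code [x] = x := by simp [code]

lemma rep1 (hE : Coh E) : Rep E 1 [row [0]] := by
  refine ⟨?_, ?_⟩
  · intro r hr
    rw [List.mem_singleton] at hr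
    subst hr
    exact ⟨hE.one, rfl, rfl⟩
  · intro p hp hpl
    obtain ⟨x, rfl⟩ := List.length_eq_one_iff.1 hpl
    have h1 := lt_length_of_std (hE.isStd _ hp) (x := x) (by simp)
    have h2 : x = 0 := by simpa using h1
    subst h2
    exact ⟨row [0], by simp, rfl⟩

theorem cand_row0 : cand [row [0]] = [row [1, 0]] := by decide +kernel

lemma ok2 (hE : Coh E) : OK E 2 [row [1, 0]] :=
  ok_of_eq (cand_ok hE le_rfl (hT_of_rep (rep1 hE))) cand_row0

/-- The permutations of length three in the order of the candidate list. -/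
theorem cand_row10 : cand [row [1, 0]] = [row [2, 0, 1], row [2, 1, 0], row [1, 2, 0]] := by
  decide +kernel

lemma ok3 (hE : Coh E) : OK E 3 [row [2, 0, 1], row [2, 1, 0], row [1, 2, 0]] :=
  ok_of_eq (cand_ok hE (by omega) (hT_of_ok (ok2 hE))) cand_row10

lemma row_inj {p q : List ℕ} (h : row p = row q) : p = q := congrArg (fun r : Row => r.2.1) h

lemma mem3 (hE : Coh E) {p : List ℕ} (hp : p ∈ E) (hl : p.length = 3) :
    p = [1, 2, 0] ∨ p = [2, 0, 1] ∨ p = [2, 1, 0] := by
  have h := (ok3 hE).2.2 p hp hl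
  simp only [List.mem_cons, List.not_mem_nil, or_false] at h
  rcases h with h | h | h
  · exact Or.inr (Or.inl (row_inj h))
  · exact Or.inr (Or.inr (row_inj h))
  · exact Or.inl (row_inj h)

lemma ncard3 {n : ℕ} (S : List Row) (hS : Rep E 3 S) (hnd : (S.map (fun r => r.2.1)).Nodup)
    (hn : S.length = n) : (lev E 3).ncard = n := by
  have e1 : (lev E 3) = ↑((S.map (fun r => r.2.1)).toFinset) := by
    ext q
    rw [Finset.mem_coe, List.mem_toFinset, List.mem_map]
    constructor
    · intro hq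
      exact hS.2 q hq.1 hq.2
    · rintro ⟨r, hr, rfl⟩
      exact ⟨(hS.1 r hr).1, (hS.1 r hr).2.1⟩
  rw [e1, Set.ncard_coe_finset, List.toFinset_card_of_nodup hnd, List.length_map, hn]

/-- The weighted count of the levels up to nine. -/
noncomputable def total (E : Set (List ℕ)) : ℕ :=
  ∑ k ∈ Finset.range 9, (lev E (k + 1)).ncard * (43 ^ (k + 1) * 100 ^ (8 - k))

lemma total_of_three (hE : Coh E) (h231 : [1, 2, 0] ∈ E) (h312 : [2, 0, 1] ∈ E)
    (h321 : [2, 1, 0] ∈ E) : 10 ^ 18 ≤ total E := by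
  have hrep : Rep E 3 top3 := by
    refine ⟨?_, ?_⟩
    · intro r hr
      simp only [top3, List.mem_cons, List.not_mem_nil, or_false] at hr
      rcases hr with rfl | rfl | rfl
      · exact ⟨h231, rfl, rfl⟩
      · exact ⟨h312, rfl, rfl⟩
      · exact ⟨h321, rfl, rfl⟩
    · intro p hp hl
      rcases mem3 hE hp hl with rfl | rfl | rfl
      · exact ⟨row [1, 2, 0], by simp [top3], rfl⟩
      · exact ⟨row [2, 0, 1], by simp [top3], rfl⟩
      · exact ⟨row [2, 1, 0], by simp [top3], rfl⟩
  have h4 : OK E 4 tabC4 := ok_of_eq (cand_ok hE (by omega) (hT_of_rep hrep)) cand_top3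
  have h5 : OK E 5 tabC5 := ok_of_eq (cand_ok hE (by omega) (hT_of_ok h4)) cand_tabC4
  have h6 := search_sound hE _ 3 [tabC4, tabC5] top3 _ (by omega) ⟨h4, h5, trivial⟩ hrep
    search_top3
  have h7 : (lev E 3).ncard = 3 := ncard3 top3 hrep (by simp [top3, row]) rfl
  have h8 := hE.one_le_ncard 0
  have h9 := hE.one_le_ncard 1
  simp only [tot, lim] at h6
  unfold total
  simp only [Finset.sum_range_succ, Finset.sum_range_zero, Nat.reduceAdd, Nat.reduceSub,
    Nat.reducePow, Nat.reduceMul, zero_add]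
  simp only [Nat.reduceAdd] at h6 h8 h9
  rw [h7]
  omega

lemma total_of_two (hE : Coh E) (h231 : [1, 2, 0] ∈ E) (h312 : [2, 0, 1] ∈ E)
    (h321 : [2, 1, 0] ∉ E) (hB : [2, 0, 3, 1] ∈ E) (hA : [1, 3, 0, 2] ∈ E)
    (h1 : [2, 3, 0, 1] ∈ E ∨ [3, 0, 1, 2] ∈ E) (h2 : [2, 3, 0, 1] ∈ E ∨ [1, 2, 3, 0] ∈ E) :
    10 ^ 18 ≤ total E := by
  have hrep : Rep E 3 top2 := by
    refine ⟨?_, ?_⟩
    · intro r hr
      simp only [top2, List.mem_cons, List.not_mem_nil, or_false] at hr
      rcases hr with rfl | rfl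
      · exact ⟨h231, rfl, rfl⟩
      · exact ⟨h312, rfl, rfl⟩
    · intro p hp hl
      rcases mem3 hE hp hl with rfl | rfl | rfl
      · exact ⟨row [1, 2, 0], by simp [top2], rfl⟩
      · exact ⟨row [2, 0, 1], by simp [top2], rfl⟩
      · exact absurd hp h321
  have h4 : OK E 4 tabA4 := ok_of_eq (cand_ok hE (by omega) (hT_of_rep hrep)) cand_top2
  have h5 : OK E 5 tabA5 := ok_of_eq (cand_ok hE (by omega) (hT_of_ok h4)) cand_tabA4
  have h6 : OK E 6 tabA6 := ok_of_eq (cand_ok hE (by omega) (hT_of_ok h5)) cand_tabA5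
  have h7 : (lev E 3).ncard = 2 := ncard3 top2 hrep (by simp [top2, row]) rfl
  have h8 := hE.one_le_ncard 0
  have h9 := hE.one_le_ncard 1
  simp only [Nat.reduceAdd] at h8 h9
  have key : lim ≤ 773914000000000000 + tot E 3 [34188010000000000, 14700844300000000,
      6321363049000000, 2718186111070000, 1168820027760100, 502592611936843] := by
    by_contra hcon
    push Not at hcon
    rw [tot] at hcon
    rw [← Nat.add_assoc] at hcon
    have hlt := lt_of_le_of_lt (Nat.le_add_right _ _) hcon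
    obtain ⟨S, hS, _, hcov, hf⟩ := step (k := 3) hE hrep h4 enum_top2 hlt
    rw [hcov, Bool.not_true, Bool.false_or, Bool.or_eq_true] at hf
    rcases hf with hf | hf
    · have hm : ∀ p : List ℕ, p ∈ E → p.length = 4 → memC (code p) S = true := by
        intro p hp hl
        obtain ⟨r, hr, rfl⟩ := hS.2 p hp hl
        unfold memC
        rw [List.any_eq_true]
        exact ⟨r, hr, by rw [Nat.beq_eq]; exact (hS.1 r hr).2.2⟩
      have mA : memC 8241 S = true := hm [1, 3, 0, 2] hA rfl
      have mB : memC 4866 S = true := hm [2, 0, 3, 1] hB rfl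
      have m1 : memC 4146 S = true ∨ memC 8451 S = true :=
        h1.imp (fun h => hm [2, 3, 0, 1] h rfl) (fun h => hm [3, 0, 1, 2] h rfl)
      have m2 : memC 4146 S = true ∨ memC 801 S = true :=
        h2.imp (fun h => hm [2, 3, 0, 1] h rfl) (fun h => hm [1, 2, 3, 0] h rfl)
      unfold skip4 at hf
      rw [mA, mB] at hf
      rcases m1 with m1 | m1 <;> rcases m2 with m2 | m2 <;> simp [m1, m2] at hf
    · have h10 := search_sound hE _ (3 + 1) [tabA5, tabA6] S _ (by omega) ⟨h5, h6, trivial⟩ hS hf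
      exact absurd hcon (not_lt.2 h10)
  simp only [tot, lim] at key
  unfold total
  simp only [Finset.sum_range_succ, Finset.sum_range_zero, Nat.reduceAdd, Nat.reduceSub,
    Nat.reducePow, Nat.reduceMul, zero_add]
  simp only [Nat.reduceAdd] at key
  rw [h7]
  omega

end Pool.Agent.Helper46.SC.Srch
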