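import Mathlib
import Pool.Agent.Helper46.SC.Bridge
import Pool.Agent.Helper46.SC.CatMain
import Pool.Agent.Helper46.SC.Gr
import Pool.Agent.Helper46.SC.SrchFinal

/-! The dichotomy: either every level is large, or the first nine levels are heavy. -/

namespace Pool.Agent.Helper46.SC

open List

variable {I : Set (List ℕ)}

lemma not_mem_av {M : List (List ℕ)} {μ : List ℕ} (hμ : μ ∈ M) (hs : std μ = μ) : μ ∉ av I M :=
  fun h => h.2 μ hμ μ (List.Sublist.refl μ) hs

/-- 231 as a permutation. -/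
def P231 : Equiv.Perm (Fin 3) := ⟨![1, 2, 0], ![2, 0, 1], by decide, by decide⟩

/-- 321 as a permutation. -/
def P321 : Equiv.Perm (Fin 3) := ⟨![2, 1, 0], ![2, 1, 0], by decide, by decide⟩

/-- 2413 as a permutation. -/
def P2413 : Equiv.Perm (Fin 4) := ⟨![1, 3, 0, 2], ![2, 0, 3, 1], by decide, by decide⟩

/-- 3412 as a permutation. -/
def P3412 : Equiv.Perm (Fin 4) := ⟨![2, 3, 0, 1], ![2, 3, 0, 1], by decide, by decide⟩

/-- 2341 as a permutation. -/
def P2341 : Equiv.Perm (Fin 4) := ⟨![1, 2, 3, 0], ![3, 0, 1, 2], by decide, by decide⟩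

lemma inv231 (h : [1, 2, 0] ∉ I) : [2, 0, 1] ∉ invS I := not_mem_invS (π := P231) h

lemma inv321 (h : [2, 1, 0] ∉ I) : [2, 1, 0] ∉ invS I := not_mem_invS (π := P321) h

lemma inv2413 (h : [1, 3, 0, 2] ∉ I) : [2, 0, 3, 1] ∉ invS I := not_mem_invS (π := P2413) h

lemma inv3412 (h : [2, 3, 0, 1] ∉ I) : [2, 3, 0, 1] ∉ invS I := not_mem_invS (π := P3412) h

lemma inv2341 (h : [1, 2, 3, 0] ∉ I) : [3, 0, 1, 2] ∉ invS I := not_mem_invS (π := P2341) h

/-- The levels are large. -/
def Large (I : Set (List ℕ)) : Prop := ∀ n, n + 1 ≤ (lev I (n + 2)).ncard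

lemma large_of_inv (h : DownConn I) (hI : Large (invS I)) : Large I := fun n => by
  rw [← ncard_lev_invS h]
  exact hI n

lemma large_of_av (h : DownConn I) {M : List (List ℕ)} (hI : Large (av I M)) : Large I :=
  fun n => (hI n).trans (ncard_av_le h M _)

lemma large1 (h : DownConn I) (hI : ¬ Bdd I) (h1 : [2, 0, 1] ∉ I) : Large I :=
  Av312.succ_le_ncard h hI h1

lemma large1' (h : DownConn I) (hI : ¬ Bdd I) (h1 : [1, 2, 0] ∉ I) : Large I :=
  large_of_inv h (large1 (downConn_invS h) (not_bdd_invS h hI) (inv231 h1))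

lemma large2 (h : DownConn I) (hI : ¬ Bdd I) (h1 : [2, 1, 0] ∉ I) (h2 : [2, 0, 3, 1] ∉ I) :
    Large I := Gr.succ_le_ncard h hI h1 h2

lemma large2' (h : DownConn I) (hI : ¬ Bdd I) (h1 : [2, 1, 0] ∉ I) (h2 : [1, 3, 0, 2] ∉ I) :
    Large I :=
  large_of_inv h (large2 (downConn_invS h) (not_bdd_invS h hI) (inv321 h1) (inv2413 h2))

lemma large3 (h : DownConn I) (hI : ¬ Bdd I) (h1 : [2, 1, 0] ∉ I) (h2 : [2, 3, 0, 1] ∉ I)
    (h3 : [3, 0, 1, 2] ∉ I) : Large I := Cat.succ_le_ncard h hI h1 h2 h3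

lemma large3' (h : DownConn I) (hI : ¬ Bdd I) (h1 : [2, 1, 0] ∉ I) (h2 : [2, 3, 0, 1] ∉ I)
    (h3 : [1, 2, 3, 0] ∉ I) : Large I :=
  large_of_inv h (large3 (downConn_invS h) (not_bdd_invS h hI) (inv321 h1) (inv3412 h2)
    (inv2341 h3))

lemma conn_of_connB {l : List ℕ} (h : Srch.connB l = true) : Conn l := (Srch.connB_iff l).1 h

lemma large_of_not_ess (h : DownConn I) (hI : ¬ Bdd I) (M : List (List ℕ))
    (hM : ∀ μ ∈ M, Conn μ ∧ μ ∉ ess I) (H : DownConn (av I M) → ¬ Bdd (av I M) → Large (av I M)) :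
    Large I :=
  large_of_av h (H (downConn_av h M)
    (not_bdd_av h hI M (fun μ hμ => (hM μ hμ).1) (fun μ hμ => (hM μ hμ).2)))

theorem dichotomy (h : DownConn I) (hI : ¬ Bdd I) :
    Large I ∨ 10 ^ 18 ≤ Srch.total (ess I) := by
  have c312 : Conn [2, 0, 1] := conn_of_connB rfl
  have c231 : Conn [1, 2, 0] := conn_of_connB rfl
  have c321 : Conn [2, 1, 0] := conn_of_connB rfl
  have c3142 : Conn [2, 0, 3, 1] := conn_of_connB rfl
  have c2413 : Conn [1, 3, 0, 2] := conn_of_connB rfl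
  have c3412 : Conn [2, 3, 0, 1] := conn_of_connB rfl
  have c4123 : Conn [3, 0, 1, 2] := conn_of_connB rfl
  have c2341 : Conn [1, 2, 3, 0] := conn_of_connB rfl
  by_cases h312 : [2, 0, 1] ∈ ess I
  swap
  · left
    exact large_of_not_ess h hI [[2, 0, 1]] (by simp [c312, h312])
      (fun h1 h2 => large1 h1 h2 (not_mem_av (by simp) (by decide)))
  by_cases h231 : [1, 2, 0] ∈ ess I
  swap
  · left
    exact large_of_not_ess h hI [[1, 2, 0]] (by simp [c231, h231])
      (fun h1 h2 => large1' h1 h2 (not_mem_av (by simp) (by decide)))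
  by_cases h321 : [2, 1, 0] ∈ ess I
  · right
    exact Srch.total_of_three (Srch.coh_ess h hI) h231 h312 h321
  by_cases h3142 : [2, 0, 3, 1] ∈ ess I
  swap
  · left
    exact large_of_not_ess h hI [[2, 1, 0], [2, 0, 3, 1]] (by simp [c321, h321, c3142, h3142])
      (fun h1 h2 => large2 h1 h2 (not_mem_av (by simp) (by decide))
        (not_mem_av (by simp) (by decide)))
  by_cases h2413 : [1, 3, 0, 2] ∈ ess I
  swap
  · left
    exact large_of_not_ess h hI [[2, 1, 0], [1, 3, 0, 2]] (by simp [c321, h321, c2413, h2413])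
      (fun h1 h2 => large2' h1 h2 (not_mem_av (by simp) (by decide))
        (not_mem_av (by simp) (by decide)))
  by_cases h3412 : [2, 3, 0, 1] ∈ ess I
  · right
    exact Srch.total_of_two (Srch.coh_ess h hI) h231 h312 h321 h3142 h2413 (Or.inl h3412)
      (Or.inl h3412)
  by_cases h4123 : [3, 0, 1, 2] ∈ ess I
  swap
  · left
    exact large_of_not_ess h hI [[2, 1, 0], [2, 3, 0, 1], [3, 0, 1, 2]]
      (by simp [c321, h321, c3412, h3412, c4123, h4123])
      (fun h1 h2 => large3 h1 h2 (not_mem_av (by simp) (by decide))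
        (not_mem_av (by simp) (by decide)) (not_mem_av (by simp) (by decide)))
  by_cases h2341 : [1, 2, 3, 0] ∈ ess I
  swap
  · left
    exact large_of_not_ess h hI [[2, 1, 0], [2, 3, 0, 1], [1, 2, 3, 0]]
      (by simp [c321, h321, c3412, h3412, c2341, h2341])
      (fun h1 h2 => large3' h1 h2 (not_mem_av (by simp) (by decide))
        (not_mem_av (by simp) (by decide)) (not_mem_av (by simp) (by decide)))
  right
  exact Srch.total_of_two (Srch.coh_ess h hI) h231 h312 h321 h3142 h2413 (Or.inr h4123)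
    (Or.inr h2341)

theorem dichotomy' (h : DownConn I) (hI : ¬ Bdd I) :
    Large I ∨ 10 ^ 18 ≤ Srch.total I := by
  rcases dichotomy h hI with h1 | h1
  · exact Or.inl h1
  · right
    refine h1.trans (Finset.sum_le_sum fun k _ => ?_)
    exact Nat.mul_le_mul_right _ (ncard_ess_le h _)

lemma one_le_lev_one (h : DownConn I) (hI : ¬ Bdd I) : 1 ≤ (lev I 1).ncard :=
  ((Srch.coh_ess h hI).one_le_ncard 0).trans (ncard_ess_le h 1)

end Pool.Agent.Helper46.SC
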