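import Mathlib
import Pool.Agent.Helper46.SC.Struct

/-! Sum closed classes: indecomposables as connected lists, and the counting inequality. -/

namespace Pool.Agent.Helper46.SC

open List Pool.Agent.R120 Pool.Agent.R120.Antichain Pool.Agent.R120.SumClass

lemma dsumP_castAdd {m k : ℕ} (σ : Equiv.Perm (Fin m)) (τ : Equiv.Perm (Fin k)) (i : Fin m) :
    dsumP σ τ (Fin.castAdd k i) = Fin.castAdd k (σ i) := by
  simp [dsumP, Equiv.permCongr_apply]

lemma dsumP_natAdd {m k : ℕ} (σ : Equiv.Perm (Fin m)) (τ : Equiv.Perm (Fin k)) (j : Fin k) :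
    dsumP σ τ (Fin.natAdd m j) = Fin.natAdd m (τ j) := by
  simp [dsumP, Equiv.permCongr_apply]

lemma toL_dsumP {m k : ℕ} (σ : Equiv.Perm (Fin m)) (τ : Equiv.Perm (Fin k)) :
    toL (dsumP σ τ) = toL σ ++ (toL τ).map (· + m) := by
  apply List.ext_getElem
  · rw [length_toL, List.length_append, List.length_map, length_toL, length_toL]
  · intro i h1 h2
    rw [length_toL] at h1
    rw [getElem_toL]
    rcases Nat.lt_or_ge i m with hi | hi
    · rw [List.getElem_append_left (by rw [length_toL]; exact hi), getElem_toL]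
      have := dsumP_castAdd σ τ ⟨i, hi⟩
      have e : (⟨i, h1⟩ : Fin (m + k)) = Fin.castAdd k ⟨i, hi⟩ := rfl
      rw [e, this]
      rfl
    · rw [List.getElem_append_right (by rw [length_toL]; exact hi), List.getElem_map,
        getElem_toL]
      have hk : i - m < k := by omega
      have := dsumP_natAdd σ τ ⟨i - m, hk⟩
      have e : (⟨i, h1⟩ : Fin (m + k)) = Fin.natAdd m ⟨i - m, hk⟩ := by
        apply Fin.ext
        simp only [Fin.val_natAdd]
        omega
      rw [e, this]
      simp only [Fin.val_natAdd, length_toL]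
      omega

/-- One-line notation of a permutation of arbitrary length. -/
def toA (p : AllPerms) : List ℕ := toL p.2

lemma length_toA (p : AllPerms) : (toA p).length = p.1 := length_toL p.2

lemma toA_inj {p q : AllPerms} (h : toA p = toA q) : p = q := by
  obtain ⟨n, π⟩ := p
  obtain ⟨m, ρ⟩ := q
  have hnm : n = m := by
    have := congrArg List.length h
    rwa [length_toA, length_toA] at this
  subst hnm
  have h1 : π = ρ := toL_inj h
  rw [h1]

lemma toA_dsum (p q : AllPerms) : toA (dsum p q) = toA p ++ (toA q).map (· + p.1) :=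
  toL_dsumP p.2 q.2

lemma indecomposable_iff (p : AllPerms) : Indecomposable p ↔ Conn (toA p) := by
  constructor
  · rintro ⟨h0, h⟩
    by_contra hc
    have hne : toA p ≠ [] := by
      intro he
      have := congrArg List.length he
      rw [length_toA, List.length_nil] at this
      omega
    obtain ⟨a, b, hab, ha, hb, hno⟩ : ∃ a b : List ℕ, toA p = a ++ b ∧ a ≠ [] ∧ b ≠ [] ∧
        ∀ x ∈ a, ∀ y ∈ b, ¬ y < x := by
      by_contra hcon
      push Not at hcon
      exact hc ⟨hne, fun a b hab ha hb => hcon a b hab ha hb⟩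
    have hn : (a ++ b).Nodup := by rw [← hab]; exact nodup_toL _
    have hs : std (a ++ b) = a ++ b := by rw [← hab]; exact std_toL _
    obtain ⟨h1, h2⟩ := Av312.sum_shape hn hs hno
    have hna := (List.nodup_append.1 hn).1
    have hnb := (List.nodup_append.1 hn).2.1
    -- the first part is a permutation
    have hpa : a.Perm (List.range a.length) := by
      have hsub : a ⊆ List.range a.length := fun x hx => List.mem_range.2 (h1 x hx)
      exact (List.subperm_of_subset hna hsub).perm_of_length_le (by rw [List.length_range])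
    have hlt : ∀ x ∈ a ++ b, x < (a ++ b).length := fun x hx => lt_length_of_std hs hx
    have hpb : (b.map (· - a.length)).Perm (List.range b.length) := by
      have hnd : (b.map (· - a.length)).Nodup := by
        rw [List.nodup_map_iff_inj_on hnb]
        intro x hx y hy hxy
        have := h2 x hx
        have := h2 y hy
        omega
      have hsub : (b.map (· - a.length)) ⊆ List.range b.length := by
        intro x hx
        obtain ⟨y, hy, rfl⟩ := List.mem_map.1 hx
        have := h2 y hy
        have := hlt y (List.mem_append_right _ hy)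
        rw [List.length_append] at this
        rw [List.mem_range]
        omega
      exact (List.subperm_of_subset hnd hsub).perm_of_length_le
        (by rw [List.length_range, List.length_map])
    obtain ⟨σ, hσ⟩ := exists_toL hpa
    obtain ⟨τ, hτ⟩ := exists_toL hpb
    refine h ⟨_, σ⟩ ⟨_, τ⟩ (List.length_pos_iff.2 ha) (List.length_pos_iff.2 hb) ?_
    apply toA_inj
    rw [toA_dsum, hab]
    show a ++ b = toL σ ++ (toL τ).map (· + a.length)
    rw [hσ, hτ, List.map_map]
    congr 1
    conv_lhs => rw [← List.map_id b]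
    apply List.map_congr_left
    intro y hy
    have := h2 y hy
    simp only [Function.comp, id]
    omega
  · rintro ⟨hne, h⟩
    refine ⟨?_, ?_⟩
    · rw [← length_toA p]
      exact List.length_pos_iff.2 hne
    · rintro a b ha hb rfl
      rw [toA_dsum] at h
      obtain ⟨x, hx, y, hy, hxy⟩ := h (toA a) ((toA b).map (· + a.1)) rfl
        (by rw [← List.length_pos_iff, length_toA]; exact ha)
        (by rw [← List.length_pos_iff, List.length_map, length_toA]; exact hb)
      have h1 : x < a.1 := mem_toL.1 hx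
      obtain ⟨z, _, rfl⟩ := List.mem_map.1 hy
      omega

/-- The lists of the members of a set of permutations. -/
def ls (X : Set AllPerms) : Set (List ℕ) := toA '' X

lemma ncard_lev_ls (X : Set AllPerms) (n : ℕ) : (lev (ls X) n).ncard = level X n := by
  unfold level
  have h1 : lev (ls X) n = toL '' {π : Equiv.Perm (Fin n) | (⟨n, π⟩ : AllPerms) ∈ X} := by
    ext l
    constructor
    · rintro ⟨⟨⟨m, π⟩, hp, rfl⟩, hl⟩
      rw [length_toA] at hl
      simp only at hl
      subst hl
      exact ⟨π, hp, rfl⟩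
    · rintro ⟨π, hπ, rfl⟩
      exact ⟨⟨⟨n, π⟩, hπ, rfl⟩, length_toL π⟩
  rw [h1, Set.InjOn.ncard_image (fun _ _ _ _ he => toL_inj he)]

lemma finite_lev_ls (X : Set AllPerms) (n : ℕ) : (lev (ls X) n).Finite := by
  refine (finite_std n).subset ?_
  rintro l ⟨⟨p, _, rfl⟩, hl⟩
  exact ⟨nodup_toL _, std_toL _, hl⟩

lemma downConn_ls {C : Set AllPerms} (hC : IsClass C) : DownConn (ls (ind C)) where
  nodup := by
    rintro _ ⟨p, _, rfl⟩
    exact nodup_toL _
  isStd := by
    rintro _ ⟨p, _, rfl⟩
    exact std_toL _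
  conn := by
    rintro _ ⟨p, hp, rfl⟩
    exact (indecomposable_iff p).1 hp.2
  down := by
    rintro _ ⟨p, hp, rfl⟩ t ht hc
    obtain ⟨k, σ, hσ, hcon⟩ := contains_of_sublist ht
    refine ⟨⟨k, σ⟩, ⟨hC p hp.1 ⟨k, σ⟩ hcon, ?_⟩, hσ⟩
    rw [indecomposable_iff]
    show Conn (toL σ)
    rw [hσ, conn_std]
    exact hc

/-- Sums with a connected first part determine their parts. -/
lemma append_inj_of_conn {a b a' b' : List ℕ} (ha : Conn a) (ha' : Conn a')
    (h1 : ∀ x ∈ a, x < a.length) (h1' : ∀ x ∈ a', x < a'.length)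
    (h : a ++ b.map (· + a.length) = a' ++ b'.map (· + a'.length)) : a = a' ∧ b = b' := by
  have key : ∀ {a b a' b' : List ℕ}, Conn a → Conn a' → (∀ x ∈ a, x < a.length) →
      a ++ b.map (· + a.length) = a' ++ b'.map (· + a'.length) → ¬ a.length < a'.length := by
    intro a b a' b' ha ha' h1 h hlt
    rcases List.append_eq_append_iff.1 h with ⟨c, hc1, hc2⟩ | ⟨c, hc1, hc2⟩
    · have hc : c ≠ [] := by
        rintro rfl
        rw [List.append_nil] at hc1
        rw [hc1] at hlt
        exact lt_irrefl _ hlt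
      obtain ⟨x, hx, y, hy, hxy⟩ := ha'.2 a c hc1 ha.1 hc
      have h2 : y ∈ b.map (· + a.length) := by rw [hc2]; simp [hy]
      obtain ⟨z, _, rfl⟩ := List.mem_map.1 h2
      have := h1 x hx
      omega
    · rw [hc1, List.length_append] at hlt
      omega
  have h2 : a.length = a'.length := by
    have := key ha ha' h1 h
    have := key ha' ha h1' h.symm
    omega
  obtain ⟨h3, h4⟩ := List.append_inj h h2
  refine ⟨h3, ?_⟩
  rw [h2] at h4
  exact List.map_injective_iff.2 (fun x y hxy => Nat.add_right_cancel hxy) h4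

lemma sum_le_level {C : Set AllPerms} (hS : SumClosed C) (n : ℕ) :
    ∑ k ∈ Finset.range n, level (ind C) (k + 1) * level C (n - (k + 1)) ≤ level C n := by
  classical
  let A : ℕ → Finset (List ℕ) := fun k => (finite_lev_ls (ind C) k).toFinset
  let B : ℕ → Finset (List ℕ) := fun k => (finite_lev_ls C k).toFinset
  have hA : ∀ k, (A k).card = level (ind C) k := by
    intro k
    rw [← ncard_lev_ls, Set.ncard_eq_toFinset_card _ (finite_lev_ls (ind C) k)]
  have hB : ∀ k, (B k).card = level C k := by
    intro k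
    rw [← ncard_lev_ls, Set.ncard_eq_toFinset_card _ (finite_lev_ls C k)]
  let φ : List ℕ × List ℕ → List ℕ := fun ab => ab.1 ++ ab.2.map (· + ab.1.length)
  have hmemA : ∀ k a, a ∈ A k → Conn a ∧ (∀ x ∈ a, x < a.length) ∧ a.length = k ∧
      ∃ p ∈ C, toA p = a := by
    intro k a ha
    simp only [A, Set.Finite.mem_toFinset] at ha
    obtain ⟨⟨p, hp, rfl⟩, hl⟩ := ha
    refine ⟨(indecomposable_iff p).1 hp.2, ?_, hl, p, hp.1, rfl⟩
    intro x hx
    rw [length_toA]
    exact mem_toL.1 hx
  have hinj : ∀ k k' ab ab', ab ∈ A k ×ˢ B (n - k) → ab' ∈ A k' ×ˢ B (n - k') → φ ab = φ ab' →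
      ab = ab' := by
    rintro k k' ⟨a, b⟩ ⟨a', b'⟩ h1 h2 h3
    rw [Finset.mem_product] at h1 h2
    obtain ⟨c1, c2, _, _⟩ := hmemA k a h1.1
    obtain ⟨c1', c2', _, _⟩ := hmemA k' a' h2.1
    obtain ⟨rfl, rfl⟩ := append_inj_of_conn c1 c1' c2 c2' h3
    rfl
  have hsub : (Finset.range n).biUnion (fun k => (A (k + 1) ×ˢ B (n - (k + 1))).image φ) ⊆
      B n := by
    intro l hl
    rw [Finset.mem_biUnion] at hl
    obtain ⟨k, hk, hl⟩ := hl
    rw [Finset.mem_range] at hk
    rw [Finset.mem_image] at hl
    obtain ⟨⟨a, b⟩, hab, rfl⟩ := hl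
    rw [Finset.mem_product] at hab
    obtain ⟨_, _, h3, p, hp, rfl⟩ := hmemA _ a hab.1
    have hb := hab.2
    simp only [B, Set.Finite.mem_toFinset] at hb ⊢
    obtain ⟨⟨q, hq, rfl⟩, hql⟩ := hb
    refine ⟨⟨dsum p q, hS p hp q hq, ?_⟩, ?_⟩
    · rw [toA_dsum]
      simp only [φ, length_toA]
    · show ((toA p) ++ (toA q).map (· + (toA p).length)).length = n
      rw [List.length_append, List.length_map]
      have h4 : (toA p).length = k + 1 := h3
      have h5 : (toA q).length = n - (k + 1) := hql
      omega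
  have hcard : ((Finset.range n).biUnion
      (fun k => (A (k + 1) ×ˢ B (n - (k + 1))).image φ)).card =
      ∑ k ∈ Finset.range n, level (ind C) (k + 1) * level C (n - (k + 1)) := by
    rw [Finset.card_biUnion]
    · refine Finset.sum_congr rfl fun k _ => ?_
      rw [Finset.card_image_of_injOn, Finset.card_product, hA, hB]
      intro ab hab ab' hab' h
      exact hinj _ _ ab ab' hab hab' h
    · intro k _ k' _ hkk'
      rw [Function.onFun, Finset.disjoint_left]
      intro l h1 h2
      obtain ⟨ab, h3, rfl⟩ := Finset.mem_image.1 h1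
      obtain ⟨ab', h4, h5⟩ := Finset.mem_image.1 h2
      have := hinj _ _ _ _ h4 h3 h5
      subst this
      rw [Finset.mem_product] at h3 h4
      have e1 := (hmemA _ _ h3.1).2.2.1
      have e2 := (hmemA _ _ h4.1).2.2.1
      omega
  rw [← hcard, ← hB n]
  exact Finset.card_le_card hsub

end Pool.Agent.Helper46.SC
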