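import Mathlib

/-! Growth of sequences satisfying the counting inequality of sum closed classes. -/

namespace Pool.Agent.Helper46.SC.Growth

open Filter Topology
open scoped ENNReal

variable {c s : ℕ → ℕ}

lemma one_le (h0 : 1 ≤ c 0) (hs1 : 1 ≤ s 1)
    (hrec : ∀ n, ∑ k ∈ Finset.range n, s (k + 1) * c (n - (k + 1)) ≤ c n) (n : ℕ) : 1 ≤ c n := by
  induction n with
  | zero => exact h0
  | succ n ih =>
    refine le_trans ?_ (hrec (n + 1))
    have h1 : s (0 + 1) * c (n + 1 - (0 + 1)) ≤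
        ∑ k ∈ Finset.range (n + 1), s (k + 1) * c (n + 1 - (k + 1)) :=
      Finset.single_le_sum (f := fun k => s (k + 1) * c (n + 1 - (k + 1)))
        (fun _ _ => Nat.zero_le _) (Finset.mem_range.2 (Nat.succ_pos n))
    refine le_trans ?_ h1
    simp only [zero_add, Nat.add_sub_cancel]
    exact Nat.one_le_iff_ne_zero.2 (Nat.mul_ne_zero (by omega) (by omega))

lemma lower (h0 : 1 ≤ c 0) (hs1 : 1 ≤ s 1)
    (hrec : ∀ n, ∑ k ∈ Finset.range n, s (k + 1) * c (n - (k + 1)) ≤ c n)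
    {y : ℝ} (hy0 : 0 < y) (hy1 : y ≤ 1) {N : ℕ}
    (hN : 1 ≤ ∑ k ∈ Finset.range N, (s (k + 1) : ℝ) * y ^ (k + 1)) (n : ℕ) :
    y ^ N ≤ (c n : ℝ) * y ^ n := by
  induction n using Nat.strong_induction_on with
  | _ n ih =>
    rcases Nat.lt_or_ge n N with h | h
    · have h1 : (1 : ℝ) ≤ c n := by exact_mod_cast one_le h0 hs1 hrec n
      calc y ^ N ≤ y ^ n := pow_le_pow_of_le_one hy0.le hy1 h.le
        _ = 1 * y ^ n := (one_mul _).symm
        _ ≤ (c n : ℝ) * y ^ n := mul_le_mul_of_nonneg_right h1 (by positivity)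
    · have h1 : (∑ k ∈ Finset.range N, (s (k + 1) : ℝ) * (c (n - (k + 1)) : ℝ)) ≤ (c n : ℝ) := by
        have h2 : ∑ k ∈ Finset.range N, s (k + 1) * c (n - (k + 1)) ≤ c n := by
          refine le_trans ?_ (hrec n)
          exact Finset.sum_le_sum_of_subset (Finset.range_subset_range.2 h)
        exact_mod_cast h2
      calc y ^ N = 1 * y ^ N := (one_mul _).symm
        _ ≤ (∑ k ∈ Finset.range N, (s (k + 1) : ℝ) * y ^ (k + 1)) * y ^ N :=
            mul_le_mul_of_nonneg_right hN (by positivity)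
        _ = ∑ k ∈ Finset.range N, (s (k + 1) : ℝ) * y ^ (k + 1) * y ^ N := Finset.sum_mul _ _ _
        _ ≤ ∑ k ∈ Finset.range N, (s (k + 1) : ℝ) * (c (n - (k + 1)) : ℝ) * y ^ n := by
            refine Finset.sum_le_sum fun k hk => ?_
            rw [Finset.mem_range] at hk
            have h3 := ih (n - (k + 1)) (by omega)
            have h4 : y ^ n = y ^ (k + 1) * y ^ (n - (k + 1)) := by
              rw [← pow_add]
              congr 1
              omega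
            calc (s (k + 1) : ℝ) * y ^ (k + 1) * y ^ N
                ≤ (s (k + 1) : ℝ) * y ^ (k + 1) * ((c (n - (k + 1)) : ℝ) * y ^ (n - (k + 1))) :=
                  mul_le_mul_of_nonneg_left h3 (by positivity)
              _ = (s (k + 1) : ℝ) * (c (n - (k + 1)) : ℝ) * y ^ n := by rw [h4]; ring
        _ = (∑ k ∈ Finset.range N, (s (k + 1) : ℝ) * (c (n - (k + 1)) : ℝ)) * y ^ n :=
            (Finset.sum_mul _ _ _).symm
        _ ≤ (c n : ℝ) * y ^ n := mul_le_mul_of_nonneg_right h1 (by positivity)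

lemma le_liminf (c : ℕ → ℕ) {y : ℝ} (hy0 : 0 < y) {N : ℕ}
    (h : ∀ n, y ^ N ≤ (c n : ℝ) * y ^ n) :
    ENNReal.ofReal y⁻¹ ≤
      liminf (fun n : ℕ => ((c n : ℕ) : ℝ≥0∞) ^ ((1 : ℝ) / (n : ℝ))) atTop := by
  have h1 : Tendsto (fun n : ℕ => (N : ℝ) / (n : ℝ) - 1) atTop (𝓝 (0 - 1)) :=
    (tendsto_const_div_atTop_nhds_zero_nat (N : ℝ)).sub_const 1
  have h2 : Tendsto (fun n : ℕ => y ^ ((N : ℝ) / (n : ℝ) - 1)) atTop (𝓝 (y ^ ((0 : ℝ) - 1))) :=
    ((Real.continuous_const_rpow hy0.ne').tendsto _).comp h1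
  have h3 : y ^ ((0 : ℝ) - 1) = y⁻¹ := by
    rw [zero_sub, Real.rpow_neg_one]
  rw [h3] at h2
  have h4 := (ENNReal.continuous_ofReal.tendsto _).comp h2
  rw [← h4.liminf_eq]
  refine Filter.liminf_le_liminf ?_
  filter_upwards [eventually_ge_atTop 1] with n hn
  have hn' : (0 : ℝ) < n := by exact_mod_cast hn
  have hc : (0 : ℝ) ≤ c n := Nat.cast_nonneg _
  have h5 : y ^ ((N : ℝ) / (n : ℝ) - 1) ≤ (c n : ℝ) ^ ((1 : ℝ) / (n : ℝ)) := by
    have h6 : y ^ ((N : ℝ) - (n : ℝ)) ≤ (c n : ℝ) := by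
      rw [Real.rpow_sub hy0, Real.rpow_natCast, Real.rpow_natCast, div_le_iff₀ (by positivity)]
      exact h n
    have h7 : (y ^ ((N : ℝ) - (n : ℝ))) ^ ((1 : ℝ) / (n : ℝ)) ≤ (c n : ℝ) ^ ((1 : ℝ) / (n : ℝ)) :=
      Real.rpow_le_rpow (by positivity) h6 (by positivity)
    rw [← Real.rpow_mul hy0.le] at h7
    have h8 : ((N : ℝ) - (n : ℝ)) * ((1 : ℝ) / (n : ℝ)) = (N : ℝ) / (n : ℝ) - 1 := by
      field_simp
    rwa [h8] at h7
  have h9 : ((c n : ℕ) : ℝ≥0∞) = ENNReal.ofReal (c n : ℝ) := (ENNReal.ofReal_natCast _).symm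
  simp only [Function.comp]
  rw [h9, ENNReal.ofReal_rpow_of_nonneg hc (by positivity)]
  exact ENNReal.ofReal_le_ofReal h5

lemma pow_floor_le (hmul : ∀ m n, c m * c n ≤ c (m + n)) (m q r : ℕ) :
    c m ^ q * c r ≤ c (m * q + r) := by
  induction q with
  | zero => simp
  | succ q ih =>
    calc c m ^ (q + 1) * c r = c m * (c m ^ q * c r) := by ring
      _ ≤ c m * c (m * q + r) := Nat.mul_le_mul_left _ ih
      _ ≤ c (m + (m * q + r)) := hmul _ _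
      _ = c (m * (q + 1) + r) := by congr 1; ring

/-- Supermultiplicative sequences have a growth rate. -/
lemma exists_limit (hmul : ∀ m n, c m * c n ≤ c (m + n)) (h1 : ∀ n, 1 ≤ c n) :
    ∃ g : ℝ≥0∞, Tendsto (fun n : ℕ => ((c n : ℕ) : ℝ≥0∞) ^ ((1 : ℝ) / (n : ℝ))) atTop (𝓝 g) := by
  set u : ℕ → ℝ≥0∞ := fun n : ℕ => ((c n : ℕ) : ℝ≥0∞) ^ ((1 : ℝ) / (n : ℝ)) with hu
  have key : ∀ m : ℕ, 1 ≤ m → u m ≤ liminf u atTop := by
    intro m hm
    have hm' : (0 : ℝ) < m := by exact_mod_cast hm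
    have hcm : (1 : ℝ) ≤ c m := by exact_mod_cast h1 m
    have hcm0 : (0 : ℝ) < c m := by linarith
    have h2 : Tendsto (fun n : ℕ => (1 : ℝ) / m - 1 / (n : ℝ)) atTop (𝓝 ((1 : ℝ) / m - 0)) :=
      tendsto_const_nhds.sub tendsto_one_div_atTop_nhds_zero_nat
    have h3 : Tendsto (fun n : ℕ => (c m : ℝ) ^ ((1 : ℝ) / m - 1 / (n : ℝ))) atTop
        (𝓝 ((c m : ℝ) ^ ((1 : ℝ) / m - 0))) :=
      ((Real.continuous_const_rpow hcm0.ne').tendsto _).comp h2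
    rw [sub_zero] at h3
    have h4 := (ENNReal.continuous_ofReal.tendsto _).comp h3
    have h5 : u m = ENNReal.ofReal ((c m : ℝ) ^ ((1 : ℝ) / m)) := by
      simp only [hu]
      rw [← ENNReal.ofReal_natCast, ENNReal.ofReal_rpow_of_nonneg hcm0.le (by positivity)]
    rw [h5, ← h4.liminf_eq]
    refine Filter.liminf_le_liminf ?_
    filter_upwards [eventually_ge_atTop 1] with n hn
    have hn' : (0 : ℝ) < n := by exact_mod_cast hn
    simp only [Function.comp, hu]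
    rw [← ENNReal.ofReal_natCast (c n),
      ENNReal.ofReal_rpow_of_nonneg (Nat.cast_nonneg _) (by positivity)]
    apply ENNReal.ofReal_le_ofReal
    have h6 : (c m : ℝ) ^ (n / m) ≤ (c n : ℝ) := by
      have h7 := pow_floor_le hmul m (n / m) (n % m)
      rw [Nat.div_add_mod] at h7
      have h8 : c m ^ (n / m) ≤ c n :=
        (Nat.le_mul_of_pos_right _ (h1 (n % m))).trans h7
      exact_mod_cast h8
    have h9 : (n : ℝ) / m - 1 ≤ ((n / m : ℕ) : ℝ) := by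
      have h10 : n < m * (n / m + 1) := Nat.lt_mul_div_succ n hm
      have h11 : (n : ℝ) < m * (((n / m : ℕ) : ℝ) + 1) := by exact_mod_cast h10
      have h12 : (n : ℝ) / m < ((n / m : ℕ) : ℝ) + 1 := by
        rw [div_lt_iff₀ hm']
        linarith
      linarith
    have h13 : (c m : ℝ) ^ ((n : ℝ) / m - 1) ≤ (c n : ℝ) := by
      refine le_trans (Real.rpow_le_rpow_of_exponent_le hcm h9) ?_
      rw [Real.rpow_natCast]
      exact h6
    have h14 : ((c m : ℝ) ^ ((n : ℝ) / m - 1)) ^ ((1 : ℝ) / (n : ℝ)) ≤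
        (c n : ℝ) ^ ((1 : ℝ) / (n : ℝ)) :=
      Real.rpow_le_rpow (by positivity) h13 (by positivity)
    rw [← Real.rpow_mul hcm0.le] at h14
    have h15 : ((n : ℝ) / m - 1) * ((1 : ℝ) / (n : ℝ)) = (1 : ℝ) / m - 1 / (n : ℝ) := by
      field_simp
    rwa [h15] at h14
  refine ⟨liminf u atTop, tendsto_of_le_liminf_of_limsup_le le_rfl ?_⟩
  apply Filter.limsup_le_of_le
  · exact isCobounded_le_of_bot
  · filter_upwards [eventually_ge_atTop 1] with n hn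
    exact key n hn

/-- The polynomial `x ^ 3 - 3 x ^ 2 + 2 x - 1` increases beyond `2`. -/
lemma poly_lt {x y : ℝ} (hx : 2 < x) (hxy : x < y) :
    x ^ 3 - 3 * x ^ 2 + 2 * x - 1 < y ^ 3 - 3 * y ^ 2 + 2 * y - 1 := by
  nlinarith [mul_pos (sub_pos.2 hx) (sub_pos.2 hxy), mul_pos (sub_pos.2 hxy) (sub_pos.2 hxy),
    mul_pos (mul_pos (sub_pos.2 hx) (sub_pos.2 hx)) (sub_pos.2 hxy),
    mul_pos (mul_pos (sub_pos.2 hx) (sub_pos.2 hxy)) (sub_pos.2 hxy),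
    mul_pos (mul_pos (sub_pos.2 hxy) (sub_pos.2 hxy)) (sub_pos.2 hxy)]

lemma two_lt_of_root {x : ℝ} (hx : 0 < x) (h : x ^ 3 - 3 * x ^ 2 + 2 * x - 1 = 0) : 2 < x := by
  by_contra hc
  push Not at hc
  rcases le_total x 1 with h1 | h1
  · nlinarith [mul_nonneg hx.le (sub_nonneg.2 h1), sq_nonneg (x - 1 / 2),
      mul_nonneg (mul_nonneg hx.le (sub_nonneg.2 h1)) hx.le]
  · nlinarith [mul_nonneg (mul_nonneg hx.le (sub_nonneg.2 h1)) (sub_nonneg.2 hc)]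

lemma exists_root : ∃ τ : ℝ, 2.32 < τ ∧ τ < 2.325 ∧ τ ^ 3 - 3 * τ ^ 2 + 2 * τ - 1 = 0 := by
  have hcont : ContinuousOn (fun x : ℝ => x ^ 3 - 3 * x ^ 2 + 2 * x - 1) (Set.Icc 2.32 2.325) := by
    fun_prop
  have h := intermediate_value_Ioo (by norm_num : (2.32 : ℝ) ≤ 2.325) hcont
  have h0 : (0 : ℝ) ∈ Set.Ioo ((2.32 : ℝ) ^ 3 - 3 * 2.32 ^ 2 + 2 * 2.32 - 1)
      (2.325 ^ 3 - 3 * 2.325 ^ 2 + 2 * 2.325 - 1) := by
    constructor <;> norm_num
  obtain ⟨τ, hτ, hτ0⟩ := h h0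
  exact ⟨τ, hτ.1, hτ.2, hτ0⟩

/-- The large case. -/
lemma sum_of_large (hs1 : 1 ≤ s 1) (hs : ∀ n, n + 1 ≤ s (n + 2)) {y : ℝ} (hy0 : 0 < y)
    (hy1 : y < 1) (hy : (1 - y) ^ 3 < y ^ 2) :
    ∃ N, 1 ≤ ∑ k ∈ Finset.range N, (s (k + 1) : ℝ) * y ^ (k + 1) := by
  have h1 : HasSum (fun n : ℕ => (n : ℝ) * y ^ n) (y / (1 - y) ^ 2) :=
    hasSum_coe_mul_geometric_of_norm_lt_one (by rw [Real.norm_eq_abs, abs_of_pos hy0]; exact hy1)
  have h2 := h1.tendsto_sum_nat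
  have h3 : Tendsto (fun N : ℕ => y + y * ∑ n ∈ Finset.range N, (n : ℝ) * y ^ n) atTop
      (𝓝 (y + y * (y / (1 - y) ^ 2))) := (h2.const_mul y).const_add y
  have h4 : 1 < y + y * (y / (1 - y) ^ 2) := by
    have h5 : 0 < (1 - y) ^ 2 := by
      have : 0 < 1 - y := by linarith
      positivity
    have h6 : 1 - y < y * (y / (1 - y) ^ 2) := by
      rw [← mul_div_assoc, lt_div_iff₀ h5]
      nlinarith [hy]
    linarith
  have h5 := h3.eventually (lt_mem_nhds h4)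
  obtain ⟨N, hN, hN1⟩ := (h5.and (eventually_ge_atTop 1)).exists
  refine ⟨N, hN.le.trans ?_⟩
  obtain ⟨M, rfl⟩ : ∃ M, N = M + 1 := ⟨N - 1, by omega⟩
  rw [Finset.sum_range_succ', Finset.sum_range_succ', mul_add, Finset.mul_sum]
  have h6 : (1 : ℝ) ≤ s 1 := by exact_mod_cast hs1
  have h7 : ∑ i ∈ Finset.range M, y * ((((i + 1 : ℕ) : ℝ)) * y ^ (i + 1)) ≤
      ∑ k ∈ Finset.range M, (s (k + 1 + 1) : ℝ) * y ^ (k + 1 + 1) := by
    refine Finset.sum_le_sum fun i _ => ?_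
    have h8 : ((i + 1 : ℕ) : ℝ) ≤ s (i + 2) := by exact_mod_cast hs i
    calc y * ((((i + 1 : ℕ) : ℝ)) * y ^ (i + 1)) = ((i + 1 : ℕ) : ℝ) * y ^ (i + 1 + 1) := by ring
      _ ≤ (s (i + 2) : ℝ) * y ^ (i + 1 + 1) := mul_le_mul_of_nonneg_right h8 (by positivity)
  simp only [Nat.cast_zero, zero_mul, mul_zero, add_zero, zero_add, pow_one]
  nlinarith [mul_le_mul_of_nonneg_right h6 hy0.le]

/-- The heavy case. -/
lemma sum_of_heavy (h : 10 ^ 18 ≤ ∑ k ∈ Finset.range 9, s (k + 1) * (43 ^ (k + 1) * 100 ^ (8 - k)))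
    {y : ℝ} (hy : 43 / 100 ≤ y) :
    1 ≤ ∑ k ∈ Finset.range 9, (s (k + 1) : ℝ) * y ^ (k + 1) := by
  have h1 : ((10 : ℝ) ^ 18) ≤
      ∑ k ∈ Finset.range 9, (s (k + 1) : ℝ) * (43 ^ (k + 1) * 100 ^ (8 - k)) := by
    exact_mod_cast h
  have h2 : ∑ k ∈ Finset.range 9, (s (k + 1) : ℝ) * (43 ^ (k + 1) * 100 ^ (8 - k)) =
      10 ^ 18 * ∑ k ∈ Finset.range 9, (s (k + 1) : ℝ) * (43 / 100) ^ (k + 1) := by
    rw [Finset.mul_sum]
    refine Finset.sum_congr rfl fun k hk => ?_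
    rw [Finset.mem_range] at hk
    have h3 : (10 : ℝ) ^ 18 = 100 ^ (k + 1) * 100 ^ (8 - k) := by
      rw [← pow_add, show k + 1 + (8 - k) = 9 by omega]
      norm_num
    rw [h3, div_pow]
    field_simp
  rw [h2] at h1
  have h3 : (1 : ℝ) ≤ ∑ k ∈ Finset.range 9, (s (k + 1) : ℝ) * (43 / 100) ^ (k + 1) := by
    nlinarith [h1]
  refine h3.trans (Finset.sum_le_sum fun k _ => ?_)
  exact mul_le_mul_of_nonneg_left (pow_le_pow_left₀ (by norm_num) hy _) (Nat.cast_nonneg _)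

/-- The growth bound from both cases. -/
lemma main {τ : ℝ} (hτ1 : 2.32 < τ) (hτ2 : τ < 2.325) (hτ : τ ^ 3 - 3 * τ ^ 2 + 2 * τ - 1 = 0)
    (h0 : 1 ≤ c 0) (hs1 : 1 ≤ s 1)
    (hrec : ∀ n, ∑ k ∈ Finset.range n, s (k + 1) * c (n - (k + 1)) ≤ c n)
    (hcase : (∀ n, n + 1 ≤ s (n + 2)) ∨
      10 ^ 18 ≤ ∑ k ∈ Finset.range 9, s (k + 1) * (43 ^ (k + 1) * 100 ^ (8 - k))) :
    ENNReal.ofReal τ ≤
      liminf (fun n : ℕ => ((c n : ℕ) : ℝ≥0∞) ^ ((1 : ℝ) / (n : ℝ))) atTop := by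
  set L := liminf (fun n : ℕ => ((c n : ℕ) : ℝ≥0∞) ^ ((1 : ℝ) / (n : ℝ))) atTop with hL
  have key : ∀ t : ℝ, 2 < t → t < τ → ENNReal.ofReal t ≤ L := by
    intro t ht1 ht2
    have hy0 : 0 < t⁻¹ := by positivity
    have hy1 : t⁻¹ < 1 := inv_lt_one_of_one_lt₀ (by linarith)
    obtain ⟨N, hN⟩ : ∃ N, 1 ≤ ∑ k ∈ Finset.range N, (s (k + 1) : ℝ) * t⁻¹ ^ (k + 1) := by
      rcases hcase with hcase | hcase
      · apply sum_of_large hs1 hcase hy0 hy1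
        have h1 := poly_lt ht1 ht2
        rw [hτ] at h1
        have h2 : (1 - t⁻¹) ^ 3 - t⁻¹ ^ 2 = (t ^ 3 - 3 * t ^ 2 + 2 * t - 1) * t⁻¹ ^ 3 := by
          field_simp
          ring
        have h3 : (t ^ 3 - 3 * t ^ 2 + 2 * t - 1) * t⁻¹ ^ 3 < 0 :=
          mul_neg_of_neg_of_pos h1 (by positivity)
        linarith
      · refine ⟨9, sum_of_heavy hcase ?_⟩
        rw [le_inv_comm₀ (by norm_num) (by linarith)]
        norm_num at hτ2 ⊢
        linarith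
    have h4 := le_liminf c hy0 (lower h0 hs1 hrec hy0 hy1.le hN)
    rwa [inv_inv] at h4
  by_contra hcon
  push Not at hcon
  have hLtop : L ≠ ⊤ := ne_top_of_lt hcon
  obtain ⟨ℓ, hℓ0, hℓ⟩ : ∃ ℓ : ℝ, 0 ≤ ℓ ∧ L = ENNReal.ofReal ℓ :=
    ⟨L.toReal, ENNReal.toReal_nonneg, (ENNReal.ofReal_toReal hLtop).symm⟩
  have h6 : ℓ < τ := by
    rw [hℓ] at hcon
    exact (ENNReal.ofReal_lt_ofReal_iff (by linarith)).1 hcon
  have h7 := key (max ((ℓ + τ) / 2) 2.1) (by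
    refine lt_of_lt_of_le ?_ (le_max_right _ _)
    norm_num) (max_lt (by linarith) (by linarith))
  rw [hℓ] at h7
  have h8 := (ENNReal.ofReal_le_ofReal_iff hℓ0).1 h7
  have h9 := le_max_left ((ℓ + τ) / 2) 2.1
  have h10 := h9.trans h8
  linarith

end Pool.Agent.Helper46.SC.Growth
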