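import Mathlib
import Pool.Agent.Helper46.SC.Class
import Pool.Agent.Helper46.SC.Growth

/-! The growth rate threshold for sum closed classes with unbounded indecomposables. -/

namespace Pool.Agent.Helper46.SC

open List Pool.Agent.R120 Pool.Agent.R120.Antichain Pool.Agent.R120.SumClass Filter Topology
open scoped ENNReal

lemma level_mul_le {C : Set AllPerms} (hS : SumClosed C) (m n : ℕ) :
    level C m * level C n ≤ level C (m + n) := by
  classical
  have h1 : ((lev (ls C) m) ×ˢ (lev (ls C) n)).ncard = level C m * level C n := by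
    rw [Set.ncard_prod, ncard_lev_ls, ncard_lev_ls]
  rw [← h1, ← ncard_lev_ls C (m + n)]
  let φ : List ℕ × List ℕ → List ℕ := fun ab => ab.1 ++ ab.2.map (· + m)
  have h2 : Set.InjOn φ ((lev (ls C) m) ×ˢ (lev (ls C) n)) := by
    rintro ⟨a, b⟩ ⟨⟨_, ha⟩, _⟩ ⟨a', b'⟩ ⟨⟨_, ha'⟩, _⟩ h
    have h3 : a ++ b.map (· + m) = a' ++ b'.map (· + m) := h
    have h4 : a.length = a'.length := by
      have e1 : a.length = m := ha
      have e2 : a'.length = m := ha'
      rw [e1, e2]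
    obtain ⟨h5, h6⟩ := List.append_inj h3 h4
    have h7 : b = b' := List.map_injective_iff.2 (fun x y hxy => Nat.add_right_cancel hxy) h6
    rw [h5, h7]
  rw [← h2.ncard_image]
  refine Set.ncard_le_ncard ?_ (finite_lev_ls C _)
  rintro _ ⟨⟨a, b⟩, ⟨⟨⟨p, hp, hpa⟩, ha⟩, ⟨⟨q, hq, hqb⟩, hb⟩⟩, rfl⟩
  have e1 : toA p = a := hpa
  have e2 : toA q = b := hqb
  have e3 : a.length = m := ha
  have e4 : b.length = n := hb
  have e5 : p.1 = m := by rw [← length_toA, e1, e3]
  refine ⟨⟨dsum p q, hS p hp q hq, ?_⟩, ?_⟩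
  · rw [toA_dsum, e1, e2, e5]
  · show (a ++ b.map (· + m)).length = m + n
    rw [List.length_append, List.length_map, e3, e4]

lemma one_le_level_zero {C : Set AllPerms} (hC : IsClass C) {p : AllPerms} (hp : p ∈ C) :
    1 ≤ level C 0 := by
  have h1 : (⟨0, 1⟩ : AllPerms) ∈ C := by
    refine hC p hp ⟨0, 1⟩ ⟨Fin.elim0, fun i => Fin.elim0 i, fun i => Fin.elim0 i⟩
  unfold level
  rw [Nat.one_le_iff_ne_zero]
  intro h
  rw [Set.ncard_eq_zero (Set.toFinite _)] at h
  have : (1 : Equiv.Perm (Fin 0)) ∈ {π : Equiv.Perm (Fin 0) | (⟨0, π⟩ : AllPerms) ∈ C} := h1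
  rw [h] at this
  exact this

theorem threshold {τ : ℝ} (hτ1 : 2.32 < τ) (hτ2 : τ < 2.325)
    (hτ : τ ^ 3 - 3 * τ ^ 2 + 2 * τ - 1 = 0) {C : Set AllPerms} (hC : IsClass C)
    (hS : SumClosed C) (hub : ¬ ∃ B : ℕ, ∀ n, level (ind C) n ≤ B) :
    ∃ g : ℝ≥0∞, Tendsto (fun n : ℕ => ((level C n : ℕ) : ℝ≥0∞) ^ ((1 : ℝ) / (n : ℝ))) atTop
      (𝓝 g) ∧ ENNReal.ofReal τ ≤ g := by
  have hI : DownConn (ls (ind C)) := downConn_ls hC
  have hI' : ¬ Bdd (ls (ind C)) := by
    rintro ⟨B, hB⟩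
    exact hub ⟨B, fun n => by rw [← ncard_lev_ls]; exact hB n⟩
  have hs1 : 1 ≤ level (ind C) 1 := by
    rw [← ncard_lev_ls]
    exact one_le_lev_one hI hI'
  have h0 : 1 ≤ level C 0 := by
    obtain ⟨p, hp⟩ : ∃ p, p ∈ C := by
      by_contra hcon
      push Not at hcon
      apply hub
      refine ⟨0, fun n => ?_⟩
      have : {π : Equiv.Perm (Fin n) | (⟨n, π⟩ : AllPerms) ∈ ind C} = ∅ := by
        ext π
        simp only [Set.mem_empty_iff_false, iff_false]
        intro h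
        exact hcon _ h.1
      unfold level
      rw [this]
      simp
    exact one_le_level_zero hC hp
  have hrec := sum_le_level hS
  have hcase : (∀ n, n + 1 ≤ level (ind C) (n + 2)) ∨
      10 ^ 18 ≤ ∑ k ∈ Finset.range 9, level (ind C) (k + 1) * (43 ^ (k + 1) * 100 ^ (8 - k)) := by
    rcases dichotomy' hI hI' with h | h
    · left
      intro n
      rw [← ncard_lev_ls]
      exact h n
    · right
      refine h.trans (le_of_eq ?_)
      unfold Srch.total
      exact Finset.sum_congr rfl fun k _ => by rw [ncard_lev_ls]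
  obtain ⟨g, hg⟩ := Growth.exists_limit (c := level C) (level_mul_le hS)
    (Growth.one_le h0 hs1 hrec)
  refine ⟨g, hg, ?_⟩
  rw [← hg.liminf_eq]
  exact Growth.main hτ1 hτ2 hτ h0 hs1 hrec hcase

end Pool.Agent.Helper46.SC
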